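import Pool.Agent.Leb.Vertex

/-! # LEB-F: aggregation of the cross products -/

namespace PoolLeb

/-- cross product of the approximate positions -/
noncomputable def crA (t : ℕ → ℂ) (x : ℕ → ℝ) (v w : Vx) : ℝ :=
  cr (t v.s + Complex.exp (x v.s * Complex.I) * vz v)
     (t w.s + Complex.exp (x w.s * Complex.I) * vz w)

/-- value of an aggregate at the slot pair `(i, j)` -/
noncomputable def aval (t : ℕ → ℂ) (x : ℕ → ℝ) (i j : ℕ) (A : Agg) : ℝ :=
  (((⟨A.re, A.im⟩ : ℂ) / 10 ^ 16) * Complex.exp ((x j - x i : ℝ) * Complex.I)).im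
  + cr (t i) (Complex.exp (x j * Complex.I) * ((⟨A.bx, A.bY⟩ : ℂ) / 10 ^ 8))
  + cr (Complex.exp (x i * Complex.I) * ((⟨A.ax, A.ay⟩ : ℂ) / 10 ^ 8)) (t j)
  + (A.n : ℝ) * cr (t i) (t j)

theorem agg_selV_cons (i : ℕ) (e : WE) (es : List WE) :
    selV i (e :: es) = if e.v.s = i then e :: selV i es else selV i es := by
  unfold selV
  rw [List.filter_cons]
  by_cases h : e.v.s = i
  · simp [h]
  · have h1 : Nat.beq e.v.s i = false := by
      rw [Bool.eq_false_iff]
      intro h2
      exact h (Nat.eq_of_beq_eq_true h2)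
    simp [h, h1]

theorem agg_selW_cons (i : ℕ) (e : WE) (es : List WE) :
    selW i (e :: es) = if e.w.s = i then e :: selW i es else selW i es := by
  unfold selW
  rw [List.filter_cons]
  by_cases h : e.w.s = i
  · simp [h]
  · have h1 : Nat.beq e.w.s i = false := by
      rw [Bool.eq_false_iff]
      intro h2
      exact h (Nat.eq_of_beq_eq_true h2)
    simp [h, h1]

theorem agg_sel_cons (i j : ℕ) (e : WE) (es : List WE) :
    agg (selW j (selV i (e :: es))) =
      if e.v.s = i ∧ e.w.s = j then aggE e (agg (selW j (selV i es)))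
        else agg (selW j (selV i es)) := by
  rw [agg_selV_cons]
  by_cases h : e.v.s = i
  · rw [if_pos h, agg_selW_cons]
    by_cases h' : e.w.s = j
    · rw [if_pos h', if_pos ⟨h, h'⟩]
      rfl
    · rw [if_neg h', if_neg fun h2 => h' h2.2]
  · rw [if_neg h, if_neg fun h2 => h h2.1]

theorem agg_matAt (m : ℕ) (es : List WE) (i j : ℕ) (hi : i < m) (hj : j < m) :
    matAt (aggMat m es) i j = agg (selW j (selV i es)) := by
  unfold matAt aggMat aggRow
  have h1 : i < (List.map (fun i => List.map (fun j => agg (selW j (selV i es))) (List.range m))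
    (List.range m)).length := by simpa using hi
  rw [List.getD_eq_getElem _ _ h1, List.getElem_map, List.getElem_range]
  have h2 : j < (List.map (fun j => agg (selW j (selV i es))) (List.range m)).length := by
    simpa using hj
  rw [List.getD_eq_getElem _ _ h2, List.getElem_map, List.getElem_range]

theorem agg_div (a b c : ℝ) (n : ℕ) (hc : (c : ℂ) = 10 ^ n) :
    ((⟨a, b⟩ : ℂ) / 10 ^ n) = ⟨a / c, b / c⟩ := by
  rw [← hc]
  apply Complex.ext
  · rw [Complex.div_ofReal_re]
  · rw [Complex.div_ofReal_im]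

theorem agg_aval (t : ℕ → ℂ) (x : ℕ → ℝ) (i j : ℕ) (A : Agg) :
    aval t x i j A =
      ((A.re : ℝ) * (Real.sin (x j) * Real.cos (x i) - Real.cos (x j) * Real.sin (x i))
        + (A.im : ℝ) * (Real.cos (x j) * Real.cos (x i) + Real.sin (x j) * Real.sin (x i))) / 10 ^ 16
      + ((t i).re * (Real.cos (x j) * A.bY + Real.sin (x j) * A.bx)
        - (t i).im * (Real.cos (x j) * A.bx - Real.sin (x j) * A.bY)) / 10 ^ 8
      + ((Real.cos (x i) * A.ax - Real.sin (x i) * A.ay) * (t j).im
        - (Real.cos (x i) * A.ay + Real.sin (x i) * A.ax) * (t j).re) / 10 ^ 8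
      + (A.n : ℝ) * ((t i).re * (t j).im - (t i).im * (t j).re) := by
  unfold aval cr
  rw [agg_div _ _ (10 ^ 16) 16 (by push_cast; rfl), agg_div _ _ (10 ^ 8) 8 (by push_cast; rfl),
    agg_div _ _ (10 ^ 8) 8 (by push_cast; rfl)]
  simp only [Complex.mul_re, Complex.mul_im, Complex.exp_ofReal_mul_I_re,
    Complex.exp_ofReal_mul_I_im, Real.cos_sub, Real.sin_sub]
  ring

/-- grouping by the slots, for an additive function of the aggregate -/
theorem agg_group {R : Type} [AddCommMonoid R] (m : ℕ) (f : ℕ → ℕ → Agg → R) (g : WE → R)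
    (h0 : ∀ i j, f i j Agg.zero = 0)
    (hf : ∀ (e : WE) (A : Agg), f e.v.s e.w.s (aggE e A) = g e + f e.v.s e.w.s A) (es : List WE)
    (hm : ∀ e ∈ es, e.v.s < m ∧ e.w.s < m) :
    (es.map g).sum
      = ∑ i ∈ Finset.range m, ∑ j ∈ Finset.range m, f i j (matAt (aggMat m es) i j) := by
  have key : ∀ es : List WE, (∀ e ∈ es, e.v.s < m ∧ e.w.s < m) → (es.map g).sum
      = ∑ i ∈ Finset.range m, ∑ j ∈ Finset.range m, f i j (agg (selW j (selV i es))) := by
    intro es
    induction es with
    | nil =>
      intro _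
      have h1 : ∀ i j, f i j (agg (selW j (selV i []))) = 0 := h0
      simp only [h1, Finset.sum_const_zero, List.map_nil, List.sum_nil]
    | cons e es ih =>
      intro h
      have h1 := ih fun e' he' => h e' (List.mem_cons_of_mem _ he')
      obtain ⟨hv, hw⟩ := h e List.mem_cons_self
      have h2 : ∀ i j, f i j (agg (selW j (selV i (e :: es)))) =
          (if e.v.s = i ∧ e.w.s = j then g e else 0) + f i j (agg (selW j (selV i es))) := by
        intro i j
        rw [agg_sel_cons]
        by_cases h' : e.v.s = i ∧ e.w.s = j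
        · rw [if_pos h', if_pos h']
          obtain ⟨rfl, rfl⟩ := h'
          exact hf _ _
        · rw [if_neg h', if_neg h', zero_add]
      rw [List.map_cons, List.sum_cons, h1]
      simp only [h2, Finset.sum_add_distrib]
      congr 1
      rw [Finset.sum_eq_single e.v.s, Finset.sum_eq_single e.w.s]
      · simp
      · intro j _ hj
        rw [if_neg fun h' => hj h'.2.symm]
      · intro h'
        exact absurd (Finset.mem_range.2 hw) h'
      · intro i _ hi
        apply Finset.sum_eq_zero
        intro j _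
        rw [if_neg fun h' => hi h'.1.symm]
      · intro h'
        exact absurd (Finset.mem_range.2 hv) h'
  rw [key es hm]
  apply Finset.sum_congr rfl
  intro i hi
  apply Finset.sum_congr rfl
  intro j hj
  rw [agg_matAt m es i j (Finset.mem_range.1 hi) (Finset.mem_range.1 hj)]

/-- For an edge with slots `(i, j)`:
`crA = Im (conj a * b * e^{i(x_j - x_i)}) + cr t_i (e^{i x_j} b) + cr (e^{i x_i} a) t_j + cr t_i t_j`
and `aval` is additive in `A`; then the sum over the list is grouped by the slots
(`selV`, `selW` filters). -/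
theorem agg_sum (t : ℕ → ℂ) (x : ℕ → ℝ) (m : ℕ) (es : List WE)
    (hm : ∀ e ∈ es, e.v.s < m ∧ e.w.s < m) :
    (es.map (fun e => (e.l : ℝ) * crA t x e.v e.w)).sum
      = ∑ i ∈ Finset.range m, ∑ j ∈ Finset.range m, aval t x i j (matAt (aggMat m es) i j) := by
  apply agg_group m (aval t x) (fun e => (e.l : ℝ) * crA t x e.v e.w)
  · intro i j
    rw [agg_aval]
    simp [Agg.zero]
  · intro e A
    rw [agg_aval, agg_aval]
    simp only [aggE, crA, cr, vz, Complex.mul_re, Complex.mul_im, Complex.exp_ofReal_mul_I_re,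
      Complex.exp_ofReal_mul_I_im, Complex.add_re, Complex.add_im]
    push_cast
    ring
  · exact hm

/-- the total weight -/
theorem agg_n (m : ℕ) (es : List WE) (hm : ∀ e ∈ es, e.v.s < m ∧ e.w.s < m) :
    (es.map (fun e => e.l)).sum
      = ∑ i ∈ Finset.range m, ∑ j ∈ Finset.range m, (matAt (aggMat m es) i j).n := by
  apply agg_group m (fun _ _ A => A.n) (fun e => e.l)
  · intro i j
    rfl
  · intro e A
    show A.n + e.l = e.l + A.n
    ring
  · exact hm

end PoolLeb
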