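import Pool.Agent.Leb.Vertex

/-! # LEB-I: angles -/

namespace PoolLeb

theorem angle_lip (a b : ℝ) : |Real.arctan a - Real.arctan b| ≤ |a - b| := by
  have h := Convex.norm_image_sub_le_of_norm_deriv_le (f := Real.arctan) (C := 1) (s := Set.univ)
    (x := b) (y := a) (fun x _ => Real.differentiableAt_arctan x) (fun x _ => by
      rw [Real.deriv_arctan, Real.norm_eq_abs, abs_of_nonneg (by positivity)]
      rw [div_le_one (by positivity)]
      nlinarith [sq_nonneg x]) convex_univ (Set.mem_univ _) (Set.mem_univ _)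
  simpa using h

theorem angle_w0 (p : ℤ) :
    Complex.exp (((2 * Real.arctan ((p : ℝ) / 10 ^ 4) : ℝ) : ℂ) * Complex.I) = w0 p := by
  set u : ℝ := (p : ℝ) / 10 ^ 4 with hu
  set s : ℝ := √(1 + u ^ 2) with hs
  have hpos : 0 < 1 + u ^ 2 := by positivity
  have hs2 : s ^ 2 = 1 + u ^ 2 := Real.sq_sqrt hpos.le
  have hs0 : s ≠ 0 := (Real.sqrt_pos.2 hpos).ne'
  have h1 : Complex.exp ((Real.arctan u : ℂ) * Complex.I) = (1 + (u : ℂ) * Complex.I) / (s : ℂ) := by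
    rw [Complex.exp_mul_I, ← Complex.ofReal_cos, ← Complex.ofReal_sin, Real.cos_arctan,
      Real.sin_arctan, ← hs]
    push_cast
    ring
  have h2 : (((2 * Real.arctan u : ℝ) : ℂ) * Complex.I) =
      ((Real.arctan u : ℂ) * Complex.I) + ((Real.arctan u : ℂ) * Complex.I) := by
    push_cast
    ring
  rw [h2, Complex.exp_add, h1]
  have hs2' : (s : ℂ) * (s : ℂ) = 1 + (u : ℂ) ^ 2 := by
    rw [← pow_two]
    exact_mod_cast hs2
  rw [div_mul_div_comm, hs2', w0]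
  have hpu : (p : ℂ) = 10000 * (u : ℂ) := by
    rw [hu]
    push_cast
    ring
  have hne : (1 + (u : ℂ) ^ 2) ≠ 0 := by
    have : ((1 + u ^ 2 : ℝ) : ℂ) ≠ 0 := by exact_mod_cast hpos.ne'
    push_cast at this
    exact this
  have hne' : ((10000 : ℂ) ^ 2 + (10000 * (u : ℂ)) ^ 2) ≠ 0 := by
    have : (10000 : ℂ) ^ 2 + (10000 * (u : ℂ)) ^ 2 = 10000 ^ 2 * (1 + (u : ℂ) ^ 2) := by ring
    rw [this]
    exact mul_ne_zero (by norm_num) hne
  rw [hpu, div_eq_div_iff hne hne']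
  ring

/-- `w0 p = exp(i θ_p)`, `θ_p = 2 arctan(p/10^4)`; `θ = 2 arctan(tan(θ/2))`, `x := θ - θ_p`, and
`arctan` is 1-Lipschitz. -/
theorem angle_box {θ : ℝ} (hθ : |θ| < Real.pi) {p : ℤ} {e : ℝ}
    (h : |Real.tan (θ / 2) * 10 ^ 4 - p| ≤ e) :
    ∃ x : ℝ, |x| ≤ 2 * e / 10 ^ 4 ∧
      Complex.exp (θ * Complex.I) = Complex.exp (x * Complex.I) * w0 p := by
  obtain ⟨h1, h2⟩ := abs_lt.1 hθ
  have hθ' : θ = 2 * Real.arctan (Real.tan (θ / 2)) := by
    rw [Real.arctan_tan (by linarith) (by linarith)]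
    ring
  refine ⟨θ - 2 * Real.arctan ((p : ℝ) / 10 ^ 4), ?_, ?_⟩
  · have h3 := angle_lip (Real.tan (θ / 2)) ((p : ℝ) / 10 ^ 4)
    have h4 : θ - 2 * Real.arctan ((p : ℝ) / 10 ^ 4) =
        2 * (Real.arctan (Real.tan (θ / 2)) - Real.arctan ((p : ℝ) / 10 ^ 4)) := by
      linarith
    have h5 : |Real.tan (θ / 2) - (p : ℝ) / 10 ^ 4| ≤ e / 10 ^ 4 := by
      have h6 : Real.tan (θ / 2) - (p : ℝ) / 10 ^ 4 = (Real.tan (θ / 2) * 10 ^ 4 - p) / 10 ^ 4 := by
        field_simp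
      rw [h6, abs_div, abs_of_pos (by norm_num : (0 : ℝ) < 10 ^ 4)]
      exact div_le_div_of_nonneg_right h (by norm_num)
    rw [h4, abs_mul, abs_of_pos (by norm_num : (0 : ℝ) < 2), mul_div_assoc]
    linarith
  · rw [← angle_w0, ← Complex.exp_add]
    congr 1
    push_cast
    ring

theorem w0_zero : w0 0 = 1 := by
  unfold w0
  norm_num

theorem angle_tan {u : ℝ} (h0 : 0 ≤ u) (h1 : u ≤ 1) : Real.tan u ≤ u / (1 - u ^ 2 / 2) := by
  rw [Real.tan_eq_sin_div_cos]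
  have h2 : 0 < 1 - u ^ 2 / 2 := by nlinarith
  exact div_le_div₀ h0 (Real.sin_le h0) h2 (Real.one_sub_sq_div_two_le_cos)

theorem angle_tan' {u c d : ℝ} (h0 : 0 ≤ u) (hu : u ≤ c) (hc : c ≤ 1)
    (hd : c / (1 - c ^ 2 / 2) ≤ d) : Real.tan u ≤ d := by
  refine (angle_tan h0 (hu.trans hc)).trans (le_trans ?_ hd)
  have h2 : 0 < 1 - c ^ 2 / 2 := by nlinarith
  refine div_le_div₀ (h0.trans hu) hu h2 ?_
  nlinarith

theorem angle_tan_nonneg {u : ℝ} (h0 : 0 ≤ u) (h1 : u ≤ 1) : 0 ≤ Real.tan u :=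
  Real.tan_nonneg_of_nonneg_of_le_pi_div_two h0 (by linarith [Real.pi_gt_three])

/-- `tan u ≤ u/(1 - u^2/2)` for `0 ≤ u ≤ 1` (`Real.sin_le`, `Real.one_sub_sq_div_two_le_cos`) and
`π < 3.1416`. -/
theorem tan_bound5 {θ : ℝ} (h0 : 0 ≤ θ) (h1 : θ ≤ Real.pi / 15) :
    0 ≤ Real.tan (θ / 2) * 10 ^ 4 ∧ Real.tan (θ / 2) * 10 ^ 4 ≤ 1053 := by
  have hpi := Real.pi_lt_d4
  have h2 : θ / 2 ≤ 0.10472 := by linarith
  refine ⟨mul_nonneg (angle_tan_nonneg (by linarith) (by linarith)) (by norm_num), ?_⟩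
  have h3 := angle_tan' (u := θ / 2) (c := 0.10472) (d := 0.1053) (by linarith) h2 (by norm_num)
    (by norm_num)
  linarith

theorem tan_bound7 {θ : ℝ} (h : |θ| ≤ Real.pi / 7) :
    |Real.tan (θ / 2) * 10 ^ 4| ≤ 2303 := by
  have hpi := Real.pi_lt_d4
  have key : ∀ u : ℝ, 0 ≤ u → u ≤ 0.2244 → 0 ≤ Real.tan u ∧ Real.tan u ≤ 0.2303 := by
    intro u hu hu'
    exact ⟨angle_tan_nonneg hu (by linarith),
      angle_tan' hu hu' (by norm_num) (by norm_num)⟩
  rw [abs_mul, abs_of_pos (by norm_num : (0 : ℝ) < 10 ^ 4)]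
  have h1 : |Real.tan (θ / 2)| ≤ 0.2303 := by
    rcases le_total 0 θ with h2 | h2
    · rw [abs_of_nonneg h2] at h
      obtain ⟨h3, h4⟩ := key (θ / 2) (by linarith) (by linarith)
      rw [abs_of_nonneg h3]
      exact h4
    · rw [abs_of_nonpos h2] at h
      obtain ⟨h3, h4⟩ := key (-(θ / 2)) (by linarith) (by linarith)
      rw [Real.tan_neg] at h3 h4
      rw [abs_of_nonpos (by linarith)]
      exact h4
  linarith

/-- every complex number can be turned by a multiple of `2π/n` into the sector `|arg| ≤ π/n` -/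
theorem exists_turn {n : ℕ} (hn : 1 ≤ n) {w : ℂ} (hw : ‖w‖ = 1) :
    ∃ k : ℕ, k < n ∧ ∃ θ : ℝ, |θ| ≤ Real.pi / n ∧
      w * Complex.exp (2 * Real.pi * Complex.I * (k : ℂ) / (n : ℂ))
        = Complex.exp (θ * Complex.I) := by
  have hn0 : (n : ℝ) ≠ 0 := by positivity
  have hnc : (n : ℂ) ≠ 0 := by exact_mod_cast hn0
  have hnz : (n : ℤ) ≠ 0 := by exact_mod_cast (by omega : n ≠ 0)
  set φ : ℝ := Complex.arg w with hφ
  have hwφ : w = Complex.exp (φ * Complex.I) := by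
    have := Complex.norm_mul_exp_arg_mul_I w
    rw [hw, Complex.ofReal_one, one_mul] at this
    exact this.symm
  set m : ℤ := -round (φ * n / (2 * Real.pi)) with hm
  have hpi := Real.pi_pos
  refine ⟨(m % n).toNat, ?_, φ + 2 * Real.pi * m / n, ?_, ?_⟩
  · have h1 := Int.emod_lt_of_pos m (b := (n : ℤ)) (by omega)
    have h2 := Int.emod_nonneg m hnz
    omega
  · have h1 := abs_sub_round (φ * n / (2 * Real.pi))
    have h2 : φ + 2 * Real.pi * m / n =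
        (φ * n / (2 * Real.pi) - round (φ * n / (2 * Real.pi))) * (2 * Real.pi / n) := by
      rw [hm]
      push_cast
      field_simp
      ring
    rw [h2, abs_mul, abs_of_pos (by positivity : 0 < 2 * Real.pi / n)]
    calc |φ * n / (2 * Real.pi) - round (φ * n / (2 * Real.pi))| * (2 * Real.pi / n) ≤
        1 / 2 * (2 * Real.pi / n) := mul_le_mul_of_nonneg_right h1 (by positivity)
      _ = Real.pi / n := by ring
  · have h2 := Int.emod_nonneg m hnz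
    obtain ⟨q, hq⟩ : ∃ q : ℤ, m = (m % n) + n * q := ⟨m / n, (Int.emod_add_mul_ediv m n).symm⟩
    have h3 : (((m % n).toNat : ℕ) : ℂ) = ((m % n : ℤ) : ℂ) := by
      have : (((m % n).toNat : ℤ)) = m % n := Int.toNat_of_nonneg h2
      exact_mod_cast congrArg (fun z : ℤ => (z : ℂ)) this
    rw [h3, hwφ, ← Complex.exp_add]
    have h4 : (((φ + 2 * Real.pi * m / n : ℝ) : ℂ) * Complex.I) =
        ((φ : ℂ) * Complex.I + 2 * Real.pi * Complex.I * ((m % n : ℤ) : ℂ) / (n : ℂ)) +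
          q * (2 * Real.pi * Complex.I) := by
      have h5 : (m : ℂ) = ((m % n : ℤ) : ℂ) + n * q := by exact_mod_cast congrArg (fun z : ℤ => (z : ℂ)) hq
      push_cast
      rw [h5]
      field_simp
      ring
    rw [h4, Complex.exp_add _ (q * (2 * Real.pi * Complex.I)), Complex.exp_int_mul_two_pi_mul_I,
      mul_one]

/-- octagon: eight half-planes bound the norm -/
theorem oct_norm {x y al be r : ℝ} (h1 : al ≤ be) (h2 : be ≤ 2 * al) (hr : 0 ≤ r)
    (hr2 : al ^ 2 + (be - al) ^ 2 ≤ r ^ 2)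
    (a1 : x ≤ al) (a2 : x + y ≤ be) (a3 : y ≤ al) (a4 : -x + y ≤ be) (a5 : -x ≤ al)
    (a6 : -x - y ≤ be) (a7 : -y ≤ al) (a8 : x - y ≤ be) : x ^ 2 + y ^ 2 ≤ r ^ 2 := by
  refine le_trans ?_ hr2
  have key : ∀ X Y : ℝ, 0 ≤ X → 0 ≤ Y → X ≤ al → Y ≤ al → X + Y ≤ be →
      X ^ 2 + Y ^ 2 ≤ al ^ 2 + (be - al) ^ 2 := by
    intro X Y hX hY hXa hYa hXY
    by_cases h : Y ≤ be - al
    · nlinarith
    · push Not at h
      have h3 : X ^ 2 ≤ (be - Y) ^ 2 := by
        apply pow_le_pow_left₀ hX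
        linarith
      nlinarith [mul_nonneg (sub_nonneg.2 hYa) (sub_nonneg.2 h.le)]
  have h3 := key |x| |y| (abs_nonneg _) (abs_nonneg _) (abs_le.2 ⟨by linarith, a1⟩)
    (abs_le.2 ⟨by linarith, a3⟩) (by
      rcases le_total 0 x with hx | hx <;> rcases le_total 0 y with hy | hy
      · rw [abs_of_nonneg hx, abs_of_nonneg hy]; exact a2
      · rw [abs_of_nonneg hx, abs_of_nonpos hy]; linarith
      · rw [abs_of_nonpos hx, abs_of_nonneg hy]; linarith
      · rw [abs_of_nonpos hx, abs_of_nonpos hy]; linarith)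
  rwa [sq_abs, sq_abs] at h3

end PoolLeb
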