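import Pool.Agent.Leb.Tables
import Pool.Agent.Leb.Angle

/-! # LEB-J: the three bodies -/

open MeasureTheory

namespace PoolLeb

/-- the finite subset of the regular Reuleaux `n`-gon (`n = 3, 5, 7`) -/
def bodySet (n : ℕ) : Set ℂ := {z | ∃ i < 13 * n, z = bodyPt n i}

/-- the root of unity `exp(2πi k/n)` -/
noncomputable def bodies_E (n k : ℕ) : ℂ := Complex.exp (2 * Real.pi * Complex.I * (k : ℂ) / (n : ℂ))

theorem bodies_pos {n : ℕ} (hn : n = 3 ∨ n = 5 ∨ n = 7) : 0 < n := by omega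

theorem bodies_add (n a b : ℕ) : bodies_E n a * bodies_E n b = bodies_E n (a + b) := by
  unfold bodies_E
  rw [← Complex.exp_add]
  congr 1
  push_cast
  ring

theorem bodies_self {n : ℕ} (hn : 0 < n) (m : ℕ) : bodies_E n (n * m) = 1 := by
  unfold bodies_E
  rw [Complex.exp_eq_one_iff]
  refine ⟨m, ?_⟩
  have h : (n : ℂ) ≠ 0 := Nat.cast_ne_zero.2 hn.ne'
  field_simp
  push_cast
  ring

theorem bodies_mod {n : ℕ} (hn : 0 < n) (k : ℕ) : bodies_E n (k % n) = bodies_E n k := by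
  conv_rhs => rw [← Nat.mod_add_div k n, ← bodies_add, bodies_self hn, mul_one]

theorem bodies_zero (n : ℕ) : bodies_E n 0 = 1 := by
  unfold bodies_E
  simp

theorem bodies_norm (n k : ℕ) : ‖bodies_E n k‖ = 1 := by
  unfold bodies_E
  rw [show 2 * (Real.pi : ℂ) * Complex.I * (k : ℂ) / (n : ℂ) =
    ((2 * Real.pi * k / n : ℝ) : ℂ) * Complex.I by push_cast; ring]
  exact Complex.norm_exp_ofReal_mul_I _

theorem bodies_conj {n : ℕ} (hn : 0 < n) {a : ℕ} (ha : a < n) :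
    (starRingEnd ℂ) (bodies_E n a) = bodies_E n (n - a) := by
  have h1 : bodies_E n a * bodies_E n (n - a) = 1 := by
    rw [bodies_add, Nat.add_sub_cancel' ha.le]
    have := bodies_self hn 1
    rwa [mul_one] at this
  have h2 : bodies_E n a * (starRingEnd ℂ) (bodies_E n a) = 1 := by
    rw [Complex.mul_conj, Complex.normSq_eq_norm_sq, bodies_norm]
    simp
  have h0 : bodies_E n a ≠ 0 := by
    intro h
    rw [h, zero_mul] at h1
    exact zero_ne_one h1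
  exact mul_left_cancel₀ h0 (h2.trans h1.symm)

theorem bodies_pt {n : ℕ} (hn : n = 3 ∨ n = 5 ∨ n = 7) (i : ℕ) :
    bodyPt n i = bodies_E n (i / 13) * toC (bpt n (i % 13)) := by
  unfold bodyPt
  rw [if_pos hn]
  rfl

theorem bodies_mem {n : ℕ} (hn : n = 3 ∨ n = 5 ∨ n = 7) (a : ℕ) {l : ℕ} (hl : l < 13) :
    bodies_E n a * toC (bpt n l) ∈ bodySet n := by
  have h0 := bodies_pos hn
  have h1 := Nat.mod_lt a h0
  refine ⟨13 * (a % n) + l, by omega, ?_⟩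
  rw [bodies_pt hn, show (13 * (a % n) + l) / 13 = a % n by omega,
    show (13 * (a % n) + l) % 13 = l by omega, bodies_mod h0]

theorem bodies_ex {n : ℕ} (hn : n = 3 ∨ n = 5 ∨ n = 7) {z : ℂ} (hz : z ∈ bodySet n) :
    ∃ a < n, ∃ l < 13, z = bodies_E n a * toC (bpt n l) := by
  obtain ⟨i, hi, rfl⟩ := hz
  exact ⟨i / 13, by omega, i % 13, Nat.mod_lt _ (by norm_num), bodies_pt hn i⟩

theorem bodies_tabconj {n : ℕ} (hn : n = 3 ∨ n = 5 ∨ n = 7) : ∀ l < 13, ∃ m < 13,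
    bpt n m = ((bpt n l).1, -(bpt n l).2) := by
  rcases hn with rfl | rfl | rfl <;> decide +kernel

theorem bodies_tabdist {n : ℕ} (hn : n = 3 ∨ n = 5 ∨ n = 7) : ∀ l < 13, ∀ j < 13 * n,
    ((bpt n l).1 - (bpt n j).1) ^ 2 + ((bpt n l).2 - (bpt n j).2) ^ 2 ≤ 99999998 ^ 2 := by
  rcases hn with rfl | rfl | rfl <;> decide +kernel

theorem bodies_tab0 {n : ℕ} (hn : n = 3 ∨ n = 5 ∨ n = 7) :
    0 < (bpt n 0).1 ∧ (bpt n 0).2 = 0 ∧ (bpt n 0).1 ≠ (bpt n 1).1 := by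
  rcases hn with rfl | rfl | rfl <;> decide +kernel

theorem bodies_toC_conj (z : ℤ × ℤ) : (starRingEnd ℂ) (toC z) = toC (z.1, -z.2) := by
  unfold toC
  apply Complex.ext
  · simp
  · simp [neg_div]

theorem bodies_toC_dist {z w : ℤ × ℤ}
    (h : (z.1 - w.1) ^ 2 + (z.2 - w.2) ^ 2 ≤ (99999998 : ℤ) ^ 2) :
    ‖toC z - toC w‖ ≤ 1 - 2 / 10 ^ 8 := by
  have h1 : (((z.1 - w.1) ^ 2 + (z.2 - w.2) ^ 2 : ℤ) : ℝ) ≤ ((99999998 ^ 2 : ℤ) : ℝ) :=
    Int.cast_le.2 h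
  push_cast at h1
  have h2 : ‖toC z - toC w‖ ^ 2 ≤ (1 - 2 / 10 ^ 8) ^ 2 := by
    rw [← Complex.normSq_eq_norm_sq, Complex.normSq_apply]
    unfold toC
    simp only [Complex.sub_re, Complex.sub_im]
    have e : ((z.1 : ℝ) / 100000000 - (w.1 : ℝ) / 100000000) * ((z.1 : ℝ) / 100000000 - (w.1 : ℝ) / 100000000) +
        ((z.2 : ℝ) / 100000000 - (w.2 : ℝ) / 100000000) * ((z.2 : ℝ) / 100000000 - (w.2 : ℝ) / 100000000) =
        (((z.1 : ℝ) - w.1) ^ 2 + ((z.2 : ℝ) - w.2) ^ 2) / 100000000 ^ 2 := by ring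
    rw [e, div_le_iff₀ (by norm_num)]
    refine h1.trans (le_of_eq ?_)
    norm_num
  exact abs_le_of_sq_le_sq' h2 (by norm_num) |>.2

theorem bodies_sum {n : ℕ} (hn : 1 < n) : ∑ a ∈ Finset.range n, bodies_E n a = 0 := by
  have h := (Complex.isPrimitiveRoot_exp n (by omega)).geom_sum_eq_zero hn
  rw [← h]
  refine Finset.sum_congr rfl fun a _ => ?_
  unfold bodies_E
  rw [← Complex.exp_nat_mul]
  congr 1
  ring

theorem bodies_toC0 {n : ℕ} (hn : n = 3 ∨ n = 5 ∨ n = 7) :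
    toC (bpt n 0) = ((‖toC (bpt n 0)‖ : ℝ) : ℂ) := by
  obtain ⟨h1, h2, -⟩ := bodies_tab0 hn
  have e : toC (bpt n 0) = ((((bpt n 0).1 : ℝ) / 100000000 : ℝ) : ℂ) := by
    unfold toC
    apply Complex.ext
    · simp
    · rw [h2]; simp
  have h3 : (0 : ℝ) ≤ ((bpt n 0).1 : ℝ) / 100000000 := by
    have : (0 : ℝ) < ((bpt n 0).1 : ℝ) := by exact_mod_cast h1
    positivity
  rw [e, Complex.norm_real, Real.norm_of_nonneg h3]

/-- `ζ * bodyPt n i = bodyPt n ((i + 13) % (13 n))` -/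
theorem bodySet_rot {n : ℕ} (hn : n = 3 ∨ n = 5 ∨ n = 7) (k : ℕ) {z : ℂ} (hz : z ∈ bodySet n) :
    Complex.exp (2 * Real.pi * Complex.I * (k : ℂ) / (n : ℂ)) * z ∈ bodySet n := by
  obtain ⟨a, ha, l, hl, rfl⟩ := bodies_ex hn hz
  change bodies_E n k * (bodies_E n a * toC (bpt n l)) ∈ bodySet n
  rw [← mul_assoc, bodies_add]
  exact bodies_mem hn _ hl

/-- the 13 base points are closed under conjugation (`0 ↔ 0`, `1 ↔ 2`, `3 ↔ 4`, ...; check by
`decide`) and `conj ζ^a = ζ^(n - a)` -/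
theorem bodySet_conj {n : ℕ} (hn : n = 3 ∨ n = 5 ∨ n = 7) {z : ℂ} (hz : z ∈ bodySet n) :
    (starRingEnd ℂ) z ∈ bodySet n := by
  obtain ⟨a, ha, l, hl, rfl⟩ := bodies_ex hn hz
  obtain ⟨m, hm, e⟩ := bodies_tabconj hn l hl
  rw [map_mul, bodies_conj (bodies_pos hn) ha, bodies_toC_conj, ← e]
  exact bodies_mem hn _ hm

/-- by rotation one of the points is a base point `b_l` (exact); `decide +kernel`:
`|b_l - B_j|^2 ≤ (10^8 - 2)^2` for all `l < 13`, `j < 13 n`, and `bodyPt_approx`. -/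
theorem bodySet_dist {n : ℕ} (hn : n = 3 ∨ n = 5 ∨ n = 7) {z w : ℂ} (hz : z ∈ bodySet n)
    (hw : w ∈ bodySet n) : ‖z - w‖ ≤ 1 := by
  obtain ⟨a, ha, l, hl, rfl⟩ := bodies_ex hn hz
  have h1 := bodySet_rot hn (n - a) hw
  change bodies_E n (n - a) * w ∈ bodySet n at h1
  have h2 : ‖bodies_E n a * toC (bpt n l) - w‖ =
      ‖toC (bpt n l) - bodies_E n (n - a) * w‖ := by
    have h3 : bodies_E n (n - a) * bodies_E n a = 1 := by
      rw [bodies_add, Nat.sub_add_cancel ha.le]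
      have := bodies_self (bodies_pos hn) 1
      rwa [mul_one] at this
    rw [← one_mul ‖bodies_E n a * toC (bpt n l) - w‖, ← bodies_norm n (n - a), ← norm_mul,
      mul_sub, ← mul_assoc, h3, one_mul]
  rw [h2]
  obtain ⟨j, hj, e⟩ := h1
  rw [e]
  have h4 := bodyPt_approx n j (by rcases hn with rfl | rfl | rfl <;> exact hj)
  have h5 := bodies_toC_dist (bodies_tabdist hn l hl j hj)
  calc ‖toC (bpt n l) - bodyPt n j‖ =
      ‖(toC (bpt n l) - toC (bpt n j)) - (bodyPt n j - toC (bpt n j))‖ := by congr 1; ring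
    _ ≤ ‖toC (bpt n l) - toC (bpt n j)‖ + ‖bodyPt n j - toC (bpt n j)‖ := norm_sub_le _ _
    _ ≤ (1 - 2 / 10 ^ 8) + 1 / 10 ^ 8 := add_le_add h5 h4
    _ ≤ 1 := by norm_num

/-- the average of the `n` rotated copies of a point is 0 -/
theorem zero_mem_hull {n : ℕ} (hn : n = 3 ∨ n = 5 ∨ n = 7) :
    (0 : ℂ) ∈ convexHull ℝ (bodySet n) := by
  have h0 := bodies_pos hn
  have h1 : (n : ℝ) ≠ 0 := Nat.cast_ne_zero.2 h0.ne'
  have h := (convex_convexHull ℝ (bodySet n)).sum_mem (t := Finset.range n)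
    (w := fun _ => (1 / n : ℝ)) (z := fun a => bodies_E n a * toC (bpt n 0))
    (fun i _ => by positivity)
    (by rw [Finset.sum_const, Finset.card_range, nsmul_eq_mul]; field_simp)
    (fun i _ => subset_convexHull ℝ _ (bodies_mem hn i (by norm_num)))
  have e : ∑ a ∈ Finset.range n, (1 / n : ℝ) • (bodies_E n a * toC (bpt n 0)) = 0 := by
    rw [← Finset.smul_sum, ← Finset.sum_mul, bodies_sum (by omega), zero_mul, smul_zero]
  rw [e] at h
  exact h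

theorem bodySet_nontrivial {n : ℕ} (hn : n = 3 ∨ n = 5 ∨ n = 7) :
    ∃ z ∈ bodySet n, ∃ w ∈ bodySet n, z ≠ w := by
  obtain ⟨-, -, h3⟩ := bodies_tab0 hn
  refine ⟨_, bodies_mem hn 0 (l := 0) (by norm_num), _, bodies_mem hn 0 (l := 1) (by norm_num), ?_⟩
  rw [bodies_zero, one_mul, one_mul]
  intro h
  apply h3
  have h1 := congrArg Complex.re h
  unfold toC at h1
  simp only at h1
  have h2 : ((bpt n 0).1 : ℝ) = ((bpt n 1).1 : ℝ) := by linarith
  exact_mod_cast h2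

/-- the vertex `ρ ζ^a`, `ρ = toC (bpt n 0)` real: for every `u` some vertex satisfies
`Re (conj u * v) ≥ ‖u‖ ρ / 2` (`exists_turn` with `cos θ ≥ 1/2` for `|θ| ≤ π/3`);
`ρ = 0.57734969, 0.52573059, 0.51285792`. -/
theorem exists_vertex {n : ℕ} (hn : n = 3 ∨ n = 5 ∨ n = 7) (u : ℂ) :
    ∃ v ∈ bodySet n, ‖u‖ ^ 2 + ‖toC (bpt n 0)‖ * ‖u‖ + ‖toC (bpt n 0)‖ ^ 2 ≤ ‖u + v‖ ^ 2 := by
  set ρ : ℝ := ‖toC (bpt n 0)‖ with hρ
  have hρ0 : 0 ≤ ρ := norm_nonneg _
  have e0 : toC (bpt n 0) = (ρ : ℂ) := bodies_toC0 hn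
  by_cases hu : u = 0
  · refine ⟨_, bodies_mem hn 0 (l := 0) (by norm_num), ?_⟩
    rw [hu, bodies_zero, one_mul, zero_add, norm_zero, ← hρ]
    simp
  · have hu' : (‖u‖ : ℝ) ≠ 0 := norm_ne_zero_iff.2 hu
    have huc : (‖u‖ : ℂ) ≠ 0 := Complex.ofReal_ne_zero.2 hu'
    have hw : ‖(starRingEnd ℂ) u / (‖u‖ : ℂ)‖ = 1 := by
      rw [norm_div, RCLike.norm_conj, Complex.norm_real, norm_norm, div_self hu']
    obtain ⟨k, hk, θ, hθ, e⟩ := exists_turn (n := n) (bodies_pos hn) hw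
    change (starRingEnd ℂ) u / (‖u‖ : ℂ) * bodies_E n k = Complex.exp (θ * Complex.I) at e
    refine ⟨_, bodies_mem hn k (l := 0) (by norm_num), ?_⟩
    rw [e0]
    have hcos : 1 / 2 ≤ Real.cos θ := by
      rw [← Real.cos_pi_div_three, ← Real.cos_abs θ]
      apply Real.cos_le_cos_of_nonneg_of_le_pi (abs_nonneg _)
      · linarith [Real.pi_pos]
      · refine hθ.trans ?_
        have h3 : (3 : ℝ) ≤ n := by
          have : 3 ≤ n := by omega
          exact_mod_cast this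
        exact div_le_div_of_nonneg_left Real.pi_pos.le (by norm_num) h3
    have e2 : (starRingEnd ℂ) u * (bodies_E n k * (ρ : ℂ)) =
        ((‖u‖ * ρ : ℝ) : ℂ) * Complex.exp (θ * Complex.I) := by
      rw [← e]
      push_cast
      field_simp
    have e3 : ((starRingEnd ℂ) u * (bodies_E n k * (ρ : ℂ))).re = ‖u‖ * ρ * Real.cos θ := by
      rw [e2, Complex.re_ofReal_mul, Complex.exp_ofReal_mul_I_re]
    have e4 : ‖u + bodies_E n k * (ρ : ℂ)‖ ^ 2 = ‖u‖ ^ 2 + ρ ^ 2 + 2 * (‖u‖ * ρ * Real.cos θ) := by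
      rw [← e3, ← Complex.normSq_eq_norm_sq, Complex.normSq_add, Complex.normSq_eq_norm_sq,
        Complex.normSq_eq_norm_sq, norm_mul, bodies_norm, one_mul, Complex.norm_real,
        Real.norm_of_nonneg hρ0]
      congr 2
      simp only [Complex.mul_re, Complex.conj_re, Complex.conj_im, map_mul, Complex.mul_im]
      ring
    rw [e4]
    have h5 : 0 ≤ ‖u‖ * ρ := by positivity
    nlinarith

end PoolLeb
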