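import Pool.Agent.Leb.Disk

/-! # LEB-B2: the cones over the sides of the disk polygon are disjoint -/

open MeasureTheory

namespace PoolLeb

/-- pairs of table points are in increasing angular order -/
theorem disksum_check : ∀ r' < 180, ∀ r < r', 0 ≤ disk_cz (disk_D (r + 1)) (disk_D r') := by
  decide +kernel

/-- real rotation by `q` quarter turns (clockwise), on points of the plane -/
noncomputable def disksum_rot (q : ℕ) (z : ℂ) : ℂ :=
  match q with
  | 0 => z
  | 1 => ⟨z.im, -z.re⟩
  | 2 => ⟨-z.re, -z.im⟩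
  | _ => ⟨-z.im, z.re⟩

theorem disksum_cr_left (q : ℕ) (a : ℤ × ℤ) (z : ℂ) :
    cr (toC (rot4 q a)) z = cr (toC a) (disksum_rot q z) := by
  rcases q with _ | _ | _ | q <;> simp only [rot4, disksum_rot, cr, toC] <;> push_cast <;> ring

theorem disksum_cr_right (q : ℕ) (a : ℤ × ℤ) (z : ℂ) :
    cr z (toC (rot4 q a)) = cr (disksum_rot q z) (toC a) := by
  rcases q with _ | _ | _ | q <;> simp only [rot4, disksum_rot, cr, toC] <;> push_cast <;> ring

/-- a point of the cone over side `j`, after the rotation, lies in the right half-open quadrant -/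
theorem disksum_quad {j : ℕ} {z : ℂ} (hz : z ∈ cone (T j) (T (j + 1))) :
    0 < (disksum_rot (j / 180 % 4) z).re ∧ 0 ≤ (disksum_rot (j / 180 % 4) z).im := by
  have hr : j % 180 < 180 := Nat.mod_lt _ (by norm_num)
  obtain ⟨h1, h2⟩ := hz
  rw [T, disk_bpt, disksum_cr_left] at h1
  rw [T, disk_bpt_succ, disksum_cr_right] at h2
  obtain ⟨-, f1, f2, -, f3, f4, f5⟩ := disk_facts _ hr
  generalize disksum_rot (j / 180 % 4) z = w at h1 h2
  have g1 : (0 : ℝ) < ((disk_D (j % 180)).1 : ℝ) := by exact_mod_cast f1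
  have g2 : (0 : ℝ) ≤ ((disk_D (j % 180)).2 : ℝ) := by exact_mod_cast f2
  have g3 : (0 : ℝ) < ((disk_D (j % 180)).1 : ℝ) * ((disk_N (j % 180)).2 : ℝ)
      - ((disk_D (j % 180)).2 : ℝ) * ((disk_N (j % 180)).1 : ℝ) := by
    have := f3
    simp only [disk_cz] at this
    exact_mod_cast this
  have g4 : (0 : ℝ) ≤ ((disk_N (j % 180)).1 : ℝ) := by exact_mod_cast f4
  have g5 : (0 : ℝ) < ((disk_N (j % 180)).2 : ℝ) := by exact_mod_cast f5
  simp only [cr, toC] at h1 h2
  generalize ((disk_D (j % 180)).1 : ℝ) = a1 at *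
  generalize ((disk_D (j % 180)).2 : ℝ) = a2 at *
  generalize ((disk_N (j % 180)).1 : ℝ) = b1 at *
  generalize ((disk_N (j % 180)).2 : ℝ) = b2 at *
  have k1 : 0 ≤ a1 * w.im - a2 * w.re := by
    have := mul_nonneg h1 (by norm_num : (0 : ℝ) ≤ 100000000)
    linarith
  have k2 : 0 < w.re * b2 - w.im * b1 := by
    have := mul_pos h2 (by norm_num : (0 : ℝ) < 100000000)
    linarith
  have e1 : (a1 * b2 - a2 * b1) * w.re = a1 * (w.re * b2 - w.im * b1) + b1 * (a1 * w.im - a2 * w.re) := by
    ring
  have e2 : (a1 * b2 - a2 * b1) * w.im = a2 * (w.re * b2 - w.im * b1) + b2 * (a1 * w.im - a2 * w.re) := by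
    ring
  constructor
  · have : 0 < (a1 * b2 - a2 * b1) * w.re := by
      rw [e1]
      have := mul_pos g1 k2
      have := mul_nonneg g4 k1
      linarith
    exact (pos_iff_pos_of_mul_pos this).1 g3
  · have : 0 ≤ (a1 * b2 - a2 * b1) * w.im := by
      rw [e2]
      have := mul_nonneg g2 k2.le
      have := mul_nonneg g5.le k1
      linarith
    exact nonneg_of_mul_nonneg_right this g3

/-- the quadrant is determined by the point -/
theorem disksum_quad_unique {q p : ℕ} (hq : q < 4) (hp : p < 4) {z : ℂ}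
    (h1 : 0 < (disksum_rot q z).re) (h2 : 0 ≤ (disksum_rot q z).im)
    (h3 : 0 < (disksum_rot p z).re) (h4 : 0 ≤ (disksum_rot p z).im) : q = p := by
  interval_cases q <;> interval_cases p <;> simp only [disksum_rot] at h1 h2 h3 h4 <;>
    first | rfl | (exfalso; linarith)

theorem disksum_disj {j l : ℕ} (hjl : j < l) (hl : l < 720) :
    Disjoint (cone (T j) (T (j + 1))) (cone (T l) (T (l + 1))) := by
  rw [Set.disjoint_left]
  intro z hz hz'
  obtain ⟨a1, a2⟩ := disksum_quad hz
  obtain ⟨a3, a4⟩ := disksum_quad hz'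
  have hq := disksum_quad_unique (Nat.mod_lt _ (by norm_num)) (Nat.mod_lt _ (by norm_num))
    a1 a2 a3 a4
  have hjq : j / 180 = l / 180 := by omega
  have hr : j % 180 < l % 180 := by omega
  have hr' : l % 180 < 180 := Nat.mod_lt _ (by norm_num)
  have h2 := hz.2
  have h1 := hz'.1
  rw [T, disk_bpt, disksum_cr_left, ← hq] at h1
  rw [T, disk_bpt_succ, disksum_cr_right] at h2
  have hN : disk_N (j % 180) = disk_D (j % 180 + 1) := by
    rw [disk_N, if_pos (by omega)]
  rw [hN] at h2
  have hc := disksum_check _ hr' _ hr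
  have c1 := (disk_facts _ hr').2.1
  have c2 := (disk_facts (j % 180 + 1) (by omega)).2.1
  generalize disksum_rot (j / 180 % 4) z = w at *
  have g1 : (0 : ℝ) < ((disk_D (l % 180)).1 : ℝ) := by exact_mod_cast c1
  have g2 : (0 : ℝ) < ((disk_D (j % 180 + 1)).1 : ℝ) := by exact_mod_cast c2
  have g3 : (0 : ℝ) ≤ ((disk_D (j % 180 + 1)).1 : ℝ) * ((disk_D (l % 180)).2 : ℝ)
      - ((disk_D (j % 180 + 1)).2 : ℝ) * ((disk_D (l % 180)).1 : ℝ) := by
    have := hc
    simp only [disk_cz] at this
    exact_mod_cast this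
  simp only [cr, toC] at h1 h2
  generalize ((disk_D (l % 180)).1 : ℝ) = p1 at *
  generalize ((disk_D (l % 180)).2 : ℝ) = p2 at *
  generalize ((disk_D (j % 180 + 1)).1 : ℝ) = b1 at *
  generalize ((disk_D (j % 180 + 1)).2 : ℝ) = b2 at *
  have k1 : 0 ≤ p1 * w.im - p2 * w.re := by
    have := mul_nonneg h1 (by norm_num : (0 : ℝ) ≤ 100000000)
    linarith
  have k2 : 0 < w.re * b2 - w.im * b1 := by
    have := mul_pos h2 (by norm_num : (0 : ℝ) < 100000000)
    linarith
  have e : w.re * (b1 * p2 - b2 * p1) + b1 * (p1 * w.im - p2 * w.re)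
      + p1 * (w.re * b2 - w.im * b1) = 0 := by ring
  have t1 := mul_nonneg a1.le g3
  have t2 := mul_nonneg g2.le k1
  have t3 := mul_pos g1 k2
  linarith

/-- The 720 half-open cones `cone (T j) (T (j+1))` are pairwise disjoint. Quadrant `q`
(`180 q ≤ j < 180 (q+1)`): after a rotation by `-q` quarter turns the cone lies in
`{x > 0, y ≥ 0}` (the table points have `x > 0`, `y ≥ 0`, and the next corner is `(0, 1/2)`), where
the slope `y / x` is strictly increasing along the table; two cones in the same quadrant are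
disjoint because `slope z < slope T_{j+1} ≤ slope T_l ≤ slope z` is impossible. -/
theorem sum_Vc_le {K : Set ℂ} (hm : MeasurableSet K) (hK : volume K ≠ ⊤) :
    ∑ j ∈ Finset.range 720, Vc K (T j) (T (j + 1)) ≤ (volume K).toReal := by
  have hfin : ∀ j, volume (K ∩ cone (T j) (T (j + 1))) ≠ ⊤ := fun j =>
    ne_top_of_le_ne_top hK (measure_mono Set.inter_subset_left)
  have h1 : ∑ j ∈ Finset.range 720, Vc K (T j) (T (j + 1))
      = (∑ j ∈ Finset.range 720, volume (K ∩ cone (T j) (T (j + 1)))).toReal := by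
    rw [ENNReal.toReal_sum (fun j _ => hfin j)]
    rfl
  rw [h1]
  refine ENNReal.toReal_mono hK ?_
  have hd : Set.PairwiseDisjoint (↑(Finset.range 720) : Set ℕ)
      (fun j => K ∩ cone (T j) (T (j + 1))) := by
    intro j hj l hl hne
    have hj' : j < 720 := by simpa using hj
    have hl' : l < 720 := by simpa using hl
    rcases lt_or_gt_of_ne hne with h | h
    · exact (disksum_disj h hl').mono Set.inter_subset_right Set.inter_subset_right
    · exact ((disksum_disj h hj').mono Set.inter_subset_right Set.inter_subset_right).symm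
  rw [← measure_biUnion_finset hd (fun j _ => hm.inter (measurableSet_cone _ _))]
  exact measure_mono (Set.iUnion₂_subset fun j _ => Set.inter_subset_left)

end PoolLeb
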