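import Pool.Agent.Leb.Vertex
import Pool.Agent.Leb.DiskSum

/-! # LEB-E: the area inequality of a type -/

open MeasureTheory

namespace PoolLeb

/-- all vertices of bodies lie in `K` -/
def Mem (G : List Slot) (t : ℕ → ℂ) (x : ℕ → ℝ) (K : Set ℂ) : Prop :=
  ∀ s < G.length, ∀ i < bsize (slotOf G s).kind,
    t s + Complex.exp (x s * Complex.I) * (w0 (slotOf G s).p * bodyPt (slotOf G s).kind i) ∈ K

theorem chain_vx_s (G : List Slot) (c : ℕ) : (vx G c).s = c / 2000 := rfl

theorem chain_vx_i (G : List Slot) (c : ℕ) : (vx G c).i = c % 2000 := rfl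

theorem chain_w0 : w0 0 = 1 := by
  unfold w0
  norm_num

theorem chain_pos0 {G : List Slot} {t : ℕ → ℂ} {x : ℕ → ℝ} (h : Cfg G t x)
    (h0 : slotOf G 0 = D0) (hG : 0 < G.length) {c : ℕ} (hc : c < 2000) :
    pos G t x (vx G c) = T c := by
  have hs : (vx G c).s = 0 := by rw [chain_vx_s]; exact Nat.div_eq_of_lt hc
  have hi : (vx G c).i = c := by rw [chain_vx_i]; exact Nat.mod_eq_of_lt hc
  have ht := h.ht 0 hG
  have hx := h.hx 0 hG
  rw [h0] at ht hx
  have ht0 : t 0 = 0 := by
    have h1 : ‖t 0‖ ≤ 0 := by simpa [D0] using ht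
    exact norm_le_zero_iff.1 h1
  have hx0 : x 0 = 0 := by
    have h1 : |x 0| ≤ 0 := by simpa [D0] using hx
    exact abs_eq_zero.1 (le_antisymm h1 (abs_nonneg _))
  unfold pos ve
  rw [hs, hi, h0, ht0, hx0]
  have h2 : (D0 : Slot).p = 0 := rfl
  have h3 : (D0 : Slot).kind = 2 := rfl
  rw [h2, h3, chain_w0]
  unfold bodyPt T
  rw [if_neg (by norm_num)]
  simp

theorem chain_mem {G : List Slot} {t : ℕ → ℂ} {x : ℕ → ℝ} {K : Set ℂ} (hm : Mem G t x K)
    {c : ℕ} (hc : codeOK G c = true) : pos G t x (vx G c) ∈ K := by
  unfold codeOK at hc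
  rw [Bool.and_eq_true, decide_eq_true_eq, decide_eq_true_eq] at hc
  exact hm _ hc.1 _ hc.2

theorem chain_W (K : Set ℂ) {k l m : ℕ} (h1 : k ≤ l) (h2 : l ≤ m) :
    ∑ j ∈ Finset.Ico k l, Vc K (T j) (T (j + 1)) + ∑ j ∈ Finset.Ico l m, Vc K (T j) (T (j + 1))
      = ∑ j ∈ Finset.Ico k m, Vc K (T j) (T (j + 1)) :=
  Finset.sum_Ico_consecutive _ h1 h2

theorem chain_ind {G : List Slot} {t : ℕ → ℂ} {x : ℕ → ℝ} {K : Set ℂ} (hK : Good K)
    (h : Cfg G t x) (hs : slotsOK G = true) (h0 : slotOf G 0 = D0) (hG : 0 < G.length)
    (hm : Mem G t x K) (cs : List ℕ) : ∀ (kb cw : ℕ) (isb : Bool), kb < 2000 →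
      codeOK G kb = true → codeOK G cw = true → (isb = true → cw = kb) →
      (isb = false → 0 < cr (pos G t x (vx G cw)) (pos G t x (vx G kb))) →
      chainOK G (vx G kb) (vx G cw) isb cs = true → codesOK G cs = true →
      lastD cw cs ≤ kb ∧
      (arcs G (vx G kb) isb cs : ℝ) / 10 ^ 16
        + ((edges G (vx G cw) isb cs).map (fun e => cr (pos G t x e.1) (pos G t x e.2))).sum
        + (if isb = true then 0 else 2 * Vc K (pos G t x (vx G cw)) (pos G t x (vx G kb)))
        ≤ 2 * ∑ j ∈ Finset.Ico (lastD cw cs) kb, Vc K (T j) (T (j + 1)) := by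
  have hKm : MeasurableSet K := hK.closed.measurableSet
  have h0K : (0 : ℂ) ∈ K := hK.disk (by rw [mem_closedBall_zero_iff, norm_zero]; norm_num)
  induction cs with
  | nil =>
    intro kb cw isb hkb hb hw h1 h2 hch hcs
    have hisb : isb = true := hch
    have hcw := h1 hisb
    subst hisb
    subst hcw
    refine ⟨le_rfl, ?_⟩
    simp [arcs, edges, lastD]
  | cons c cs ih =>
    intro kb cw isb hkb hb hw h1 h2 hch hcs
    have hcs' : codeOK G c = true ∧ codesOK G cs = true := by
      have h3 : (codeOK G c && codesOK G cs) = true := hcs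
      rwa [Bool.and_eq_true] at h3
    obtain ⟨hc, hcs2⟩ := hcs'
    have hpb : pos G t x (vx G kb) = T kb := chain_pos0 h h0 hG hkb
    have hlast : lastD cw (c :: cs) = lastD c cs := rfl
    rw [hlast]
    by_cases hv : (vx G c).s = 0
    · -- a point of the disk polygon
      have hc2 : c < 2000 := by
        rw [chain_vx_s] at hv
        exact (Nat.div_eq_zero_iff_lt (by norm_num)).1 hv
      have hch2 : (decide ((vx G c).i < (vx G kb).i) &&
          (isb || (edgeOK G (vx G c) (vx G cw) && edgeOK G (vx G c) (vx G kb))) &&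
          chainOK G (vx G c) (vx G c) true cs) = true := by
        have h3 := hch
        simp only [chainOK, if_pos hv] at h3
        exact h3
      rw [Bool.and_eq_true, Bool.and_eq_true, decide_eq_true_eq] at hch2
      obtain ⟨⟨hlt, hor⟩, hch3⟩ := hch2
      have hlt2 : c < kb := by
        rw [chain_vx_i, chain_vx_i, Nat.mod_eq_of_lt hc2, Nat.mod_eq_of_lt hkb] at hlt
        exact hlt
      obtain ⟨hle, hih⟩ := ih c c true hc2 hc hc (fun _ => rfl) (fun h => by simp at h) hch3 hcs2
      have hpc : pos G t x (vx G c) = T c := chain_pos0 h h0 hG hc2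
      rw [if_pos rfl, add_zero] at hih
      refine ⟨hle.trans hlt2.le, ?_⟩
      have hW := chain_W K hle hlt2.le
      cases isb with
      | true =>
        have harc := arc_le hK hlt2.le
        have ea : arcs G (vx G kb) true (c :: cs) =
            (dS kb - dS c) + arcs G (vx G c) true cs := by
          simp only [arcs, if_pos hv, chain_vx_i, Nat.mod_eq_of_lt hc2, Nat.mod_eq_of_lt hkb,
            if_true]
        have ee : edges G (vx G cw) true (c :: cs) = edges G (vx G c) true cs := by
          simp only [edges, if_pos hv, if_true]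
        rw [ea, ee, if_pos rfl, add_zero]
        push_cast at harc ⊢
        rw [add_div]
        linarith
      | false =>
        rw [Bool.false_or, Bool.and_eq_true] at hor
        have hcw := edge_pos h hs hc hw hor.1
        have hcb := edge_pos h hs hc hb hor.2
        have hwb := h2 rfl
        have ea : arcs G (vx G kb) false (c :: cs) = arcs G (vx G c) true cs := by
          simp [arcs, if_pos hv]
        have ee : edges G (vx G cw) false (c :: cs) =
            (vx G c, vx G cw) :: edges G (vx G c) true cs := by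
          simp [edges, if_pos hv]
        rw [ea, ee, List.map_cons, List.sum_cons, if_neg (by simp)]
        have hsup := Vc_super hKm hK.fin hcw hwb hcb
        have htri := Vc_tri hK.conv hK.fin h0K (chain_mem hm hc) (chain_mem hm hw) hcw
        have hsum := Vc_le_sum (K := K) hK.fin hlt2
        rw [hpb, hpc] at hsup
        rw [hpc] at htri
        rw [hpb]
        simp only [hpc] at hih ⊢
        linarith
    · -- a body point
      have hch2 : (edgeOK G (vx G c) (vx G cw) && (isb || edgeOK G (vx G c) (vx G kb)) &&
          chainOK G (vx G kb) (vx G c) false cs) = true := by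
        have h3 := hch
        simp only [chainOK, if_neg hv] at h3
        exact h3
      rw [Bool.and_eq_true, Bool.and_eq_true] at hch2
      obtain ⟨⟨hew, hor⟩, hch3⟩ := hch2
      have hcw := edge_pos h hs hc hw hew
      have ea : arcs G (vx G kb) isb (c :: cs) = arcs G (vx G kb) false cs := by
        simp [arcs, if_neg hv]
      have ee : edges G (vx G cw) isb (c :: cs) =
          (vx G c, vx G cw) :: edges G (vx G c) false cs := by
        simp [edges, if_neg hv]
      have hcb : 0 < cr (pos G t x (vx G c)) (pos G t x (vx G kb)) := by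
        cases isb with
        | true =>
          have h3 := h1 rfl
          rw [h3] at hcw
          exact hcw
        | false =>
          rw [Bool.false_or] at hor
          exact edge_pos h hs hc hb hor
      obtain ⟨hle, hih⟩ := ih kb c false hkb hb hc (fun h => by simp at h) (fun _ => hcb) hch3 hcs2
      rw [if_neg (by simp)] at hih
      refine ⟨hle, ?_⟩
      rw [ea, ee, List.map_cons, List.sum_cons]
      cases isb with
      | true =>
        have h3 := h1 rfl
        have htri := Vc_tri hK.conv hK.fin h0K (chain_mem hm hc) (chain_mem hm hb) hcb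
        rw [if_pos rfl, h3]
        simp only at hih ⊢
        linarith
      | false =>
        have hwb := h2 rfl
        have hsup := Vc_super hKm hK.fin hcw hwb hcb
        have htri := Vc_tri hK.conv hK.fin h0K (chain_mem hm hc) (chain_mem hm hw) hcw
        rw [if_neg (by simp)]
        simp only at hih ⊢
        linarith

/-- Area inequality of a type. For slot 0 (the disk) `r = e = p = 0` so `t 0 = 0`, `x 0 = 0`,
`w0 0 = 1` and `pos` of code `k < 1440` is `T k`.
With `W k l := ∑ j ∈ Ico k l, Vc K (T j) (T (j+1))`, prove by induction on `cs`, generalising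
`b w isb` (where `b = vx G kb`, `kb < 2000`, `w = vx G cw`, both codes valid, `isb → w = b`,
`¬ isb → 0 < cr (pos w) (pos b)`): if `chainOK G b w isb cs` and `codesOK G cs`, then for
`ke := lastD kb cs`-like last code (`ke ≤ kb`):
`arcs/10^16 + Σ edges cr + (if isb then 0 else 2 * Vc K (pos w) (pos b)) ≤ 2 * W ke kb`.
* `[]`: `isb = true`, `ke = kb`, both sides 0.
* `c` a disk code, `isb`: `arc_le` for `[c, kb]` and the induction hypothesis for `b := w := c`.
* `c` a disk code, not `isb`: `edge_pos` gives `cr c w > 0`, `cr c b > 0`;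
  `W c kb ≥ Vc c b` (`Vc_le_sum`) `≥ Vc c w + Vc w b` (`Vc_super`), `2 Vc c w ≥ cr` (`Vc_tri`).
* `c` a body code, `isb`: `w = b`; the induction hypothesis has `2 Vc c b ≥ cr c b` (`Vc_tri`).
* `c` a body code, not `isb`: the induction hypothesis has `2 Vc c b ≥ 2 Vc c w + 2 Vc w b`.
At the end `W (k0) (k0 + 720) = ∑ range 720 ≤ volume` (`sum_shift`, `sum_Vc_le`). -/
theorem type_le {G : List Slot} {t : ℕ → ℂ} {x : ℕ → ℝ} {K : Set ℂ} (hK : Good K)
    (h : Cfg G t x) (hs : slotsOK G = true) (h0 : slotOf G 0 = D0) (hG : 0 < G.length)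
    (hm : Mem G t x K) (cs : List ℕ) (hc : codesOK G cs = true) (hty : typeOK G cs = true) :
    (typeArcs G cs : ℝ) / 10 ^ 16
      + ((typeEdges G cs).map (fun e => cr (pos G t x e.1) (pos G t x e.2))).sum
      ≤ 2 * (volume K).toReal := by
  cases cs with
  | nil => simp [typeOK] at hty
  | cons c cs =>
    have hcs' : codeOK G c = true ∧ codesOK G cs = true := by
      have h3 : (codeOK G c && codesOK G cs) = true := hc
      rwa [Bool.and_eq_true] at h3
    obtain ⟨hc1, hcs2⟩ := hcs'
    have hty2 : (decide (c < 2000) && decide (lastD c cs + 720 = c) &&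
        chainOK G (vx G c) (vx G c) true cs) = true := hty
    rw [Bool.and_eq_true, Bool.and_eq_true, decide_eq_true_eq, decide_eq_true_eq] at hty2
    obtain ⟨⟨hc2, hl⟩, hch⟩ := hty2
    obtain ⟨-, hind⟩ := chain_ind hK h hs h0 hG hm cs c c true hc2 hc1 hc1 (fun _ => rfl)
      (fun h => by simp at h) hch hcs2
    rw [if_pos rfl, add_zero] at hind
    have hsum : ∑ j ∈ Finset.Ico (lastD c cs) c, Vc K (T j) (T (j + 1))
        ≤ (volume K).toReal := by
      have h3 := sum_shift K (lastD c cs)
      rw [hl] at h3
      rw [h3]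
      exact sum_Vc_le hK.closed.measurableSet hK.fin
    have h4 : typeArcs G (c :: cs) = arcs G (vx G c) true cs := rfl
    have h5 : typeEdges G (c :: cs) = edges G (vx G c) true cs := rfl
    rw [h4, h5]
    linarith

theorem chain_edges_mem {G : List Slot} (cs : List ℕ) : ∀ (cw : ℕ) (isb : Bool),
    codeOK G cw = true → codesOK G cs = true →
    ∀ e ∈ edges G (vx G cw) isb cs, ∃ c d, codeOK G c = true ∧ codeOK G d = true ∧
      e = (vx G c, vx G d) := by
  induction cs with
  | nil =>
    intro cw isb _ _ e he
    simp [edges] at he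
  | cons c cs ih =>
    intro cw isb hw hcs e he
    have hcs' : codeOK G c = true ∧ codesOK G cs = true := by
      have h3 : (codeOK G c && codesOK G cs) = true := hcs
      rwa [Bool.and_eq_true] at h3
    obtain ⟨hc, hcs2⟩ := hcs'
    by_cases hv : (vx G c).s = 0
    · cases isb with
      | true =>
        have ee : edges G (vx G cw) true (c :: cs) = edges G (vx G c) true cs := by
          simp [edges, if_pos hv]
        rw [ee] at he
        exact ih c true hc hcs2 e he
      | false =>
        have ee : edges G (vx G cw) false (c :: cs) =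
            (vx G c, vx G cw) :: edges G (vx G c) true cs := by
          simp [edges, if_pos hv]
        rw [ee, List.mem_cons] at he
        rcases he with rfl | he
        · exact ⟨c, cw, hc, hw, rfl⟩
        · exact ih c true hc hcs2 e he
    · have ee : edges G (vx G cw) isb (c :: cs) =
          (vx G c, vx G cw) :: edges G (vx G c) false cs := by
        simp [edges, if_neg hv]
      rw [ee, List.mem_cons] at he
      rcases he with rfl | he
      · exact ⟨c, cw, hc, hw, rfl⟩
      · exact ih c false hc hcs2 e he

/-- every edge of a valid type joins vertices `vx G c`, `vx G d` with valid codes -/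
theorem typeEdges_mem {G : List Slot} {cs : List ℕ} (hc : codesOK G cs = true) :
    ∀ e ∈ typeEdges G cs, ∃ c d, codeOK G c = true ∧ codeOK G d = true ∧
      e = (vx G c, vx G d) := by
  cases cs with
  | nil =>
    intro e he
    simp [typeEdges] at he
  | cons c cs =>
    have hcs' : codeOK G c = true ∧ codesOK G cs = true := by
      have h3 : (codeOK G c && codesOK G cs) = true := hc
      rwa [Bool.and_eq_true] at h3
    exact chain_edges_mem cs c true hcs'.1 hcs'.2

end PoolLeb
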