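import Pool.Agent.Leb.Bodies
import Pool.Agent.Leb.Angle

/-! # LEB-K: from a displacement cover to a normalised configuration -/

open MeasureTheory

namespace PoolLeb

/-- `R ⊆ ℝ² = ℂ` contains a congruent copy (under an orientation-preserving rigid motion
`z ↦ w z + t`, `‖w‖ = 1`) of every set of diameter exactly 1. -/
def IsDisplacementCover (R : Set ℂ) : Prop :=
  ∀ S : Set ℂ, Metric.diam S = 1 → ∃ w t : ℂ, ‖w‖ = 1 ∧ ∀ z ∈ S, w * z + t ∈ R

theorem disk_in {R : Set ℂ} (h : IsDisplacementCover R) :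
    ∃ s : ℂ, Metric.closedBall s (1 / 2) ⊆ R := by
  obtain ⟨w, t, hw, hR⟩ := h (Metric.closedBall 0 (1 / 2)) (by
    rw [Metric.diam_closedBall_eq _ (by norm_num)]; norm_num)
  refine ⟨t, ?_⟩
  intro y hy
  have hw0 : w ≠ 0 := by
    intro h0
    rw [h0, norm_zero] at hw
    exact zero_ne_one hw
  have h1 : w⁻¹ * (y - t) ∈ Metric.closedBall (0 : ℂ) (1 / 2) := by
    rw [mem_closedBall_zero_iff, norm_mul, norm_inv, hw, inv_one, one_mul]
    rw [Metric.mem_closedBall, dist_eq_norm] at hy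
    exact hy
  have h2 := hR _ h1
  rw [mul_inv_cancel_left₀ hw0, sub_add_cancel] at h2
  exact h2

open scoped Pointwise in
/-- For `d = diam (bodySet n)`, `0 < d ≤ 1`, the set `(1/d) bodySet n` has diameter 1, so a copy
`z ↦ w z + s` of it lies in `R`; `z = d (z/d) + (1 - d) 0` and `0 ∈ convexHull (bodySet n)`. -/
theorem body_in {R : Set ℂ} (h : IsDisplacementCover R) (hc : Convex ℝ R) {n : ℕ}
    (hn : n = 3 ∨ n = 5 ∨ n = 7) :
    ∃ w s : ℂ, ‖w‖ = 1 ∧ ∀ z ∈ bodySet n, w * z + s ∈ R := by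
  obtain ⟨d, hd⟩ : ∃ d, d = Metric.diam (bodySet n) := ⟨_, rfl⟩
  have hdist : ∀ x ∈ bodySet n, ∀ y ∈ bodySet n, dist x y ≤ 1 := by
    intro x hx y hy
    rw [dist_eq_norm]
    exact bodySet_dist hn hx hy
  have hd1 : d ≤ 1 := by
    rw [hd]
    exact Metric.diam_le_of_forall_dist_le zero_le_one hdist
  have hbd : Bornology.IsBounded (bodySet n) := by
    rw [Metric.isBounded_iff]
    exact ⟨1, fun x hx y hy => hdist x hx y hy⟩
  have hd0 : 0 < d := by
    obtain ⟨z, hz, w, hw, hzw⟩ := bodySet_nontrivial hn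
    have h1 : dist z w ≤ d := by rw [hd]; exact Metric.dist_le_diam_of_mem hbd hz hw
    exact (dist_pos.2 hzw).trans_le h1
  obtain ⟨w, s, hw, hR⟩ := h (((1 / d : ℝ) : ℂ) • bodySet n) (by
    rw [diam_smul₀, ← hd, Complex.norm_real, Real.norm_of_nonneg (by positivity)]
    field_simp)
  refine ⟨w, s, hw, ?_⟩
  have hdc : (d : ℂ) ≠ 0 := by exact_mod_cast hd0.ne'
  let φ : ℂ → ℂ := fun y => w * (((1 / d : ℝ) : ℂ) * y) + s
  have hφ : ∀ z ∈ bodySet n, φ z ∈ R := by
    intro z hz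
    exact hR _ (Set.smul_mem_smul_set hz)
  have hconv : Convex ℝ (φ ⁻¹' R) := by
    intro x hx y hy a b ha hb hab
    have h1 := hc hx hy ha hb hab
    have h2 : a • φ x + b • φ y = φ (a • x + b • y) := by
      have hab' : ((a : ℂ) + (b : ℂ)) = 1 := by exact_mod_cast hab
      simp only [φ, Complex.real_smul]
      linear_combination s * hab'
    rw [h2] at h1
    exact h1
  have h0 : φ 0 ∈ R := by
    have h1 : convexHull ℝ (bodySet n) ⊆ φ ⁻¹' R := convexHull_min hφ hconv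
    exact h1 (zero_mem_hull hn)
  intro z hz
  have h1 := hc (hφ z hz) h0 hd0.le (sub_nonneg.2 hd1) (by ring)
  have h2 : d • φ z + (1 - d) • φ 0 = w * z + s := by
    simp only [φ, Complex.real_smul]
    push_cast
    field_simp
    ring
  rw [h2] at h1
  exact h1

theorem cover_lie {K : Set ℂ} (hK : Good K) (f : ℂ ≃ₗᵢ[ℝ] ℂ) :
    Good (f ⁻¹' K) ∧ volume (f ⁻¹' K) = volume K := by
  have hv : volume (f ⁻¹' K) = volume K :=
    f.measurePreserving.measure_preimage hK.closed.measurableSet.nullMeasurableSet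
  refine ⟨⟨?_, hK.closed.preimage f.continuous, ?_, ?_⟩, hv⟩
  · exact hK.conv.linear_preimage (f.toLinearEquiv : ℂ →ₗ[ℝ] ℂ)
  · rw [hv]; exact hK.fin
  · intro z hz
    apply hK.disk
    rw [mem_closedBall_zero_iff] at hz ⊢
    rwa [f.norm_map]

/-- rotating `K` about 0 -/
theorem good_rotate {K : Set ℂ} (hK : Good K) {u : ℂ} (hu : ‖u‖ = 1) :
    Good ((fun z => u * z) ⁻¹' K) ∧ volume ((fun z => u * z) ⁻¹' K) = volume K := by
  have h := cover_lie hK (rotation ⟨u, mem_sphere_zero_iff_norm.2 hu⟩)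
  have h1 : (⇑(rotation ⟨u, mem_sphere_zero_iff_norm.2 hu⟩) : ℂ → ℂ) = fun z => u * z := by
    funext z
    rfl
  rw [h1] at h
  exact h

theorem cover_translate {R : Set ℂ} (hc : Convex ℝ R) (hR : IsClosed R)
    (hf : volume R ≠ ⊤) {s : ℂ} (hs : Metric.closedBall s (1 / 2) ⊆ R) :
    Good ((fun z => z + s) ⁻¹' R) ∧ volume ((fun z => z + s) ⁻¹' R) = volume R := by
  have hv : volume ((fun z => z + s) ⁻¹' R) = volume R :=
    (measurePreserving_add_right volume s).measure_preimage hR.measurableSet.nullMeasurableSet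
  refine ⟨⟨hc.translate_preimage_left s, hR.preimage (by fun_prop), ?_, ?_⟩, hv⟩
  · rw [hv]; exact hf
  · intro z hz
    apply hs
    rw [mem_closedBall_zero_iff] at hz
    rw [Metric.mem_closedBall, dist_eq_norm, add_sub_cancel_right]
    exact hz

theorem cover_body {K : Set ℂ} {w s u s0 v : ℂ} {n k : ℕ} (hn : n = 3 ∨ n = 5 ∨ n = 7)
    (hu : ‖u‖ = 1) (hK : ∀ z ∈ bodySet n, (w * z + s) ∈ K)
    (hv : w * Complex.exp (2 * Real.pi * Complex.I * (k : ℂ) / (n : ℂ)) = u * v) :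
    ∀ z ∈ bodySet n, u * ((s - s0) / u + v * z) + s0 ∈ K := by
  intro z hz
  have hu0 : u ≠ 0 := by
    intro h0
    rw [h0, norm_zero] at hu
    exact zero_ne_one hu
  have h1 := hK _ (bodySet_rot hn k hz)
  have h2 : w * (Complex.exp (2 * Real.pi * Complex.I * (k : ℂ) / (n : ℂ)) * z) + s
      = u * ((s - s0) / u + v * z) + s0 := by
    rw [← mul_assoc, hv]
    field_simp
    ring
  rw [h2] at h1
  exact h1

theorem cover_exp_period (k : ℕ) :
    Complex.exp (2 * Real.pi * Complex.I * (k : ℂ)) = 1 := by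
  rw [Complex.exp_eq_one_iff]
  exact ⟨k, by push_cast; ring⟩

/-- the case without the sign condition -/
theorem cover_normalise {R : Set ℂ} (h : IsDisplacementCover R) (hc : Convex ℝ R)
    (hR : IsClosed R) (hf : volume R ≠ ⊤) :
    ∃ (K : Set ℂ) (t3 t5 t7 : ℂ) (θ ψ : ℝ), Good K ∧ volume K = volume R ∧
      |θ| ≤ Real.pi / 15 ∧ |ψ| ≤ Real.pi / 7 ∧
      (∀ z ∈ bodySet 3, t3 + z ∈ K) ∧
      (∀ z ∈ bodySet 5, t5 + Complex.exp (θ * Complex.I) * z ∈ K) ∧
      (∀ z ∈ bodySet 7, t7 + Complex.exp (ψ * Complex.I) * z ∈ K) := by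
  obtain ⟨s0, hs0⟩ := disk_in h
  obtain ⟨w3, s3, hw3, hb3⟩ := body_in h hc (n := 3) (by norm_num)
  obtain ⟨w5, s5, hw5, hb5⟩ := body_in h hc (n := 5) (by norm_num)
  obtain ⟨w7, s7, hw7, hb7⟩ := body_in h hc (n := 7) (by norm_num)
  have hw30 : w3 ≠ 0 := by
    intro h0
    rw [h0, norm_zero] at hw3
    exact zero_ne_one hw3
  obtain ⟨k, -, θ, hθ, hk⟩ := exists_turn (n := 15) (by norm_num) (w := w5 / w3) (by
    rw [norm_div, hw5, hw3, div_one])
  obtain ⟨u, hu⟩ : ∃ u, u = w3 * Complex.exp (2 * Real.pi * Complex.I * (k : ℂ) / (3 : ℕ)) :=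
    ⟨_, rfl⟩
  have hexp : ∀ y : ℝ, ‖Complex.exp (y * Complex.I)‖ = 1 := fun y =>
    Complex.norm_exp_ofReal_mul_I y
  have hun : ‖u‖ = 1 := by
    rw [hu, norm_mul, hw3, one_mul]
    have h1 : 2 * Real.pi * Complex.I * (k : ℂ) / (3 : ℕ)
        = ((2 * Real.pi * k / 3 : ℝ) : ℂ) * Complex.I := by
      push_cast; ring
    rw [h1]
    exact hexp _
  have hu0 : u ≠ 0 := by
    intro h0
    rw [h0, norm_zero] at hun
    exact zero_ne_one hun
  obtain ⟨l, -, ψ, hψ, hl⟩ := exists_turn (n := 7) (by norm_num) (w := w7 / u) (by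
    rw [norm_div, hw7, hun, div_one])
  obtain ⟨hK0, hv0⟩ := cover_translate hc hR hf hs0
  obtain ⟨hK, hv⟩ := good_rotate hK0 hun
  refine ⟨(fun z => u * z) ⁻¹' ((fun z => z + s0) ⁻¹' R), (s3 - s0) / u, (s5 - s0) / u,
    (s7 - s0) / u, θ, ψ, hK, hv.trans hv0, ?_, ?_, ?_, ?_, ?_⟩
  · exact_mod_cast hθ
  · exact_mod_cast hψ
  · intro z hz
    have h1 := cover_body (K := R) (s0 := s0) (v := 1) (k := k) (n := 3) (by norm_num) hun hb3
      (by rw [hu, mul_one]) z hz
    rw [one_mul] at h1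
    exact h1
  · intro z hz
    refine cover_body (K := R) (s0 := s0) (k := 2 * k) (n := 5) (by norm_num) hun hb5 ?_ z hz
    -- `w5 ζ5^(2k) = u exp(iθ)`
    have h1 : w5 * Complex.exp (2 * Real.pi * Complex.I * (k : ℂ) / (15 : ℕ))
        = w3 * Complex.exp (θ * Complex.I) := by
      have h2 : w3 * (w5 / w3 * Complex.exp (2 * Real.pi * Complex.I * (k : ℂ) / (15 : ℕ)))
          = w3 * Complex.exp (θ * Complex.I) := by rw [hk]
      rw [← h2]
      field_simp
    have h3 : Complex.exp (2 * Real.pi * Complex.I * ((2 * k : ℕ) : ℂ) / (5 : ℕ))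
        = Complex.exp (2 * Real.pi * Complex.I * (k : ℂ) / (15 : ℕ)) *
          Complex.exp (2 * Real.pi * Complex.I * (k : ℂ) / (3 : ℕ)) := by
      rw [← Complex.exp_add]
      congr 1
      push_cast
      ring
    rw [h3, ← mul_assoc, h1, hu]
    ring
  · intro z hz
    refine cover_body (K := R) (s0 := s0) (k := l) (n := 7) (by norm_num) hun hb7 ?_ z hz
    have h2 : u * (w7 / u * Complex.exp (2 * Real.pi * Complex.I * (l : ℂ) / (7 : ℕ)))
        = u * Complex.exp (ψ * Complex.I) := by rw [hl]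
    rw [← h2]
    field_simp

/-- Normalisation. From `disk_in`, `body_in` for 3, 5, 7 get `s0`, `(w3, s3)`, `(w5, s5)`,
`(w7, s7)`. By `exists_turn` with `n = 15` for `w5/w3`: `w5/w3 * ζ15^k = exp(iθ)`, `|θ| ≤ π/15`,
and `ζ15^k = ζ3^(2k) * ζ5^(-3k)` (`1/15 = 2/3 - 3/5`); so with `u := w3 * ζ3^(-2k)`:
`w5 = u * exp(iθ) * ζ5^(3k)`, and for `w7/u` by `exists_turn` with `n = 7`,
`w7 = u * exp(iψ) * ζ7^(-l)`, `|ψ| ≤ π/7`. Put `K := {z | u z + s0 ∈ R}`; by invariance of the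
bodies under their rotations, `K` contains the disk, `t3 + bodySet 3`, `t5 + exp(iθ) bodySet 5`,
`t7 + exp(iψ) bodySet 7`. If `θ < 0` replace `K` by its complex conjugate (`bodySet_conj`). -/
theorem normalise {R : Set ℂ} (h : IsDisplacementCover R) (hc : Convex ℝ R) (hR : IsClosed R)
    (hf : volume R ≠ ⊤) :
    ∃ (K : Set ℂ) (t3 t5 t7 : ℂ) (θ ψ : ℝ), Good K ∧ volume K = volume R ∧
      0 ≤ θ ∧ θ ≤ Real.pi / 15 ∧ |ψ| ≤ Real.pi / 7 ∧
      (∀ z ∈ bodySet 3, t3 + z ∈ K) ∧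
      (∀ z ∈ bodySet 5, t5 + Complex.exp (θ * Complex.I) * z ∈ K) ∧
      (∀ z ∈ bodySet 7, t7 + Complex.exp (ψ * Complex.I) * z ∈ K) := by
  obtain ⟨K, t3, t5, t7, θ, ψ, hK, hv, hθ, hψ, h3, h5, h7⟩ := cover_normalise h hc hR hf
  rcases le_or_gt 0 θ with h0 | h0
  · exact ⟨K, t3, t5, t7, θ, ψ, hK, hv, h0, (le_abs_self θ).trans hθ, hψ, h3, h5, h7⟩
  · obtain ⟨hK', hv'⟩ := cover_lie hK Complex.conjLIE
    have hce : ∀ y : ℝ, (starRingEnd ℂ) (Complex.exp ((-y : ℝ) * Complex.I))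
        = Complex.exp (y * Complex.I) := by
      intro y
      rw [← Complex.exp_conj, map_mul, Complex.conj_I, Complex.conj_ofReal]
      congr 1
      push_cast
      ring
    refine ⟨Complex.conjLIE ⁻¹' K, (starRingEnd ℂ) t3, (starRingEnd ℂ) t5, (starRingEnd ℂ) t7,
      -θ, -ψ, hK', hv'.trans hv, by linarith, ?_, ?_, ?_, ?_, ?_⟩
    · have := (abs_le.1 hθ).1
      linarith
    · rw [abs_neg]; exact hψ
    · intro z hz
      have h1 := h3 _ (bodySet_conj (by norm_num) hz)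
      rw [Set.mem_preimage, Complex.conjLIE_apply, map_add, Complex.conj_conj]
      exact h1
    · intro z hz
      have h1 := h5 _ (bodySet_conj (by norm_num) hz)
      rw [Set.mem_preimage, Complex.conjLIE_apply, map_add, Complex.conj_conj, map_mul, hce]
      exact h1
    · intro z hz
      have h1 := h7 _ (bodySet_conj (by norm_num) hz)
      rw [Set.mem_preimage, Complex.conjLIE_apply, map_add, Complex.conj_conj, map_mul, hce]
      exact h1

end PoolLeb
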