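import Pool.Agent.Leb.Geo

/-! # LEB-B: the disk polygon -/

open MeasureTheory

namespace PoolLeb

noncomputable def toC (z : ℤ × ℤ) : ℂ := ⟨(z.1 : ℝ) / 100000000, (z.2 : ℝ) / 100000000⟩

/-- points of the disk polygon (period 720) -/
noncomputable def T (j : ℕ) : ℂ := toC (bpt 2 j)

/-- integer cross product -/
def disk_cz (z w : ℤ × ℤ) : ℤ := z.1 * w.2 - z.2 * w.1

/-- table entry -/
def disk_D (r : ℕ) : ℤ × ℤ := dec (dig tabD r)

/-- next table entry (the corner point after the last entry) -/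
def disk_N (r : ℕ) : ℤ × ℤ := if r + 1 < 180 then disk_D (r + 1) else rot4 1 (disk_D 0)

/-- check of one table entry -/
def disk_ok (r : ℕ) : Bool :=
  decide ((disk_D r).1 ^ 2 + (disk_D r).2 ^ 2 ≤ 2500000000000000) &&
  decide (0 < (disk_D r).1) && decide (0 ≤ (disk_D r).2) &&
  decide (disk_cz (disk_D r) (disk_N r) = ((dig tabS (r + 1) : ℕ) : ℤ) - ((dig tabS r : ℕ) : ℤ)) &&
  decide (0 < disk_cz (disk_D r) (disk_N r)) &&
  decide (0 ≤ (disk_N r).1) && decide (0 < (disk_N r).2)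

theorem disk_check : ∀ r < 180, disk_ok r = true := by
  decide +kernel

theorem disk_S0 : dig tabS 0 = 0 := by decide +kernel

theorem disk_facts (r : ℕ) (hr : r < 180) :
    (disk_D r).1 ^ 2 + (disk_D r).2 ^ 2 ≤ 2500000000000000 ∧ 0 < (disk_D r).1 ∧
      0 ≤ (disk_D r).2 ∧
      disk_cz (disk_D r) (disk_N r) = ((dig tabS (r + 1) : ℕ) : ℤ) - ((dig tabS r : ℕ) : ℤ) ∧
      0 < disk_cz (disk_D r) (disk_N r) ∧ 0 ≤ (disk_N r).1 ∧ 0 < (disk_N r).2 := by
  have h := disk_check r hr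
  simp only [disk_ok, Bool.and_eq_true, decide_eq_true_eq] at h
  tauto

theorem disk_rot4_sq (q : ℕ) (z : ℤ × ℤ) :
    (rot4 q z).1 ^ 2 + (rot4 q z).2 ^ 2 = z.1 ^ 2 + z.2 ^ 2 := by
  rcases q with _ | _ | _ | q <;> simp only [rot4] <;> ring

theorem disk_rot4_cz (q : ℕ) (z w : ℤ × ℤ) : disk_cz (rot4 q z) (rot4 q w) = disk_cz z w := by
  rcases q with _ | _ | _ | q <;> simp only [rot4, disk_cz] <;> ring

theorem disk_rot4_succ (q : ℕ) (z : ℤ × ℤ) :
    rot4 ((q + 1) % 4) z = rot4 (q % 4) (rot4 1 z) := by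
  have h : q % 4 < 4 := Nat.mod_lt _ (by norm_num)
  have h' : (q + 1) % 4 = (q % 4 + 1) % 4 := by omega
  rw [h']
  generalize q % 4 = m at h
  interval_cases m <;> simp [rot4]

theorem disk_bpt (j : ℕ) : bpt 2 j = rot4 (j / 180 % 4) (disk_D (j % 180)) := by
  simp [bpt, disk_D]

theorem disk_bpt_succ (j : ℕ) : bpt 2 (j + 1) = rot4 (j / 180 % 4) (disk_N (j % 180)) := by
  have hr : j % 180 < 180 := Nat.mod_lt _ (by norm_num)
  rw [disk_bpt]
  by_cases h : j % 180 + 1 < 180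
  · have h1 : (j + 1) / 180 = j / 180 := by omega
    have h2 : (j + 1) % 180 = j % 180 + 1 := by omega
    rw [h1, h2, disk_N, if_pos h]
  · have h1 : (j + 1) / 180 = j / 180 + 1 := by omega
    have h2 : (j + 1) % 180 = 0 := by omega
    rw [h1, h2, disk_N, if_neg h, disk_rot4_succ]

theorem disk_cr_toC (z w : ℤ × ℤ) : cr (toC z) (toC w) = ((disk_cz z w : ℤ) : ℝ) / 10 ^ 16 := by
  simp only [cr, toC, disk_cz]
  push_cast
  ring

theorem disk_dS (j : ℕ) : dS (j + 1) - dS j = disk_cz (disk_D (j % 180)) (disk_N (j % 180)) := by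
  have hr : j % 180 < 180 := Nat.mod_lt _ (by norm_num)
  rw [(disk_facts _ hr).2.2.2.1]
  by_cases h : j % 180 + 1 < 180
  · have h1 : (j + 1) / 180 = j / 180 := by omega
    have h2 : (j + 1) % 180 = j % 180 + 1 := by omega
    simp only [dS]
    rw [h1, h2]
    ring
  · have h1 : (j + 1) / 180 = j / 180 + 1 := by omega
    have h2 : (j + 1) % 180 = 0 := by omega
    have h3 : j % 180 = 179 := by omega
    simp only [dS]
    rw [h1, h2, h3, disk_S0]
    push_cast
    ring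

/-- check of `x^2 + y^2 ≤ (M/2)^2` for the 180 table entries by `decide +kernel`, then `rot4`. -/
theorem T_mem (j : ℕ) : T j ∈ Metric.closedBall (0 : ℂ) (1 / 2) := by
  rw [mem_closedBall_zero_iff]
  have hr : j % 180 < 180 := Nat.mod_lt _ (by norm_num)
  have h1 := (disk_facts _ hr).1
  have h2 := disk_rot4_sq (j / 180 % 4) (disk_D (j % 180))
  rw [← disk_bpt] at h2
  rw [← h2] at h1
  have h3 : ((bpt 2 j).1 : ℝ) ^ 2 + ((bpt 2 j).2 : ℝ) ^ 2 ≤ 2500000000000000 := by
    exact_mod_cast h1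
  rw [Complex.norm_def]
  refine (Real.sqrt_le_left (by norm_num)).2 ?_
  rw [Complex.normSq_apply]
  simp only [T, toC]
  nlinarith [h3]

theorem T_period (j : ℕ) : T (j + 720) = T j := by
  have h1 : (j + 720) / 180 % 4 = j / 180 % 4 := by omega
  have h2 : (j + 720) % 180 = j % 180 := by omega
  rw [T, T, disk_bpt, disk_bpt, h1, h2]

/-- for `j = 180 q + r`, `r < 180`: the cross product of consecutive points is invariant under
quarter turns; the table check is `decide +kernel` on `r < 180`. -/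
theorem T_cross (j : ℕ) :
    cr (T j) (T (j + 1)) = ((dS (j + 1) - dS j : ℤ) : ℝ) / 10 ^ 16 := by
  rw [T, T, disk_cr_toC, disk_dS, disk_bpt_succ, disk_bpt, disk_rot4_cz]

theorem T_cross_pos (j : ℕ) : 0 < cr (T j) (T (j + 1)) := by
  have hr : j % 180 < 180 := Nat.mod_lt _ (by norm_num)
  rw [T_cross, disk_dS]
  have h := (disk_facts _ hr).2.2.2.2.1
  have h' : (0 : ℝ) < ((disk_cz (disk_D (j % 180)) (disk_N (j % 180)) : ℤ) : ℝ) := by
    exact_mod_cast h
  positivity

theorem sum_shift (K : Set ℂ) (k : ℕ) :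
    ∑ j ∈ Finset.Ico k (k + 720), Vc K (T j) (T (j + 1))
      = ∑ j ∈ Finset.range 720, Vc K (T j) (T (j + 1)) := by
  induction k with
  | zero => simp
  | succ k ih =>
    rw [← ih]
    have h1 : ∑ j ∈ Finset.Ico k (k + 720 + 1), Vc K (T j) (T (j + 1))
        = ∑ j ∈ Finset.Ico k (k + 720), Vc K (T j) (T (j + 1))
          + Vc K (T (k + 720)) (T (k + 720 + 1)) :=
      Finset.sum_Ico_succ_top (by omega) _
    have h2 : ∑ j ∈ Finset.Ico k (k + 720 + 1), Vc K (T j) (T (j + 1))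
        = Vc K (T k) (T (k + 1)) + ∑ j ∈ Finset.Ico (k + 1) (k + 720 + 1), Vc K (T j) (T (j + 1)) :=
      Finset.sum_eq_sum_Ico_succ_bot (by omega) _
    have h3 : T (k + 720) = T k := T_period k
    have h4 : T (k + 720 + 1) = T (k + 1) := by
      rw [show k + 720 + 1 = (k + 1) + 720 by ring]
      exact T_period (k + 1)
    rw [h3, h4] at h1
    have h5 : k + 1 + 720 = k + 720 + 1 := by ring
    rw [h5]
    linarith

/-- induction on `l` with `Vc_cover`. -/
theorem Vc_le_sum {K : Set ℂ} (hK : volume K ≠ ⊤) {k l : ℕ} (hkl : k < l) :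
    Vc K (T k) (T l) ≤ ∑ j ∈ Finset.Ico k l, Vc K (T j) (T (j + 1)) := by
  induction l, hkl using Nat.le_induction with
  | base => simp
  | succ l hl ih =>
    have hkl' : k ≤ l := by
      have : k + 1 ≤ l := hl
      omega
    rw [Finset.sum_Ico_succ_top hkl']
    have := Vc_cover hK (T k) (T l) (T (l + 1))
    linarith

/-- telescoping of `T_cross` with `Vc_tri`. -/
theorem arc_le {K : Set ℂ} (hK : Good K) {k l : ℕ} (hkl : k ≤ l) :
    ((dS l - dS k : ℤ) : ℝ) / 10 ^ 16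
      ≤ 2 * ∑ j ∈ Finset.Ico k l, Vc K (T j) (T (j + 1)) := by
  induction l, hkl using Nat.le_induction with
  | base => simp
  | succ l hl ih =>
    rw [Finset.sum_Ico_succ_top hl]
    have h0 : (0 : ℂ) ∈ K := hK.disk (by simp)
    have h1 := Vc_tri hK.conv hK.fin h0 (hK.disk (T_mem l)) (hK.disk (T_mem (l + 1)))
      (T_cross_pos l)
    have h2 := T_cross l
    push_cast at h2 ih ⊢
    have e : ((dS (l + 1) : ℝ) - (dS k : ℝ)) / 10 ^ 16
        = ((dS (l + 1) : ℝ) - (dS l : ℝ)) / 10 ^ 16 + ((dS l : ℝ) - (dS k : ℝ)) / 10 ^ 16 := by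
      ring
    rw [e]
    linarith

end PoolLeb
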