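import Pool.Agent.Leb.Levels
import Pool.Agent.Leb.Cert2a
import Pool.Agent.Leb.Cert2b
import Pool.Agent.Leb.Cert2c
import Pool.Agent.Leb.Cert3a
import Pool.Agent.Leb.Cert3b
import Pool.Agent.Leb.Cert3c
import Pool.Agent.Leb.Cert3d

/-! # LEB-L2: levels 2 and 3, the main bound -/

open MeasureTheory

namespace PoolLeb

/-- translations: slot 1 ↦ `a`, slot 2 ↦ `b`, slot 3 ↦ `c` -/
def final_t (a b c : ℂ) : ℕ → ℂ
  | 1 => a
  | 2 => b
  | 3 => c
  | _ => 0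

/-- rotation deviations: slot 2 ↦ `x`, slot 3 ↦ `y` -/
def final_x (x y : ℝ) : ℕ → ℝ
  | 2 => x
  | 3 => y
  | _ => 0

theorem final_unit (ψ : ℝ) : ‖Complex.exp (ψ * Complex.I)‖ = 1 :=
  Complex.norm_exp_ofReal_mul_I ψ

theorem final_cfg3 {r1 r2 p e : ℤ} {t3 t5 : ℂ} {x : ℝ} (h3 : ‖t3‖ ≤ (r1 : ℝ) / 10 ^ 8)
    (h5 : ‖t5‖ ≤ (r2 : ℝ) / 10 ^ 8) (hx : |x| ≤ 2 * (e : ℝ) / 10 ^ 4) :
    Cfg [D0, ⟨3, r1, 0, 0⟩, ⟨5, r2, p, e⟩] (final_t t3 t5 0) (final_x x 0) := by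
  constructor
  · intro s hs
    have hs3 : s < 3 := hs
    interval_cases s
    · simp [final_t, slotOf, D0]
    · simpa [final_t, slotOf] using h3
    · simpa [final_t, slotOf] using h5
  · intro s hs
    have hs3 : s < 3 := hs
    interval_cases s
    · simp [final_x, slotOf, D0]
    · simp [final_x, slotOf]
    · simpa [final_x, slotOf] using hx

theorem final_cfg4 {r1 r2 r3 p e q f : ℤ} {t3 t5 t7 : ℂ} {x y : ℝ}
    (h3 : ‖t3‖ ≤ (r1 : ℝ) / 10 ^ 8) (h5 : ‖t5‖ ≤ (r2 : ℝ) / 10 ^ 8)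
    (h7 : ‖t7‖ ≤ (r3 : ℝ) / 10 ^ 8) (hx : |x| ≤ 2 * (e : ℝ) / 10 ^ 4)
    (hy : |y| ≤ 2 * (f : ℝ) / 10 ^ 4) :
    Cfg [D0, ⟨3, r1, 0, 0⟩, ⟨5, r2, p, e⟩, ⟨7, r3, q, f⟩] (final_t t3 t5 t7) (final_x x y) := by
  constructor
  · intro s hs
    have hs3 : s < 4 := hs
    interval_cases s
    · simp [final_t, slotOf, D0]
    · simpa [final_t, slotOf] using h3
    · simpa [final_t, slotOf] using h5
    · simpa [final_t, slotOf] using h7
  · intro s hs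
    have hs3 : s < 4 := hs
    interval_cases s
    · simp [final_x, slotOf, D0]
    · simp [final_x, slotOf]
    · simpa [final_x, slotOf] using hx
    · simpa [final_x, slotOf] using hy

/-- membership of a slot with angle `θ`, `exp(iθ) = exp(ix) w0 p` -/
theorem final_slot {K : Set ℂ} {n : ℕ} {t : ℂ} {θ x : ℝ} {p : ℤ}
    (hx : Complex.exp (θ * Complex.I) = Complex.exp (x * Complex.I) * w0 p)
    (m : ∀ z ∈ bodySet n, t + Complex.exp (θ * Complex.I) * z ∈ K) {i : ℕ} (hi : i < 13 * n) :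
    t + Complex.exp (x * Complex.I) * (w0 p * bodyPt n i) ∈ K := by
  have h := m (bodyPt n i) ⟨i, hi, rfl⟩
  rw [hx, mul_assoc] at h
  exact h

theorem final_slot0 {K : Set ℂ} {n : ℕ} {t : ℂ} (m : ∀ z ∈ bodySet n, t + z ∈ K) {i : ℕ}
    (hi : i < 13 * n) :
    t + Complex.exp (((0 : ℝ) : ℂ) * Complex.I) * (w0 0 * bodyPt n i) ∈ K := by
  have h := m (bodyPt n i) ⟨i, hi, rfl⟩
  rw [w0_zero]
  simpa using h

theorem final_mem3 {K : Set ℂ} (hK : Good K) {r1 r2 p e : ℤ} {t3 t5 : ℂ} {θ x : ℝ}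
    (hc : Cfg [D0, ⟨3, r1, 0, 0⟩, ⟨5, r2, p, e⟩] (final_t t3 t5 0) (final_x x 0))
    (hx : Complex.exp (θ * Complex.I) = Complex.exp (x * Complex.I) * w0 p)
    (m3 : ∀ z ∈ bodySet 3, t3 + z ∈ K)
    (m5 : ∀ z ∈ bodySet 5, t5 + Complex.exp (θ * Complex.I) * z ∈ K) :
    Mem [D0, ⟨3, r1, 0, 0⟩, ⟨5, r2, p, e⟩] (final_t t3 t5 0) (final_x x 0) K := by
  refine mem_of hK hc rfl (by simp) ?_
  intro s hs h1
  have hs3 : s < 3 := hs
  interval_cases s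
  · intro i hi
    have hi' : i < 13 * 3 := hi
    exact final_slot0 m3 hi'
  · intro i hi
    have hi' : i < 13 * 5 := hi
    exact final_slot hx m5 hi'

theorem final_mem4 {K : Set ℂ} (hK : Good K) {r1 r2 r3 p e q f : ℤ} {t3 t5 t7 : ℂ}
    {θ ψ x y : ℝ}
    (hc : Cfg [D0, ⟨3, r1, 0, 0⟩, ⟨5, r2, p, e⟩, ⟨7, r3, q, f⟩] (final_t t3 t5 t7)
      (final_x x y))
    (hx : Complex.exp (θ * Complex.I) = Complex.exp (x * Complex.I) * w0 p)
    (hy : Complex.exp (ψ * Complex.I) = Complex.exp (y * Complex.I) * w0 q)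
    (m3 : ∀ z ∈ bodySet 3, t3 + z ∈ K)
    (m5 : ∀ z ∈ bodySet 5, t5 + Complex.exp (θ * Complex.I) * z ∈ K)
    (m7 : ∀ z ∈ bodySet 7, t7 + Complex.exp (ψ * Complex.I) * z ∈ K) :
    Mem [D0, ⟨3, r1, 0, 0⟩, ⟨5, r2, p, e⟩, ⟨7, r3, q, f⟩] (final_t t3 t5 t7)
      (final_x x y) K := by
  refine mem_of hK hc rfl (by simp) ?_
  intro s hs h1
  have hs3 : s < 4 := hs
  interval_cases s
  · intro i hi
    have hi' : i < 13 * 3 := hi
    exact final_slot0 m3 hi'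
  · intro i hi
    have hi' : i < 13 * 5 := hi
    exact final_slot hx m5 hi'
  · intro i hi
    have hi' : i < 13 * 7 := hi
    exact final_slot hy m7 hi'

/-- one box of level 2 -/
theorem final_box {K : Set ℂ} (hK : Good K) (hA : (volume K).toReal < 836 / 1000) {t3 t5 : ℂ}
    {θ : ℝ} (hθ : |θ| < Real.pi) {p : ℤ} {c1 c2 : List Cert}
    (hc1 : octOK 836000 [D0, ⟨3, 8099383, 0, 0⟩, ⟨5, 8367282, p, 176⟩] 1 4260000 6660000 dirs c1
      = true)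
    (hc2 : octOK 836000 [D0, ⟨3, 8099383, 0, 0⟩, ⟨5, 8367282, p, 176⟩] 2 3160000 4090000 dirs c2
      = true)
    (hp : |Real.tan (θ / 2) * 10 ^ 4 - p| ≤ 176)
    (h3 : ‖t3‖ ≤ 8099383 / 10 ^ 8) (h5 : ‖t5‖ ≤ 8367282 / 10 ^ 8)
    (m3 : ∀ z ∈ bodySet 3, t3 + z ∈ K)
    (m5 : ∀ z ∈ bodySet 5, t5 + Complex.exp (θ * Complex.I) * z ∈ K) :
    ‖t3‖ ≤ 4889540 / 10 ^ 8 ∧ ‖t5‖ ≤ 3294010 / 10 ^ 8 := by
  obtain ⟨x, hx, hxe⟩ := angle_box hθ hp
  have hcfg : Cfg [D0, ⟨3, 8099383, 0, 0⟩, ⟨5, 8367282, p, 176⟩] (final_t t3 t5 0)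
      (final_x x 0) := by
    apply final_cfg3
    · push_cast
      exact h3
    · push_cast
      exact h5
    · push_cast
      exact hx
  have hmem := final_mem3 hK hcfg hxe m3 m5
  have hA' : (volume K).toReal < ((836000 : ℤ) : ℝ) / 1000000 := by
    have : ((836000 : ℤ) : ℝ) / 1000000 = 836 / 1000 := by
      push_cast
      norm_num
    rw [this]
    exact hA
  constructor
  · have h := oct_sound hc1 rfl (by simp) hK hcfg hmem hA' (r := 4889540) (by norm_num)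
      (by norm_num) (by norm_num) (by norm_num)
    have h' : ‖t3‖ ≤ ((4889540 : ℤ) : ℝ) / 10 ^ 8 := h
    push_cast at h'
    exact h'
  · have h := oct_sound hc2 rfl (by simp) hK hcfg hmem hA' (r := 3294010) (by norm_num)
      (by norm_num) (by norm_num) (by norm_num)
    have h' : ‖t5‖ ≤ ((3294010 : ℤ) : ℝ) / 10 ^ 8 := h
    push_cast at h'
    exact h'

/-- the three boxes `[0,351]`, `[351,702]`, `[702,1053]` of the half-angle, `cert2_k_1`,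
`cert2_k_2`. -/
theorem lvl2 {K : Set ℂ} (hK : Good K) (hA : (volume K).toReal < 836 / 1000) {t3 t5 : ℂ} {θ : ℝ}
    (h0 : 0 ≤ θ) (h1 : θ ≤ Real.pi / 15) (m3 : ∀ z ∈ bodySet 3, t3 + z ∈ K)
    (m5 : ∀ z ∈ bodySet 5, t5 + Complex.exp (θ * Complex.I) * z ∈ K) :
    ‖t3‖ ≤ 4889540 / 10 ^ 8 ∧ ‖t5‖ ≤ 3294010 / 10 ^ 8 := by
  have hpi := Real.pi_pos
  have hθ : |θ| < Real.pi := by
    rw [abs_of_nonneg h0]
    linarith
  have r3 : ‖t3‖ ≤ 8099383 / 10 ^ 8 := by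
    apply lvl1_3 hK hA (w := 1) (by simp)
    intro z hz
    rw [one_mul]
    exact m3 z hz
  have r5 : ‖t5‖ ≤ 8367282 / 10 ^ 8 := lvl1_5 hK hA (final_unit θ) m5
  obtain ⟨a0, a1⟩ := tan_bound5 h0 h1
  set τ : ℝ := Real.tan (θ / 2) * 10 ^ 4 with hτ
  rcases le_total τ 351 with c | c
  · refine final_box hK hA hθ cert2_0_1 cert2_0_2 ?_ r3 r5 m3 m5
    rw [← hτ, abs_le]
    push_cast
    constructor <;> linarith
  · rcases le_total τ 702 with d | d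
    · refine final_box hK hA hθ cert2_1_1 cert2_1_2 ?_ r3 r5 m3 m5
      rw [← hτ, abs_le]
      push_cast
      constructor <;> linarith
    · refine final_box hK hA hθ cert2_2_1 cert2_2_2 ?_ r3 r5 m3 m5
      rw [← hτ, abs_le]
      push_cast
      constructor <;> linarith

/-- a real in an integer interval is near the integer midpoint -/
theorem final_mid {a b : ℤ} {τ : ℝ} (h1 : (a : ℝ) ≤ τ) (h2 : τ ≤ b) :
    |τ - (((a + b) / 2 : ℤ) : ℝ)| ≤ ((b - (a + b) / 2 : ℤ) : ℝ) := by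
  set m : ℤ := (a + b) / 2 with hm
  have k1 : 2 * m ≤ a + b := by omega
  have k1' : 2 * (m : ℝ) ≤ a + b := by exact_mod_cast k1
  rw [abs_le]
  push_cast
  constructor <;> linarith

/-- induction on the list of boxes -/
theorem col_sound {Tz r1 r2 r3 a b : ℤ} {cs : List (ℤ × List (ℤ × List ℕ))} (lo : ℤ)
    (hl : colOK Tz r1 r2 r3 a b lo cs = true)
    {K : Set ℂ} (hK : Good K) {t3 t5 t7 : ℂ} {θ ψ : ℝ} (hθ : |θ| < Real.pi) (hψ : |ψ| < Real.pi)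
    (h3 : ‖t3‖ ≤ (r1 : ℝ) / 10 ^ 8) (h5 : ‖t5‖ ≤ (r2 : ℝ) / 10 ^ 8) (h7 : ‖t7‖ ≤ (r3 : ℝ) / 10 ^ 8)
    (ha : (a : ℝ) ≤ Real.tan (θ / 2) * 10 ^ 4) (hb : Real.tan (θ / 2) * 10 ^ 4 ≤ b)
    (hlo : (lo : ℝ) ≤ Real.tan (ψ / 2) * 10 ^ 4) (hhi : Real.tan (ψ / 2) * 10 ^ 4 ≤ 2303)
    (hlt : lo < 2303)
    (m3 : ∀ z ∈ bodySet 3, t3 + z ∈ K)
    (m5 : ∀ z ∈ bodySet 5, t5 + Complex.exp (θ * Complex.I) * z ∈ K)
    (m7 : ∀ z ∈ bodySet 7, t7 + Complex.exp (ψ * Complex.I) * z ∈ K) :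
    (Tz : ℝ) / 1000000 ≤ (volume K).toReal := by
  induction cs generalizing lo with
  | nil =>
    exfalso
    have h : 2303 ≤ lo := of_decide_eq_true hl
    omega
  | cons c cs ih =>
    rw [colOK, Bool.and_eq_true, Bool.and_eq_true] at hl
    obtain ⟨⟨_, hleaf⟩, hrest⟩ := hl
    rcases le_or_gt (Real.tan (ψ / 2) * 10 ^ 4) (c.1 : ℝ) with hc | hc
    · obtain ⟨x, hx, hxe⟩ := angle_box hθ (final_mid ha hb)
      obtain ⟨y, hy, hye⟩ := angle_box hψ (final_mid hlo hc)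
      have hcfg := final_cfg4 (p := (a + b) / 2) (q := (lo + c.1) / 2) h3 h5 h7 hx hy
      exact leaf_sound hleaf rfl (by simp) hK hcfg (final_mem4 hK hcfg hxe hye m3 m5 m7)
        (Or.inl rfl)
    · apply ih c.1 hrest hc.le
      have : (c.1 : ℝ) < 2303 := lt_of_lt_of_le hc hhi
      exact_mod_cast this

/-- four columns `cert3_0` .. `cert3_3` -/
theorem lvl3 {K : Set ℂ} (hK : Good K) {t3 t5 t7 : ℂ} {θ ψ : ℝ}
    (h0 : 0 ≤ θ) (h1 : θ ≤ Real.pi / 15) (h2 : |ψ| ≤ Real.pi / 7)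
    (m3 : ∀ z ∈ bodySet 3, t3 + z ∈ K)
    (m5 : ∀ z ∈ bodySet 5, t5 + Complex.exp (θ * Complex.I) * z ∈ K)
    (m7 : ∀ z ∈ bodySet 7, t7 + Complex.exp (ψ * Complex.I) * z ∈ K) :
    (836 : ℝ) / 1000 ≤ (volume K).toReal := by
  by_contra hcon
  have hA : (volume K).toReal < 836 / 1000 := not_le.mp hcon
  have hpi := Real.pi_pos
  have hθ : |θ| < Real.pi := by
    rw [abs_of_nonneg h0]
    linarith
  have hψ : |ψ| < Real.pi := by linarith
  obtain ⟨r3, r5⟩ := lvl2 hK hA h0 h1 m3 m5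
  have r7 : ‖t7‖ ≤ 7957701 / 10 ^ 8 := lvl1_7 hK hA (final_unit ψ) m7
  have r3' : ‖t3‖ ≤ ((4889540 : ℤ) : ℝ) / 10 ^ 8 := by
    push_cast
    exact r3
  have r5' : ‖t5‖ ≤ ((3294010 : ℤ) : ℝ) / 10 ^ 8 := by
    push_cast
    exact r5
  have r7' : ‖t7‖ ≤ ((7957701 : ℤ) : ℝ) / 10 ^ 8 := by
    push_cast
    exact r7
  obtain ⟨a0, a1⟩ := tan_bound5 h0 h1
  obtain ⟨b0, b1⟩ := abs_le.mp (tan_bound7 h2)
  have hlo : ((-2303 : ℤ) : ℝ) ≤ Real.tan (ψ / 2) * 10 ^ 4 := by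
    push_cast
    exact b0
  have key : ∀ {a b : ℤ} {cs : List (ℤ × List (ℤ × List ℕ))},
      colOK 836000 4889540 3294010 7957701 a b (-2303) cs = true →
      (a : ℝ) ≤ Real.tan (θ / 2) * 10 ^ 4 → Real.tan (θ / 2) * 10 ^ 4 ≤ b → False := by
    intro a b cs hl ha hb
    have h := col_sound (-2303) hl hK hθ hψ r3' r5' r7' ha hb hlo b1 (by norm_num) m3 m5 m7
    push_cast at h
    linarith
  rcases le_total (Real.tan (θ / 2) * 10 ^ 4) 176 with c | c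
  · refine key cert3_0 ?_ ?_
    · push_cast
      exact a0
    · push_cast
      exact c
  · rcases le_total (Real.tan (θ / 2) * 10 ^ 4) 352 with d | d
    · refine key cert3_1 ?_ ?_
      · push_cast
        exact c
      · push_cast
        exact d
    · rcases le_total (Real.tan (θ / 2) * 10 ^ 4) 600 with e | e
      · refine key cert3_2 ?_ ?_
        · push_cast
          exact d
        · push_cast
          exact e
      · refine key cert3_3 ?_ ?_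
        · push_cast
          exact e
        · push_cast
          exact a1

/-- every closed convex displacement cover has area at least `0.836` -/
theorem main_bound {R : Set ℂ} (h : IsDisplacementCover R) (hc : Convex ℝ R) (hR : IsClosed R) :
    ENNReal.ofReal (836 / 1000) ≤ volume R := by
  by_cases hf : volume R = ⊤
  · rw [hf]
    exact le_top
  · obtain ⟨K, t3, t5, t7, θ, ψ, hK, hv, h0, h1, h2, m3, m5, m7⟩ := normalise h hc hR hf
    have key := lvl3 hK h0 h1 h2 m3 m5 m7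
    rw [hv] at key
    exact ENNReal.ofReal_le_of_le_toReal key

end PoolLeb
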