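import Pool.Agent.Leb.Defs

/-! # LEB-A: cones and areas -/

open MeasureTheory

namespace PoolLeb

/-- cross product -/
noncomputable def cr (z w : ℂ) : ℝ := z.re * w.im - z.im * w.re

/-- half-open cone between the rays of `a` (closed side) and `b` (open side) -/
def cone (a b : ℂ) : Set ℂ := {z | 0 ≤ cr a z ∧ 0 < cr z b}

/-- area of the part of `K` in the cone -/
noncomputable def Vc (K : Set ℂ) (a b : ℂ) : ℝ := (volume (K ∩ cone a b)).toReal

/-- a closed convex set of finite area containing the disk of diameter 1 centred at 0 -/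
structure Good (K : Set ℂ) : Prop where
  conv : Convex ℝ K
  closed : IsClosed K
  fin : volume K ≠ ⊤
  disk : Metric.closedBall (0 : ℂ) (1 / 2) ⊆ K

theorem geo_cont_cr_right (a : ℂ) : Continuous fun z => cr a z := by
  unfold cr
  fun_prop

theorem geo_cont_cr_left (b : ℂ) : Continuous fun z => cr z b := by
  unfold cr
  fun_prop

theorem measurableSet_cone (a b : ℂ) : MeasurableSet (cone a b) := by
  have h1 : MeasurableSet {z : ℂ | 0 ≤ cr a z} :=
    (isClosed_le continuous_const (geo_cont_cr_right a)).measurableSet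
  have h2 : MeasurableSet {z : ℂ | 0 < cr z b} :=
    (isOpen_lt continuous_const (geo_cont_cr_left b)).measurableSet
  exact h1.inter h2

theorem Vc_nonneg (K : Set ℂ) (a b : ℂ) : 0 ≤ Vc K a b := ENNReal.toReal_nonneg

theorem geo_cr_swap (z w : ℂ) : cr z w = - cr w z := by
  unfold cr
  ring

theorem geo_fin {K : Set ℂ} (hK : volume K ≠ ⊤) (a b : ℂ) : volume (K ∩ cone a b) ≠ ⊤ :=
  ne_top_of_le_ne_top hK (measure_mono Set.inter_subset_left)

/-- Proof. `cone a b ⊆ cone a p ∪ cone p b`: let `0 ≤ cr a z`, `0 < cr z b`; if `0 < cr z p` then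
`z ∈ cone a p`, else `0 ≤ cr p z = - cr z p`, so `z ∈ cone p b`. -/
theorem Vc_cover {K : Set ℂ} (hK : volume K ≠ ⊤) (a p b : ℂ) :
    Vc K a b ≤ Vc K a p + Vc K p b := by
  have h : K ∩ cone a b ⊆ (K ∩ cone a p) ∪ (K ∩ cone p b) := by
    rintro z ⟨hz, h1, h2⟩
    by_cases h3 : 0 < cr z p
    · exact Or.inl ⟨hz, h1, h3⟩
    · refine Or.inr ⟨hz, ?_, h2⟩
      rw [geo_cr_swap]
      linarith [not_lt.1 h3]
  unfold Vc
  rw [← ENNReal.toReal_add (geo_fin hK a p) (geo_fin hK p b)]
  exact ENNReal.toReal_mono (ENNReal.add_ne_top.2 ⟨geo_fin hK a p, geo_fin hK p b⟩)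
    ((measure_mono h).trans (measure_union_le _ _))

/-- Proof. The cones `cone a p`, `cone p b` are disjoint (`0 < cr z p` against `0 ≤ cr p z`) and
contained in `cone a b`, by the identity
`cr a p * cr z b = cr a z * cr p b + cr a b * cr z p` (`ring` after unfolding `cr`):
if `0 ≤ cr a z`, `0 < cr z p` then the right side is positive so `0 < cr z b`;
if `0 ≤ cr p z`, `0 < cr z b` then `cr a z * cr p b = cr a p * cr z b + cr a b * cr p z ≥ 0`. -/
theorem Vc_super {K : Set ℂ} (hm : MeasurableSet K) (hK : volume K ≠ ⊤) {a p b : ℂ}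
    (h1 : 0 < cr a p) (h2 : 0 < cr p b) (h3 : 0 < cr a b) :
    Vc K a p + Vc K p b ≤ Vc K a b := by
  have hd : Disjoint (K ∩ cone a p) (K ∩ cone p b) := by
    rw [Set.disjoint_left]
    rintro z ⟨_, _, h4⟩ ⟨_, h5, _⟩
    rw [geo_cr_swap] at h5
    linarith
  have hsub : (K ∩ cone a p) ∪ (K ∩ cone p b) ⊆ K ∩ cone a b := by
    rintro z (⟨hz, h4, h5⟩ | ⟨hz, h4, h5⟩)
    · refine ⟨hz, h4, ?_⟩
      have h6 : cr a p * cr z b = cr a z * cr p b + cr a b * cr z p := by
        unfold cr
        ring
      have h7 : 0 < cr a p * cr z b := by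
        rw [h6]
        have := mul_nonneg h4 h2.le
        have := mul_pos h3 h5
        linarith
      exact (pos_iff_pos_of_mul_pos h7).1 h1
    · refine ⟨hz, ?_, h5⟩
      have h6 : cr a z * cr p b = cr a p * cr z b + cr a b * cr p z := by
        unfold cr
        ring
      have h7 : 0 ≤ cr a z * cr p b := by
        rw [h6]
        have := mul_pos h1 h5
        have := mul_nonneg h3.le h4
        linarith
      exact nonneg_of_mul_nonneg_left h7 h2
  unfold Vc
  rw [← ENNReal.toReal_add (geo_fin hK a p) (geo_fin hK p b)]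
  refine ENNReal.toReal_mono (geo_fin hK a b) ?_
  rw [← measure_union hd (hm.inter (measurableSet_cone p b))]
  exact measure_mono hsub

/-- the linear map `(s, t) ↦ s a + t b` -/
noncomputable def geoL (a b : ℂ) : ℂ →ₗ[ℝ] ℂ where
  toFun z := z.re • a + z.im • b
  map_add' z w := by
    simp only [Complex.add_re, Complex.add_im, add_smul]
    abel
  map_smul' c z := by
    simp only [Complex.smul_re, Complex.smul_im, smul_eq_mul, mul_smul, RingHom.id_apply, smul_add]

theorem geo_det (a b : ℂ) : LinearMap.det (geoL a b) = cr a b := by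
  rw [← LinearMap.det_toMatrix Complex.basisOneI, Matrix.det_fin_two]
  simp only [LinearMap.toMatrix_apply, Complex.coe_basisOneI_repr, Complex.coe_basisOneI]
  simp [geoL, cr]
  ring

/-- the open standard triangle -/
def geoT : Set ℂ := {z | 0 < z.re ∧ z.re < 1 ∧ 0 < z.im ∧ z.im < 1 - z.re}

theorem geo_vol : volume geoT = ENNReal.ofReal (1 / 2) := by
  have h1 : geoT = Complex.measurableEquivRealProd ⁻¹'
      (regionBetween (fun _ => (0 : ℝ)) (fun x => 1 - x) (Set.Ioo 0 1)) := by
    ext z
    simp only [geoT, regionBetween, Set.mem_ofPred_eq, Set.mem_preimage, Set.mem_Ioo,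
      Complex.measurableEquivRealProd_apply]
    tauto
  have hms : MeasurableSet (regionBetween (fun _ => (0 : ℝ)) (fun x => 1 - x) (Set.Ioo 0 1)) :=
    measurableSet_regionBetween measurable_const (by fun_prop) measurableSet_Ioo
  rw [h1, Complex.volume_preserving_equiv_real_prod.measure_preimage hms.nullMeasurableSet]
  rw [MeasureTheory.Measure.volume_eq_prod, volume_regionBetween_eq_integral
    (by
      refine (continuous_const.integrableOn_Icc (a := 0) (b := 1)).mono_set Set.Ioo_subset_Icc_self)
    (by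
      refine (Continuous.integrableOn_Icc (a := 0) (b := 1) (by fun_prop)).mono_set
        Set.Ioo_subset_Icc_self)
    measurableSet_Ioo (fun x hx => by
      linarith [hx.2])]
  congr 1
  rw [← MeasureTheory.integral_Ioc_eq_integral_Ioo, ← intervalIntegral.integral_of_le zero_le_one]
  have h2 : (∫ x : ℝ in (0:ℝ)..1, ((fun x : ℝ => 1 - x) - (fun _ : ℝ => (0:ℝ))) x)
      = ∫ x : ℝ in (0:ℝ)..1, ((1 : ℝ) - x) := by
    simp only [Pi.sub_apply, sub_zero]
  rw [h2, intervalIntegral.integral_sub (by simp) (by simp), integral_id]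
  simp
  norm_num

/-- Proof. `K ∩ cone a b` contains the image of the standard triangle
`{(s, t) | 0 < s, 0 ≤ t, s + t ≤ 1}` (area `1/2`) under the linear map `(s, t) ↦ s a + t b` of
determinant `cr a b`: for `z = s a + t b`, `cr a z = t * cr a b`, `cr z b = s * cr a b`. -/
theorem Vc_tri {K : Set ℂ} (hc : Convex ℝ K) (hK : volume K ≠ ⊤) (h0 : (0 : ℂ) ∈ K) {a b : ℂ}
    (ha : a ∈ K) (hb : b ∈ K) (h : 0 < cr a b) : cr a b / 2 ≤ Vc K a b := by
  have hsub : geoL a b '' geoT ⊆ K ∩ cone a b := by
    rintro _ ⟨z, ⟨h1, h2, h3, h4⟩, rfl⟩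
    change z.re • a + z.im • b ∈ _
    refine ⟨?_, ?_, ?_⟩
    · have h5 := hc.sum_mem (t := Finset.univ) (w := ![z.re, z.im, 1 - z.re - z.im])
        (z := ![a, b, 0]) ?_ ?_ ?_
      · simpa [Fin.sum_univ_three] using h5
      · intro i _
        fin_cases i
        · exact h1.le
        · exact h3.le
        · change 0 ≤ 1 - z.re - z.im
          linarith
      · simp [Fin.sum_univ_three]
      · intro i _
        fin_cases i
        · exact ha
        · exact hb
        · exact h0
    · have h5 : cr a (z.re • a + z.im • b) = z.im * cr a b := by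
        simp only [cr, Complex.add_re, Complex.add_im, Complex.smul_re, Complex.smul_im,
          smul_eq_mul]
        ring
      rw [h5]
      positivity
    · have h5 : cr (z.re • a + z.im • b) b = z.re * cr a b := by
        simp only [cr, Complex.add_re, Complex.add_im, Complex.smul_re, Complex.smul_im,
          smul_eq_mul]
        ring
      rw [h5]
      positivity
  have hv : volume (geoL a b '' geoT) = ENNReal.ofReal (cr a b / 2) := by
    rw [MeasureTheory.Measure.addHaar_image_linearMap, geo_det, abs_of_pos h, geo_vol,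
      ← ENNReal.ofReal_mul h.le]
    congr 1
    ring
  have h5 := ENNReal.toReal_mono (geo_fin hK a b) (measure_mono hsub)
  rw [hv, ENNReal.toReal_ofReal (by positivity)] at h5
  exact h5

end PoolLeb
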