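import Pool.Agent.Leb.Geo

/-! # LEB-G: the real inequality -/

namespace PoolLeb

theorem realb_sym (m : ℕ) (f : ℕ → ℕ → ℝ) :
    ∑ i ∈ Finset.range m, ∑ j ∈ Finset.range m, f i j
      = ∑ i ∈ Finset.range m, f i i
        + ∑ j ∈ Finset.range m, ∑ i ∈ Finset.range j, (f i j + f j i) := by
  induction m with
  | zero => simp
  | succ m ih =>
    simp only [Finset.sum_range_succ, Finset.sum_add_distrib] at ih ⊢
    linarith

theorem realb_cr_abs (z w : ℂ) : |cr z w| ≤ ‖z‖ * ‖w‖ := by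
  have h : cr z w = ((starRingEnd ℂ) z * w).im := by
    unfold cr
    simp [Complex.mul_im]
    ring
  rw [h]
  refine (Complex.abs_im_le_norm _).trans ?_
  rw [norm_mul, Complex.norm_conj]

theorem realb_cr_add (z w w' : ℂ) : cr z (w + w') = cr z w + cr z w' := by
  unfold cr
  simp
  ring

theorem realb_cr_sub (z w w' : ℂ) : cr z (w - w') = cr z w - cr z w' := by
  unfold cr
  simp
  ring

theorem realb_cr_neg (z w : ℂ) : cr z w = -cr w z := by
  unfold cr
  ring

theorem realb_cr_self (z : ℂ) : cr z z = 0 := by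
  unfold cr
  ring

theorem realb_cr_sum (z : ℂ) (s : Finset ℕ) (f : ℕ → ℂ) :
    cr z (∑ j ∈ s, f j) = ∑ j ∈ s, cr z (f j) := by
  unfold cr
  rw [Complex.im_sum, Complex.re_sum, Finset.mul_sum, Finset.mul_sum, ← Finset.sum_sub_distrib]

theorem realb_exp (x : ℝ) : ‖Complex.exp (x * Complex.I) - 1‖ ≤ |x| := by
  have h := Real.norm_exp_I_mul_ofReal_sub_one_le (x := x)
  rw [mul_comm] at h
  exact h

/-- the cosine part -/
theorem realb_cos (c X D : ℝ) (hX : |X| ≤ D) :
    c - |c| * D ^ 2 / 2 ≤ c * Real.cos X := by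
  have h1 : 1 - X ^ 2 / 2 ≤ Real.cos X := Real.one_sub_sq_div_two_le_cos
  have h2 : Real.cos X ≤ 1 := Real.cos_le_one X
  have h3 : X ^ 2 ≤ D ^ 2 := by
    rw [← sq_abs X]
    exact pow_le_pow_left₀ (abs_nonneg X) hX 2
  have h4 : |c * (1 - Real.cos X)| ≤ |c| * (D ^ 2 / 2) := by
    rw [abs_mul]
    apply mul_le_mul_of_nonneg_left _ (abs_nonneg c)
    rw [abs_of_nonneg (by linarith)]
    linarith
  have h5 := (abs_le.1 h4).2
  nlinarith [h5]

/-- the sine part -/
theorem realb_sin_abs (X D : ℝ) (hX : |X| ≤ D) (hD : D ≤ 1) : |Real.sin X - X| ≤ D ^ 3 / 4 := by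
  have hX1 : |X| ≤ 1 := hX.trans hD
  have h := Real.sin_bound hX1
  have h0 := abs_nonneg X
  have h1 : |X| ^ 5 ≤ |X| ^ 3 := pow_le_pow_of_le_one h0 hX1 (by norm_num)
  have h2 : |X| ^ 3 ≤ D ^ 3 := pow_le_pow_left₀ h0 hX 3
  have h3 : |X ^ 3 / 6| = |X| ^ 3 / 6 := by
    rw [abs_div, abs_pow]
    norm_num
  have h4 : Real.sin X - X = (Real.sin X - (X - X ^ 3 / 6)) - X ^ 3 / 6 := by ring
  rw [h4]
  have h5 := abs_sub (Real.sin X - (X - X ^ 3 / 6)) (X ^ 3 / 6)
  have h6 : 0 ≤ |X| ^ 3 := pow_nonneg h0 3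
  rw [h3] at h5
  linarith

theorem realb_sin (c X D : ℝ) (hX : |X| ≤ D) (hD : D ≤ 1) :
    c * X - |c| * D ^ 3 / 4 ≤ c * Real.sin X := by
  have h := realb_sin_abs X D hX hD
  have h4 : |c * (Real.sin X - X)| ≤ |c| * (D ^ 3 / 4) := by
    rw [abs_mul]
    exact mul_le_mul_of_nonneg_left h (abs_nonneg c)
  have h5 := (abs_le.1 h4).1
  nlinarith [h5]

/-- one pair -/
theorem realb_pair (z z' : ℂ) (X D : ℝ) (hX : |X| ≤ D) (hD : D ≤ 1) :
    (z.im + z'.im) + (z.re - z'.re) * X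
      - (|z.im + z'.im| * D ^ 2 / 2 + |z.re - z'.re| * D ^ 3 / 4)
    ≤ (z * Complex.exp ((X : ℝ) * Complex.I)).im
      + (z' * Complex.exp (((-X : ℝ)) * Complex.I)).im := by
  have h1 := realb_cos (z.im + z'.im) X D hX
  have h2 := realb_sin (z.re - z'.re) X D hX hD
  have h3 : (z * Complex.exp ((X : ℝ) * Complex.I)).im
      = z.re * Real.sin X + z.im * Real.cos X := by
    rw [Complex.mul_im, Complex.exp_ofReal_mul_I_re, Complex.exp_ofReal_mul_I_im]
  have h4 : (z' * Complex.exp (((-X : ℝ)) * Complex.I)).im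
      = -z'.re * Real.sin X + z'.im * Real.cos X := by
    rw [Complex.mul_im, Complex.exp_ofReal_mul_I_re, Complex.exp_ofReal_mul_I_im, Real.sin_neg,
      Real.cos_neg]
    ring
  rw [h3, h4]
  linarith

theorem realb_part1 (m : ℕ) (Z : ℕ → ℕ → ℂ) (x δ : ℕ → ℝ)
    (hx : ∀ i < m, |x i| ≤ δ i) (hδ : ∀ i < m, ∀ j < m, δ i + δ j ≤ 1) :
    (∑ i ∈ Finset.range m, ∑ j ∈ Finset.range m, (Z i j).im)
      - (∑ j ∈ Finset.range m, ∑ i ∈ Finset.range j,
          (|(Z i j).im + (Z j i).im| * (δ i + δ j) ^ 2 / 2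
            + |(Z i j).re - (Z j i).re| * (δ i + δ j) ^ 3 / 4))
      - (∑ j ∈ Finset.range m, |∑ i ∈ Finset.range m, ((Z i j).re - (Z j i).re)| * δ j)
    ≤ ∑ i ∈ Finset.range m, ∑ j ∈ Finset.range m,
        (Z i j * Complex.exp ((x j - x i : ℝ) * Complex.I)).im := by
  rw [realb_sym m (fun i j => (Z i j * Complex.exp ((x j - x i : ℝ) * Complex.I)).im),
    realb_sym m (fun i j => (Z i j).im)]
  have hdiag : ∑ i ∈ Finset.range m, (Z i i * Complex.exp ((x i - x i : ℝ) * Complex.I)).im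
      = ∑ i ∈ Finset.range m, (Z i i).im := by
    refine Finset.sum_congr rfl fun i _ => ?_
    rw [sub_self, Complex.ofReal_zero, zero_mul, Complex.exp_zero, mul_one]
  have hpair : ∑ j ∈ Finset.range m, ∑ i ∈ Finset.range j,
      (((Z i j).im + (Z j i).im) + ((Z i j).re - (Z j i).re) * (x j - x i)
        - (|(Z i j).im + (Z j i).im| * (δ i + δ j) ^ 2 / 2
            + |(Z i j).re - (Z j i).re| * (δ i + δ j) ^ 3 / 4))
      ≤ ∑ j ∈ Finset.range m, ∑ i ∈ Finset.range j,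
        ((Z i j * Complex.exp ((x j - x i : ℝ) * Complex.I)).im
          + (Z j i * Complex.exp ((x i - x j : ℝ) * Complex.I)).im) := by
    refine Finset.sum_le_sum fun j hj => Finset.sum_le_sum fun i hi => ?_
    have hj' := Finset.mem_range.1 hj
    have hi' := Finset.mem_range.1 hi
    have him : i < m := hi'.trans hj'
    have hX : |x j - x i| ≤ δ i + δ j := by
      have h1 := abs_sub (x j) (x i)
      have h2 := hx i him
      have h3 := hx j hj'
      linarith
    have h := realb_pair (Z i j) (Z j i) (x j - x i) (δ i + δ j) hX (hδ i him j hj')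
    rw [neg_sub] at h
    exact h
  have hlin : ∑ j ∈ Finset.range m, ∑ i ∈ Finset.range j,
      ((Z i j).re - (Z j i).re) * (x j - x i)
      = ∑ j ∈ Finset.range m, x j * ∑ i ∈ Finset.range m, ((Z i j).re - (Z j i).re) := by
    have h1 := realb_sym m (fun i j => ((Z i j).re - (Z j i).re) * x j)
    have h2 : ∑ i ∈ Finset.range m, ((Z i i).re - (Z i i).re) * x i = 0 := by
      refine Finset.sum_eq_zero fun i _ => ?_
      rw [sub_self, zero_mul]
    rw [h2, zero_add, Finset.sum_comm] at h1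
    have h3 : ∑ j ∈ Finset.range m, ∑ i ∈ Finset.range j,
        (((Z i j).re - (Z j i).re) * x j + ((Z j i).re - (Z i j).re) * x i)
        = ∑ j ∈ Finset.range m, ∑ i ∈ Finset.range j,
          ((Z i j).re - (Z j i).re) * (x j - x i) := by
      refine Finset.sum_congr rfl fun j _ => Finset.sum_congr rfl fun i _ => ?_
      ring
    rw [← h3, ← h1]
    refine Finset.sum_congr rfl fun j _ => ?_
    rw [Finset.mul_sum]
    refine Finset.sum_congr rfl fun i _ => ?_
    ring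
  have hlow : -(∑ j ∈ Finset.range m, |∑ i ∈ Finset.range m, ((Z i j).re - (Z j i).re)| * δ j)
      ≤ ∑ j ∈ Finset.range m, x j * ∑ i ∈ Finset.range m, ((Z i j).re - (Z j i).re) := by
    rw [← Finset.sum_neg_distrib]
    refine Finset.sum_le_sum fun j hj => ?_
    have hj' := hx j (Finset.mem_range.1 hj)
    set S := ∑ i ∈ Finset.range m, ((Z i j).re - (Z j i).re)
    have h1 : |x j * S| ≤ |S| * δ j := by
      rw [abs_mul, mul_comm]
      exact mul_le_mul_of_nonneg_left hj' (abs_nonneg S)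
    exact (abs_le.1 h1).1
  simp only [Finset.sum_add_distrib, Finset.sum_sub_distrib] at hpair hlin hlow hdiag ⊢
  linarith

theorem realb_part2 (m : ℕ) (A B : ℕ → ℕ → ℂ) (t : ℕ → ℂ) (x r δ : ℕ → ℝ)
    (ht : ∀ i < m, ‖t i‖ ≤ r i) (hx : ∀ i < m, |x i| ≤ δ i) :
    - (∑ i ∈ Finset.range m, r i * ‖∑ j ∈ Finset.range m, (B i j - A j i)‖)
      - (∑ i ∈ Finset.range m, r i * ∑ j ∈ Finset.range m, δ j * ‖B i j - A j i‖)
    ≤ ∑ i ∈ Finset.range m, ∑ j ∈ Finset.range m,
        (cr (t i) (Complex.exp (x j * Complex.I) * B i j)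
          + cr (Complex.exp (x i * Complex.I) * A i j) (t j)) := by
  have h1 : ∑ i ∈ Finset.range m, ∑ j ∈ Finset.range m,
      cr (Complex.exp (x i * Complex.I) * A i j) (t j)
      = ∑ i ∈ Finset.range m, ∑ j ∈ Finset.range m,
        -cr (t i) (Complex.exp (x j * Complex.I) * A j i) := by
    rw [Finset.sum_comm]
    refine Finset.sum_congr rfl fun i _ => Finset.sum_congr rfl fun j _ => ?_
    rw [realb_cr_neg]
  have h2 : ∑ i ∈ Finset.range m, ∑ j ∈ Finset.range m,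
        (cr (t i) (Complex.exp (x j * Complex.I) * B i j)
          + cr (Complex.exp (x i * Complex.I) * A i j) (t j))
      = ∑ i ∈ Finset.range m, (cr (t i) (∑ j ∈ Finset.range m, (B i j - A j i))
          + cr (t i) (∑ j ∈ Finset.range m,
              (Complex.exp (x j * Complex.I) - 1) * (B i j - A j i))) := by
    simp only [Finset.sum_add_distrib] at h1 ⊢
    rw [h1, ← Finset.sum_add_distrib, ← Finset.sum_add_distrib]
    refine Finset.sum_congr rfl fun i _ => ?_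
    rw [← Finset.sum_add_distrib, ← realb_cr_add, ← Finset.sum_add_distrib, realb_cr_sum]
    refine Finset.sum_congr rfl fun j _ => ?_
    rw [← sub_eq_add_neg, ← realb_cr_sub]
    congr 1
    ring
  rw [h2, ← Finset.sum_neg_distrib, ← Finset.sum_sub_distrib]
  refine Finset.sum_le_sum fun i hi => ?_
  have hri := ht i (Finset.mem_range.1 hi)
  have h3 : |cr (t i) (∑ j ∈ Finset.range m, (B i j - A j i))|
      ≤ r i * ‖∑ j ∈ Finset.range m, (B i j - A j i)‖ :=
    (realb_cr_abs _ _).trans (mul_le_mul_of_nonneg_right hri (norm_nonneg _))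
  have h4 : |cr (t i) (∑ j ∈ Finset.range m,
      (Complex.exp (x j * Complex.I) - 1) * (B i j - A j i))|
      ≤ r i * ∑ j ∈ Finset.range m, δ j * ‖B i j - A j i‖ := by
    refine (realb_cr_abs _ _).trans ?_
    refine mul_le_mul hri ?_ (norm_nonneg _) ((norm_nonneg _).trans hri)
    refine (norm_sum_le _ _).trans (Finset.sum_le_sum fun j hj => ?_)
    rw [norm_mul]
    exact mul_le_mul_of_nonneg_right ((realb_exp (x j)).trans (hx j (Finset.mem_range.1 hj)))
      (norm_nonneg _)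
  have h5 := (abs_le.1 h3).1
  have h6 := (abs_le.1 h4).1
  linarith

theorem realb_part3 (m : ℕ) (n : ℕ → ℕ → ℝ) (t : ℕ → ℂ) (r : ℕ → ℝ)
    (ht : ∀ i < m, ‖t i‖ ≤ r i) :
    - (∑ j ∈ Finset.range m, ∑ i ∈ Finset.range j, |n i j - n j i| * r i * r j)
    ≤ ∑ i ∈ Finset.range m, ∑ j ∈ Finset.range m, n i j * cr (t i) (t j) := by
  rw [realb_sym m (fun i j => n i j * cr (t i) (t j))]
  have h1 : ∑ i ∈ Finset.range m, n i i * cr (t i) (t i) = 0 := by
    refine Finset.sum_eq_zero fun i _ => ?_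
    rw [realb_cr_self, mul_zero]
  rw [h1, zero_add, ← Finset.sum_neg_distrib]
  refine Finset.sum_le_sum fun j hj => ?_
  rw [← Finset.sum_neg_distrib]
  refine Finset.sum_le_sum fun i hi => ?_
  have hj' := Finset.mem_range.1 hj
  have him : i < m := (Finset.mem_range.1 hi).trans hj'
  have h2 : n i j * cr (t i) (t j) + n j i * cr (t j) (t i)
      = (n i j - n j i) * cr (t i) (t j) := by
    rw [realb_cr_neg (t j) (t i)]
    ring
  have h3 : |(n i j - n j i) * cr (t i) (t j)| ≤ |n i j - n j i| * r i * r j := by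
    rw [abs_mul, mul_assoc]
    refine mul_le_mul_of_nonneg_left ?_ (abs_nonneg _)
    refine (realb_cr_abs _ _).trans ?_
    exact mul_le_mul (ht i him) (ht j hj') (norm_nonneg _) ((norm_nonneg _).trans (ht i him))
  have h4 := (abs_le.1 h3).1
  rw [← h2] at h4
  exact h4

/-- Lower bound of the aggregated sum. Put `Yim i j = Im Z i j + Im Z j i`,
`Yre i j = Re Z i j - Re Z j i`, `U i j = B i j - A j i`, `X = x j - x i`, `D = δ i + δ j`.
Proof: pair `(i,j)` with `(j,i)` for `i < j`: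
`Im (Z i j e^{iX}) + Im (Z j i e^{-iX}) = Yim cos X + Yre sin X
   ≥ Yim + Yre X - |Yim| D^2/2 - |Yre| D^3/4`
(`|cos X - 1| ≤ X^2/2`, `|sin X - X| ≤ |X|^3/4` for `|X| ≤ 1`: `Real.one_sub_sq_div_two_le_cos`,
`Real.sin_gt_sub_cube`), the diagonal gives `Im Z i i`, and
`∑_{i<j} Yre i j (x j - x i) = ∑_j x j (∑_i Yre i j)` (`Yre` is antisymmetric).
`∑_{i,j} (cr (t i) (e^{i x_j} B i j) + cr (e^{i x_i} A i j) (t j)) = ∑_{i,j} cr (t i) (e^{i x_j} U i j)
 = ∑_i cr (t i) (∑_j U i j) + ∑_{i,j} cr (t i) ((e^{i x_j} - 1) U i j)`, `|e^{ix} - 1| ≤ |x|`.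
`∑_{i,j} n i j cr (t i) (t j) = ∑_{i<j} (n i j - n j i) cr (t i) (t j)`. -/
theorem real_bound (m : ℕ) (Z A B : ℕ → ℕ → ℂ) (n : ℕ → ℕ → ℝ) (t : ℕ → ℂ) (x r δ : ℕ → ℝ)
    (ht : ∀ i < m, ‖t i‖ ≤ r i) (hx : ∀ i < m, |x i| ≤ δ i)
    (hδ : ∀ i < m, ∀ j < m, δ i + δ j ≤ 1) :
    (∑ i ∈ Finset.range m, ∑ j ∈ Finset.range m, (Z i j).im)
      - (∑ j ∈ Finset.range m, ∑ i ∈ Finset.range j,
          (|(Z i j).im + (Z j i).im| * (δ i + δ j) ^ 2 / 2
            + |(Z i j).re - (Z j i).re| * (δ i + δ j) ^ 3 / 4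
            + |n i j - n j i| * r i * r j))
      - (∑ j ∈ Finset.range m, |∑ i ∈ Finset.range m, ((Z i j).re - (Z j i).re)| * δ j)
      - (∑ i ∈ Finset.range m, r i * ‖∑ j ∈ Finset.range m, (B i j - A j i)‖)
      - (∑ i ∈ Finset.range m, r i * ∑ j ∈ Finset.range m, δ j * ‖B i j - A j i‖)
    ≤ ∑ i ∈ Finset.range m, ∑ j ∈ Finset.range m,
        ((Z i j * Complex.exp ((x j - x i : ℝ) * Complex.I)).im
          + cr (t i) (Complex.exp (x j * Complex.I) * B i j)
          + cr (Complex.exp (x i * Complex.I) * A i j) (t j)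
          + n i j * cr (t i) (t j)) := by
  have h1 := realb_part1 m Z x δ hx hδ
  have h2 := realb_part2 m A B t x r δ ht hx
  have h3 := realb_part3 m n t r ht
  simp only [Finset.sum_add_distrib] at h1 h2 h3 ⊢
  linarith

end PoolLeb
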