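import Pool.Agent.Leb.Chain
import Pool.Agent.Leb.Agg
import Pool.Agent.Leb.RealB

/-! # LEB-H: soundness of the leaf check -/

open MeasureTheory

namespace PoolLeb

theorem sumTo_eq (n : ℕ) (f : ℕ → ℤ) : sumTo n f = ∑ i ∈ Finset.range n, f i := by
  induction n with
  | zero => rfl
  | succ n ih => rw [sumTo, ih, Finset.sum_range_succ]

theorem leaf_absI (z : ℤ) : ((absI z : ℤ) : ℝ) = |(z : ℝ)| := by
  rw [absI, Int.natCast_natAbs, Int.cast_abs]

theorem nb12_le (x y : ℤ) : 12 * ‖(⟨x, y⟩ : ℂ)‖ ≤ (nb12 x y : ℝ) := by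
  have key : ∀ a b : ℝ, 0 ≤ b → b ≤ a → ∀ N : ℝ, N ^ 2 = a ^ 2 + b ^ 2 → 12 * N ≤ 12 * a + 5 * b := by
    intro a b hb hab N hN
    refine (le_abs_self _).trans (abs_le_of_sq_le_sq ?_ (by linarith))
    nlinarith
  have hN : ‖(⟨x, y⟩ : ℂ)‖ ^ 2 = |(x : ℝ)| ^ 2 + |(y : ℝ)| ^ 2 := by
    rw [← Complex.normSq_eq_norm_sq, Complex.normSq_apply, sq_abs, sq_abs]
    ring
  have hx := abs_nonneg (x : ℝ)
  have hy := abs_nonneg (y : ℝ)
  rw [nb12]
  split_ifs with h
  · have h' : |(y : ℝ)| ≤ |(x : ℝ)| := by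
      rw [← leaf_absI, ← leaf_absI]
      exact_mod_cast h
    push_cast
    rw [leaf_absI, leaf_absI]
    exact key _ _ hy h' _ hN
  · have h' : |(x : ℝ)| ≤ |(y : ℝ)| := by
      rw [← leaf_absI, ← leaf_absI]
      push Not at h
      exact_mod_cast h.le
    push_cast
    rw [leaf_absI, leaf_absI]
    exact key _ _ hx h' _ (by rw [hN]; ring)

theorem leaf_slots : ∀ (G : List Slot), slotsOK G = true → ∀ i < G.length,
    0 ≤ (slotOf G i).r ∧ 0 ≤ (slotOf G i).e ∧ (slotOf G i).r ≤ 29000000 ∧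
      2 * (slotOf G i).e ≤ 1000 := by
  intro G
  induction G with
  | nil => intro _ i hi; simp at hi
  | cons g gs ih =>
    intro h i hi
    rw [slotsOK] at h
    simp only [Bool.and_eq_true, decide_eq_true_eq] at h
    obtain ⟨⟨⟨⟨h1, h2⟩, h3⟩, h4⟩, h5⟩ := h
    cases i with
    | zero => exact ⟨h1, h2, h3, h4⟩
    | succ i =>
      have h6 := ih h5 i (by simpa using hi)
      exact h6

section
variable (G : List Slot) (con : Con) (A : List (List Agg))

noncomputable def leafZ (i j : ℕ) : ℂ := (⟨(matAt A i j).re, (matAt A i j).im⟩ : ℂ) / 10 ^ 16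
noncomputable def leafA (i j : ℕ) : ℂ := (⟨(matAt A i j).ax, (matAt A i j).ay⟩ : ℂ) / 10 ^ 8
noncomputable def leafC (i j : ℕ) : ℂ :=
  if i = con.b ∧ j = 0 then (⟨(con.mu : ℝ) * con.ny, -((con.mu : ℝ) * con.nx)⟩ : ℂ) / 10 ^ 8 else 0
noncomputable def leafB (i j : ℕ) : ℂ :=
  (⟨(matAt A i j).bx, (matAt A i j).bY⟩ : ℂ) / 10 ^ 8 + leafC con i j

theorem leaf_div_re (a b : ℝ) (k : ℕ) : ((⟨a, b⟩ : ℂ) / 10 ^ k).re = a / 10 ^ k := by
  have : ((10 : ℂ) ^ k) = (((10 : ℝ) ^ k : ℝ) : ℂ) := by push_cast; rfl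
  rw [this, Complex.div_ofReal_re]

theorem leaf_div_im (a b : ℝ) (k : ℕ) : ((⟨a, b⟩ : ℂ) / 10 ^ k).im = b / 10 ^ k := by
  have : ((10 : ℂ) ^ k) = (((10 : ℝ) ^ k : ℝ) : ℂ) := by push_cast; rfl
  rw [this, Complex.div_ofReal_im]

theorem leaf_U (i j : ℕ) : leafB con A i j - leafA A j i =
    (⟨(Ux con A i j : ℝ), (Uy con A i j : ℝ)⟩ : ℂ) / 10 ^ 8 := by
  rw [leafB, leafA, leafC, Ux, Uy]
  apply Complex.ext
  · rw [leaf_div_re, Complex.sub_re, Complex.add_re, leaf_div_re, leaf_div_re]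
    split_ifs
    · rw [leaf_div_re]
      push_cast
      ring
    · rw [Complex.zero_re]
      push_cast
      ring
  · rw [leaf_div_im, Complex.sub_im, Complex.add_im, leaf_div_im, leaf_div_im]
    split_ifs
    · rw [leaf_div_im]
      push_cast
      ring
    · rw [Complex.zero_im]
      push_cast
      ring

theorem leaf_M : (M : ℝ) = 10 ^ 8 := by rw [M]; norm_num

theorem leaf_tot1 (m : ℕ) (arc : ℤ) : (tot1 m con arc A : ℝ) / 10 ^ 16 =
    (arc : ℝ) / 10 ^ 16 + (con.mu : ℝ) * con.R / 10 ^ 16 +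
      ∑ i ∈ Finset.range m, ∑ j ∈ Finset.range m,
        ((leafZ A i j).im - 7 / 10 ^ 8 * ((matAt A i j).n : ℝ)) := by
  rw [tot1, sumTo_eq]
  push_cast
  simp only [sumTo_eq]
  push_cast
  rw [leaf_M, add_div, add_div, Finset.sum_div]
  congr 1
  refine Finset.sum_congr rfl fun i _ => ?_
  rw [Finset.sum_div]
  refine Finset.sum_congr rfl fun j _ => ?_
  rw [leafZ, leaf_div_im]
  ring

theorem leaf_dl (i : ℕ) : (dl G i : ℝ) / 10 ^ 8 = 2 * ((slotOf G i).e : ℝ) / 10 ^ 4 := by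
  have h : (M / QD : ℤ) = 10000 := by decide
  rw [dl, h]
  push_cast
  ring

theorem leaf_tot2 (m : ℕ) : (tot2 G m A : ℝ) / (48 * 10 ^ 24 * 10 ^ 16) =
    ∑ j ∈ Finset.range m, ∑ i ∈ Finset.range j,
      (|(leafZ A i j).im + (leafZ A j i).im| *
          ((dl G i : ℝ) / 10 ^ 8 + (dl G j : ℝ) / 10 ^ 8) ^ 2 / 2
        + |(leafZ A i j).re - (leafZ A j i).re| *
          ((dl G i : ℝ) / 10 ^ 8 + (dl G j : ℝ) / 10 ^ 8) ^ 3 / 4
        + |((matAt A i j).n : ℝ) - ((matAt A j i).n : ℝ)| * ((rd G i : ℝ) / 10 ^ 8) *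
          ((rd G j : ℝ) / 10 ^ 8)) := by
  rw [tot2, sumTo_eq]
  push_cast
  rw [Finset.sum_div]
  refine Finset.sum_congr rfl fun j _ => ?_
  rw [sumTo_eq]
  push_cast
  rw [Finset.sum_div]
  refine Finset.sum_congr rfl fun i _ => ?_
  rw [leaf_absI, leaf_absI, leaf_absI, leaf_M, leafZ, leafZ, leaf_div_im, leaf_div_im,
    leaf_div_re, leaf_div_re, ← add_div, ← sub_div, ← add_div, abs_div, abs_div,
    abs_of_pos (by norm_num : (0 : ℝ) < 10 ^ 16), Yim, Yre, Nn]
  push_cast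
  ring

theorem leaf_tot3 (m : ℕ) : 48 * 10 ^ 16 * (tot3 G m A : ℝ) / (48 * 10 ^ 24 * 10 ^ 16) =
    ∑ j ∈ Finset.range m, |∑ i ∈ Finset.range m, ((leafZ A i j).re - (leafZ A j i).re)| *
      ((dl G j : ℝ) / 10 ^ 8) := by
  rw [tot3, sumTo_eq]
  push_cast
  rw [Finset.mul_sum, Finset.sum_div]
  refine Finset.sum_congr rfl fun j _ => ?_
  rw [leaf_absI, sumTo_eq]
  push_cast
  have h : ∑ i ∈ Finset.range m, ((leafZ A i j).re - (leafZ A j i).re) =
      (∑ i ∈ Finset.range m, (Yre A i j : ℝ)) / 10 ^ 16 := by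
    rw [Finset.sum_div]
    refine Finset.sum_congr rfl fun i _ => ?_
    rw [leafZ, leafZ, leaf_div_re, leaf_div_re, Yre]
    push_cast
    ring
  rw [h, abs_div, abs_of_pos (by norm_num : (0 : ℝ) < 10 ^ 16)]
  ring

theorem leaf_norm (x y : ℤ) : ‖((⟨(x : ℝ), (y : ℝ)⟩ : ℂ) / 10 ^ 8)‖ ≤
    (nb12 x y : ℝ) / (12 * 10 ^ 8) := by
  have h := nb12_le x y
  rw [norm_div, norm_pow, Complex.norm_ofNat, le_div_iff₀ (by norm_num)]
  calc ‖(⟨(x : ℝ), (y : ℝ)⟩ : ℂ)‖ / 10 ^ 8 * (12 * 10 ^ 8) = 12 * ‖(⟨(x : ℝ), (y : ℝ)⟩ : ℂ)‖ := by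
        ring
    _ ≤ _ := h

variable (hr : ∀ i < G.length, 0 ≤ rd G i) (hd : ∀ i < G.length, 0 ≤ dl G i)

include hr in
theorem leaf_tot4 : (∑ i ∈ Finset.range G.length, ((rd G i : ℝ) / 10 ^ 8) *
      ‖∑ j ∈ Finset.range G.length, (leafB con A i j - leafA A j i)‖) ≤
    4 * 10 ^ 24 * (tot4 G G.length con A : ℝ) / (48 * 10 ^ 24 * 10 ^ 16) := by
  rw [tot4, sumTo_eq]
  push_cast
  rw [Finset.mul_sum, Finset.sum_div]
  refine Finset.sum_le_sum fun i hi => ?_
  have h : ∑ j ∈ Finset.range G.length, (leafB con A i j - leafA A j i) =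
      (⟨((sumTo G.length (Ux con A i) : ℤ) : ℝ), ((sumTo G.length (Uy con A i) : ℤ) : ℝ)⟩ : ℂ) /
        10 ^ 8 := by
    simp only [leaf_U]
    rw [← Finset.sum_div]
    congr 1
    rw [sumTo_eq, sumTo_eq]
    apply Complex.ext
    · rw [Complex.re_sum]
      push_cast
      rfl
    · rw [Complex.im_sum]
      push_cast
      rfl
  rw [h]
  have h1 := leaf_norm (sumTo G.length (Ux con A i)) (sumTo G.length (Uy con A i))
  have h2 : (0 : ℝ) ≤ (rd G i : ℝ) / 10 ^ 8 := by
    have := hr i (Finset.mem_range.1 hi)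
    have h3 : (0 : ℝ) ≤ (rd G i : ℝ) := by exact_mod_cast this
    positivity
  refine (mul_le_mul_of_nonneg_left h1 h2).trans (le_of_eq ?_)
  ring

include hr hd in
theorem leaf_tot5 : (∑ i ∈ Finset.range G.length, ((rd G i : ℝ) / 10 ^ 8) *
      ∑ j ∈ Finset.range G.length, ((dl G j : ℝ) / 10 ^ 8) * ‖leafB con A i j - leafA A j i‖) ≤
    4 * 10 ^ 16 * (tot5 G G.length con A : ℝ) / (48 * 10 ^ 24 * 10 ^ 16) := by
  rw [tot5, sumTo_eq]
  push_cast
  rw [Finset.mul_sum, Finset.sum_div]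
  refine Finset.sum_le_sum fun i hi => ?_
  have h2 : (0 : ℝ) ≤ (rd G i : ℝ) / 10 ^ 8 := by
    have := hr i (Finset.mem_range.1 hi)
    have h3 : (0 : ℝ) ≤ (rd G i : ℝ) := by exact_mod_cast this
    positivity
  have h4 : ∑ j ∈ Finset.range G.length, ((dl G j : ℝ) / 10 ^ 8) *
      ‖leafB con A i j - leafA A j i‖ ≤
      ∑ j ∈ Finset.range G.length, ((dl G j : ℝ) / 10 ^ 8) *
        ((nb12 (Ux con A i j) (Uy con A i j) : ℝ) / (12 * 10 ^ 8)) := by
    refine Finset.sum_le_sum fun j hj => ?_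
    rw [leaf_U]
    have h3 : (0 : ℝ) ≤ (dl G j : ℝ) / 10 ^ 8 := by
      have := hd j (Finset.mem_range.1 hj)
      have h3 : (0 : ℝ) ≤ (dl G j : ℝ) := by exact_mod_cast this
      positivity
    exact mul_le_mul_of_nonneg_left (leaf_norm _ _) h3
  refine (mul_le_mul_of_nonneg_left h4 h2).trans (le_of_eq ?_)
  rw [sumTo_eq]
  push_cast
  rw [Finset.mul_sum, Finset.mul_sum, Finset.mul_sum, Finset.sum_div]
  refine Finset.sum_congr rfl fun j _ => ?_
  ring

end

theorem leaf_cr_add (a b c : ℂ) : cr a (b + c) = cr a b + cr a c := by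
  simp only [cr, Complex.add_re, Complex.add_im]
  ring

/-- `total` is `48 M^3 · M^2` times the lower bound of `real_bound` for
`Z i j = (re + i im)/10^16`, `A = (ax, ay)/10^8`, `B = (bx, bY)/10^8` plus `mu (ny, -nx)/10^8` at
`(b, 0)` (there `x 0 = 0`, so this adds `-mu (nx Re t_b + ny Im t_b)/10^8`, and together with the
constant `mu R/10^16` the constraint contributes a quantity `≤ 0`), `r = rd/10^8`, `δ = dl/10^8`
(`dl = 2 e 10^4`). -/
theorem total_le {G : List Slot} {t : ℕ → ℂ} {x : ℕ → ℝ} (h : Cfg G t x)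
    (hs : slotsOK G = true) (h0 : slotOf G 0 = D0) (hG : 0 < G.length) (con : Con)
    (hb : con.b < G.length) (hmu : 0 ≤ con.mu)
    (hcon : con.mu = 0 ∨
      (con.R : ℝ) ≤ 10 ^ 8 * ((con.nx : ℝ) * (t con.b).re + (con.ny : ℝ) * (t con.b).im))
    (arc : ℤ) (A : List (List Agg)) :
    (total G con arc A : ℝ) / (48 * 10 ^ 24 * 10 ^ 16)
      ≤ (arc : ℝ) / 10 ^ 16
        + ∑ i ∈ Finset.range G.length, ∑ j ∈ Finset.range G.length,
            (aval t x i j (matAt A i j) - 7 / 10 ^ 8 * ((matAt A i j).n : ℝ)) := by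
  have hslots := leaf_slots G hs
  have hr : ∀ i < G.length, 0 ≤ rd G i := fun i hi => (hslots i hi).1
  have hMQ : (M / QD : ℤ) = 10000 := by decide
  have hd : ∀ i < G.length, 0 ≤ dl G i := fun i hi => by
    rw [dl, hMQ]
    have := (hslots i hi).2.1
    positivity
  have key := real_bound G.length (leafZ A) (leafA A) (leafB con A)
    (fun i j => ((matAt A i j).n : ℝ)) t x (fun i => (rd G i : ℝ) / 10 ^ 8)
    (fun i => (dl G i : ℝ) / 10 ^ 8) (fun i hi => h.ht i hi) (fun i hi => by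
      rw [leaf_dl]
      exact h.hx i hi) (fun i hi j hj => by
      rw [leaf_dl, leaf_dl]
      have h1 : (2 * (slotOf G i).e : ℝ) ≤ 1000 := by exact_mod_cast (hslots i hi).2.2.2
      have h2 : (2 * (slotOf G j).e : ℝ) ≤ 1000 := by exact_mod_cast (hslots j hj).2.2.2
      have h3 : 2 * ((slotOf G i).e : ℝ) / 10 ^ 4 ≤ 1 / 10 := by
        rw [div_le_div_iff₀ (by norm_num) (by norm_num)]
        linarith
      have h4 : 2 * ((slotOf G j).e : ℝ) / 10 ^ 4 ≤ 1 / 10 := by
        rw [div_le_div_iff₀ (by norm_num) (by norm_num)]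
        linarith
      linarith)
  -- the right hand side
  have hx0 : x 0 = 0 := by
    have h1 := h.hx 0 hG
    rw [h0] at h1
    simp only [D0, Int.cast_zero, mul_zero, zero_div] at h1
    exact abs_nonpos_iff.1 h1
  set V : ℝ := -((con.mu : ℝ) / 10 ^ 8) *
    ((con.nx : ℝ) * (t con.b).re + (con.ny : ℝ) * (t con.b).im) with hV
  have hC : ∀ i j : ℕ, cr (t i) (Complex.exp (x j * Complex.I) * leafC con i j) =
      if i = con.b then (if j = 0 then V else 0) else 0 := by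
    intro i j
    rw [leafC]
    by_cases hi : i = con.b
    · by_cases hj : j = 0
      · rw [if_pos ⟨hi, hj⟩, if_pos hi, if_pos hj, hi, hj, hx0]
        simp only [Complex.ofReal_zero, zero_mul, Complex.exp_zero, one_mul]
        rw [cr, leaf_div_re, leaf_div_im, hV]
        ring
      · rw [if_neg (fun h => hj h.2), if_pos hi, if_neg hj]
        simp [cr]
    · rw [if_neg (fun h => hi h.1), if_neg hi]
      simp [cr]
  have hsumC : ∑ i ∈ Finset.range G.length, ∑ j ∈ Finset.range G.length,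
      cr (t i) (Complex.exp (x j * Complex.I) * leafC con i j) = V := by
    simp only [hC]
    rw [Finset.sum_eq_single con.b]
    · simp only [if_pos]
      rw [Finset.sum_eq_single 0]
      · simp
      · intro j _ hj
        rw [if_neg hj]
      · intro hn
        exact absurd (Finset.mem_range.2 hG) hn
    · intro i _ hi
      simp [hi]
    · intro hn
      exact absurd (Finset.mem_range.2 hb) hn
  have hRHS : ∑ i ∈ Finset.range G.length, ∑ j ∈ Finset.range G.length,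
        ((leafZ A i j * Complex.exp ((x j - x i : ℝ) * Complex.I)).im
          + cr (t i) (Complex.exp (x j * Complex.I) * leafB con A i j)
          + cr (Complex.exp (x i * Complex.I) * leafA A i j) (t j)
          + ((matAt A i j).n : ℝ) * cr (t i) (t j)) =
      (∑ i ∈ Finset.range G.length, ∑ j ∈ Finset.range G.length,
        aval t x i j (matAt A i j)) + V := by
    rw [← hsumC, ← Finset.sum_add_distrib]
    refine Finset.sum_congr rfl fun i _ => ?_
    rw [← Finset.sum_add_distrib]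
    refine Finset.sum_congr rfl fun j _ => ?_
    rw [leafB, mul_add, leaf_cr_add, aval, leafZ, leafA]
    ring
  have hVle : (con.mu : ℝ) * con.R / 10 ^ 16 ≤ -V := by
    have hmu' : (0 : ℝ) ≤ (con.mu : ℝ) := by exact_mod_cast hmu
    rcases hcon with h1 | h1
    · rw [hV, h1]
      simp
    · rw [hV]
      have h2 := mul_le_mul_of_nonneg_left h1 hmu'
      have h3 : - (-((con.mu : ℝ) / 10 ^ 8) *
          ((con.nx : ℝ) * (t con.b).re + (con.ny : ℝ) * (t con.b).im)) =
          (con.mu : ℝ) * (10 ^ 8 * ((con.nx : ℝ) * (t con.b).re + (con.ny : ℝ) * (t con.b).im)) /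
            10 ^ 16 := by ring
      rw [h3]
      exact div_le_div_of_nonneg_right h2 (by norm_num)
  have hsplit : (total G con arc A : ℝ) / (48 * 10 ^ 24 * 10 ^ 16) =
      (tot1 G.length con arc A : ℝ) / 10 ^ 16 - (tot2 G G.length A : ℝ) / (48 * 10 ^ 24 * 10 ^ 16)
        - 48 * 10 ^ 16 * (tot3 G G.length A : ℝ) / (48 * 10 ^ 24 * 10 ^ 16)
        - 4 * 10 ^ 24 * (tot4 G G.length con A : ℝ) / (48 * 10 ^ 24 * 10 ^ 16)
        - 4 * 10 ^ 16 * (tot5 G G.length con A : ℝ) / (48 * 10 ^ 24 * 10 ^ 16) := by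
    rw [total]
    push_cast
    rw [leaf_M]
    ring
  have h4 := leaf_tot4 G con A hr
  have h5 := leaf_tot5 G con A hr hd
  rw [hRHS] at key
  rw [hsplit, leaf_tot1, leaf_tot2, leaf_tot3]
  have hsub : ∀ f : ℕ → ℕ → ℝ, ∑ i ∈ Finset.range G.length, ∑ j ∈ Finset.range G.length,
      (f i j - 7 / 10 ^ 8 * ((matAt A i j).n : ℝ)) =
      (∑ i ∈ Finset.range G.length, ∑ j ∈ Finset.range G.length, f i j) -
        ∑ i ∈ Finset.range G.length, ∑ j ∈ Finset.range G.length,
          7 / 10 ^ 8 * ((matAt A i j).n : ℝ) := by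
    intro f
    rw [← Finset.sum_sub_distrib]
    refine Finset.sum_congr rfl fun i _ => ?_
    rw [← Finset.sum_sub_distrib]
  rw [hsub, hsub]
  linarith

theorem leaf_wts (l : ℤ) (es : List (Vx × Vx)) (f : Vx → Vx → ℝ) :
    ((wts l es).map (fun e => (e.l : ℝ) * f e.v e.w)).sum =
      (l : ℝ) * (es.map (fun e => f e.1 e.2)).sum := by
  induction es with
  | nil => simp [wts]
  | cons e es ih =>
    rw [wts, List.map_cons, List.sum_cons, ih, List.map_cons, List.sum_cons]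
    ring

theorem leaf_wts_mem (l : ℤ) (es : List (Vx × Vx)) : ∀ e ∈ wts l es, e.l = l ∧ (e.v, e.w) ∈ es := by
  induction es with
  | nil => intro e he; simp [wts] at he
  | cons e' es ih =>
    intro e he
    rw [wts, List.mem_cons] at he
    rcases he with rfl | he
    · exact ⟨rfl, List.mem_cons_self⟩
    · obtain ⟨h1, h2⟩ := ih e he
      exact ⟨h1, List.mem_cons_of_mem _ h2⟩

/-- all weighted edges join vertices with valid codes and have nonnegative weight -/
theorem leaf_all_mem {G : List Slot} : ∀ {ts : List (ℤ × List ℕ)}, allOK G ts = true →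
    ∀ e ∈ allWE G ts, 0 ≤ e.l ∧ ∃ c d, codeOK G c = true ∧ codeOK G d = true ∧
      e.v = vx G c ∧ e.w = vx G d := by
  intro ts
  induction ts with
  | nil => intro _ e he; simp [allWE] at he
  | cons t ts ih =>
    intro h e he
    rw [allOK] at h
    simp only [Bool.and_eq_true, decide_eq_true_eq] at h
    obtain ⟨⟨⟨h1, h2⟩, h3⟩, h4⟩ := h
    rw [allWE, List.mem_append] at he
    rcases he with he | he
    · obtain ⟨h5, h6⟩ := leaf_wts_mem _ _ e he
      obtain ⟨c, d, hc, hd, hcd⟩ := typeEdges_mem h2 _ h6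
      rw [Prod.mk.injEq] at hcd
      exact ⟨by rw [h5]; exact h1, c, d, hc, hd, hcd.1, hcd.2⟩
    · exact ih h4 e he

/-- the weighted sum of the area inequalities -/
theorem leaf_area {G : List Slot} {t : ℕ → ℂ} {x : ℕ → ℝ} {K : Set ℂ} (hK : Good K)
    (h : Cfg G t x) (hs : slotsOK G = true) (h0 : slotOf G 0 = D0) (hG : 0 < G.length)
    (hm : Mem G t x K) : ∀ {ts : List (ℤ × List ℕ)}, allOK G ts = true →
    (allArcs G ts : ℝ) / 10 ^ 16 + ((allWE G ts).map
      (fun e => (e.l : ℝ) * cr (pos G t x e.v) (pos G t x e.w))).sum ≤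
        2 * (lamSum ts : ℝ) * (volume K).toReal := by
  intro ts
  induction ts with
  | nil => intro _; simp [allArcs, allWE, lamSum]
  | cons t' ts ih =>
    intro h'
    rw [allOK] at h'
    simp only [Bool.and_eq_true, decide_eq_true_eq] at h'
    obtain ⟨⟨⟨h1, h2⟩, h3⟩, h4⟩ := h'
    have h5 := ih h4
    have h6 := type_le hK h hs h0 hG hm t'.2 h2 h3
    have h1' : (0 : ℝ) ≤ (t'.1 : ℝ) := by exact_mod_cast h1
    have h7 := mul_le_mul_of_nonneg_left h6 h1'
    rw [allWE, List.map_append, List.sum_append,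
      leaf_wts t'.1 _ (fun v w => cr (pos G t x v) (pos G t x w)), allArcs, lamSum]
    push_cast
    have h8 : (t'.1 : ℝ) * ((typeArcs G t'.2 : ℝ) / 10 ^ 16 +
        ((typeEdges G t'.2).map (fun e => cr (pos G t x e.1) (pos G t x e.2))).sum) =
        (t'.1 : ℝ) * (typeArcs G t'.2 : ℝ) / 10 ^ 16 + (t'.1 : ℝ) *
          ((typeEdges G t'.2).map (fun e => cr (pos G t x e.1) (pos G t x e.2))).sum := by ring
    rw [h8] at h7
    rw [add_div]
    linarith

theorem leaf_map_le {α : Type} (l : List α) (f g : α → ℝ) (h : ∀ a ∈ l, f a ≤ g a) :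
    (l.map f).sum ≤ (l.map g).sum := by
  induction l with
  | nil => simp
  | cons a l ih =>
    rw [List.map_cons, List.sum_cons, List.map_cons, List.sum_cons]
    exact add_le_add (h a List.mem_cons_self) (ih fun b hb => h b (List.mem_cons_of_mem _ hb))

/-- Soundness of the leaf check. -/
theorem leaf_sound {Tz : ℤ} {G : List Slot} {con : Con} {ts : List (ℤ × List ℕ)}
    (hl : leafOK Tz G con ts = true) (h0 : slotOf G 0 = D0) (hG : 0 < G.length)
    {K : Set ℂ} (hK : Good K) {t : ℕ → ℂ} {x : ℕ → ℝ} (h : Cfg G t x) (hm : Mem G t x K)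
    (hcon : con.mu = 0 ∨
      (con.R : ℝ) ≤ 10 ^ 8 * ((con.nx : ℝ) * (t con.b).re + (con.ny : ℝ) * (t con.b).im)) :
    (Tz : ℝ) / 1000000 ≤ (volume K).toReal := by
  rw [leafOK] at hl
  simp only [Bool.and_eq_true, decide_eq_true_eq] at hl
  obtain ⟨⟨⟨⟨⟨hs, hmu⟩, hb⟩, hlam⟩, hall⟩, htot⟩ := hl
  have h1 := total_le h hs h0 hG con hb hmu hcon (allArcs G ts)
    (aggMat G.length (allWE G ts))
  have h2 := leaf_area hK h hs h0 hG hm hall
  have hmem := leaf_all_mem hall
  have hmm : ∀ e ∈ allWE G ts, e.v.s < G.length ∧ e.w.s < G.length := by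
    intro e he
    obtain ⟨-, c, d, hc, hd, hv, hw⟩ := hmem e he
    rw [codeOK, Bool.and_eq_true, decide_eq_true_eq] at hc hd
    rw [hv, hw]
    exact ⟨hc.1, hd.1⟩
  have h3 := agg_sum t x G.length (allWE G ts) hmm
  have h4 := agg_n G.length (allWE G ts) hmm
  have h5 : ((allWE G ts).map (fun e => (e.l : ℝ) * crA t x e.v e.w - 7 / 10 ^ 8 * (e.l : ℝ))).sum ≤
      ((allWE G ts).map (fun e => (e.l : ℝ) * cr (pos G t x e.v) (pos G t x e.w))).sum := by
    apply leaf_map_le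
    intro e he
    obtain ⟨hl0, c, d, hc, hd, hv, hw⟩ := hmem e he
    have h6 := cr_pos_approx h hs hc hd
    rw [← hv, ← hw] at h6
    have h7 : crA t x e.v e.w =
        cr (t (c / 2000) + Complex.exp (x (c / 2000) * Complex.I) * vz e.v)
          (t (d / 2000) + Complex.exp (x (d / 2000) * Complex.I) * vz e.w) := by
      have hvs : e.v.s = c / 2000 := by rw [hv]; rfl
      have hws : e.w.s = d / 2000 := by rw [hw]; rfl
      rw [crA, hvs, hws]
    rw [← h7] at h6
    have hl0' : (0 : ℝ) ≤ (e.l : ℝ) := by exact_mod_cast hl0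
    have h8 := mul_le_mul_of_nonneg_left h6 hl0'
    linarith
  have h6 : ((allWE G ts).map (fun e => (e.l : ℝ) * crA t x e.v e.w - 7 / 10 ^ 8 * (e.l : ℝ))).sum =
      ((allWE G ts).map (fun e => (e.l : ℝ) * crA t x e.v e.w)).sum -
        7 / 10 ^ 8 * ((((allWE G ts).map (fun e => e.l)).sum : ℤ) : ℝ) := by
    generalize allWE G ts = l
    induction l with
    | nil => simp
    | cons a l ih =>
      rw [List.map_cons, List.sum_cons, ih, List.map_cons, List.sum_cons, List.map_cons,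
        List.sum_cons]
      push_cast
      ring
  have h7 : ∑ i ∈ Finset.range G.length, ∑ j ∈ Finset.range G.length,
      (aval t x i j (matAt (aggMat G.length (allWE G ts)) i j) -
        7 / 10 ^ 8 * ((matAt (aggMat G.length (allWE G ts)) i j).n : ℝ)) =
      ((allWE G ts).map (fun e => (e.l : ℝ) * crA t x e.v e.w)).sum -
        7 / 10 ^ 8 * ((((allWE G ts).map (fun e => e.l)).sum : ℤ) : ℝ) := by
    rw [h3, h4]
    push_cast
    rw [Finset.mul_sum, ← Finset.sum_sub_distrib]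
    refine Finset.sum_congr rfl fun i _ => ?_
    rw [Finset.mul_sum, ← Finset.sum_sub_distrib]
  rw [h7, ← h6] at h1
  have h8 : (96 * Tz * lamSum ts * M ^ 5 : ℝ) ≤ 1000000 *
      (total G con (allArcs G ts) (aggMat G.length (allWE G ts)) : ℝ) := by
    exact_mod_cast htot
  rw [leaf_M] at h8
  have hlam' : (0 : ℝ) < (lamSum ts : ℝ) := by exact_mod_cast hlam
  have h9 : (total G con (allArcs G ts) (aggMat G.length (allWE G ts)) : ℝ) /
      (48 * 10 ^ 24 * 10 ^ 16) ≤ 2 * (lamSum ts : ℝ) * (volume K).toReal := by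
    linarith
  rw [div_le_iff₀ (by norm_num)] at h9
  have h10 : (96 * 10 ^ 40 * (lamSum ts : ℝ)) * ((Tz : ℝ) / 1000000) ≤
      (96 * 10 ^ 40 * (lamSum ts : ℝ)) * (volume K).toReal := by
    linarith
  exact le_of_mul_le_mul_left h10 (by positivity)

end PoolLeb
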