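import Pool.Agent.Leb.Leaf
import Pool.Agent.Leb.Cover
import Pool.Agent.Leb.Cert1

/-! # LEB-L1: levels 0 and 1 -/

open MeasureTheory

namespace PoolLeb

theorem levels_body_mem {n i : ℕ} (hi : i < 13 * n) : bodyPt n i ∈ bodySet n := ⟨i, hi, rfl⟩

/-- `Mem` for the disk slot is automatic -/
theorem mem_of {G : List Slot} {t : ℕ → ℂ} {x : ℕ → ℝ} {K : Set ℂ} (hK : Good K)
    (h : Cfg G t x) (h0 : slotOf G 0 = D0) (hG : 0 < G.length)
    (hm : ∀ s < G.length, 1 ≤ s → ∀ i < bsize (slotOf G s).kind,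
      t s + Complex.exp (x s * Complex.I) * (w0 (slotOf G s).p * bodyPt (slotOf G s).kind i) ∈ K) :
    Mem G t x K := by
  intro s hs i hi
  rcases Nat.eq_zero_or_pos s with rfl | hs1
  · have ht := h.ht 0 hG
    have hx := h.hx 0 hG
    rw [h0] at ht hx hi ⊢
    have ht0 : t 0 = 0 := by
      rw [← norm_le_zero_iff]
      refine ht.trans (le_of_eq ?_)
      simp [D0]
    have hx0 : x 0 = 0 := by
      rw [← abs_nonpos_iff]
      refine hx.trans (le_of_eq ?_)
      simp [D0]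
    have hb : bodyPt D0.kind i = T i := by
      simp [bodyPt, D0, T]
    rw [ht0, hx0, hb]
    have hw : w0 D0.p = 1 := w0_zero
    rw [hw]
    simp only [Complex.ofReal_zero, zero_mul, Complex.exp_zero, one_mul, zero_add]
    exact hK.disk (T_mem i)
  · exact hm s hs hs1 i hi

theorem levels_oct {Tz : ℤ} {G : List Slot} {b : ℕ} {al be : ℤ} :
    ∀ (ds : List (ℤ × ℤ)) (cs : List Cert), octOK Tz G b al be ds cs = true →
    ∀ d ∈ ds, ∃ c : Cert,
      leafOK Tz G ⟨c.mu, b, d.1, d.2, if d.1 * d.2 = 0 then al else be⟩ c.ts = true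
  | [], _, _, d, hd => by simp at hd
  | e :: ds, [], h, d, hd => by simp [octOK] at h
  | e :: ds, c :: cs, h, d, hd => by
    rw [octOK, Bool.and_eq_true] at h
    rcases List.mem_cons.1 hd with rfl | hd'
    · exact ⟨c, h.1⟩
    · exact levels_oct ds cs h.2 d hd'

/-- octagonal radius bound from `octOK` (contrapositive of `leaf_sound` in eight directions,
`oct_norm`). -/
theorem oct_sound {Tz : ℤ} {G : List Slot} {b : ℕ} {al be : ℤ} {cs : List Cert}
    (hl : octOK Tz G b al be dirs cs = true) (h0 : slotOf G 0 = D0) (hG : 0 < G.length)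
    {K : Set ℂ} (hK : Good K) {t : ℕ → ℂ} {x : ℕ → ℝ} (h : Cfg G t x) (hm : Mem G t x K)
    (hA : (volume K).toReal < (Tz : ℝ) / 1000000) {r : ℤ} (hr : 0 ≤ r) (h1 : al ≤ be)
    (h2 : be ≤ 2 * al) (h3 : al ^ 2 + (be - al) ^ 2 ≤ r ^ 2) :
    ‖t b‖ ≤ (r : ℝ) / 10 ^ 8 := by
  have key : ∀ d ∈ dirs, 10 ^ 8 * ((d.1 : ℝ) * (t b).re + (d.2 : ℝ) * (t b).im) <
      ((if d.1 * d.2 = 0 then al else be : ℤ) : ℝ) := by
    intro d hd
    obtain ⟨c, hc⟩ := levels_oct dirs cs hl d hd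
    by_contra hcon
    rw [not_lt] at hcon
    have := leaf_sound hc h0 hG hK h hm (Or.inr hcon)
    linarith
  have e1 := key (1, 0) (by decide)
  have e2 := key (1, 1) (by decide)
  have e3 := key (0, 1) (by decide)
  have e4 := key (-1, 1) (by decide)
  have e5 := key (-1, 0) (by decide)
  have e6 := key (-1, -1) (by decide)
  have e7 := key (0, -1) (by decide)
  have e8 := key (1, -1) (by decide)
  norm_num at e1 e2 e3 e4 e5 e6 e7 e8
  have h1' : (al : ℝ) ≤ be := by exact_mod_cast h1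
  have h2' : (be : ℝ) ≤ 2 * al := by exact_mod_cast h2
  have h3' : (al : ℝ) ^ 2 + (be - al) ^ 2 ≤ (r : ℝ) ^ 2 := by exact_mod_cast h3
  have hr' : (0 : ℝ) ≤ r := by exact_mod_cast hr
  have hn := oct_norm (x := 100000000 * (t b).re) (y := 100000000 * (t b).im) h1' h2' hr' h3'
    (by linarith) (by linarith) (by linarith) (by linarith) (by linarith) (by linarith)
    (by linarith) (by linarith)
  have hsq : ‖t b‖ ^ 2 = (t b).re ^ 2 + (t b).im ^ 2 := by
    rw [← Complex.normSq_eq_norm_sq, Complex.normSq_apply]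
    ring
  have hle : (100000000 * ‖t b‖) ^ 2 ≤ (r : ℝ) ^ 2 := by
    rw [mul_pow, hsq]
    linarith
  have := abs_le_of_sq_le_sq hle hr'
  rw [le_div_iff₀ (by norm_num)]
  have h5 := (abs_le.1 this).2
  linarith

/-- `cert0`: a point at distance `≥ 0.7` from the centre of the disk. Rotate it to the positive
real axis, shrink to `0.7` (`0 ∈ K`), and use the slot list `[D0, ⟨1,0,0,0⟩]`. -/
theorem lvl0 {K : Set ℂ} (hK : Good K) (hA : (volume K).toReal < 836 / 1000) {p : ℂ}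
    (hp : p ∈ K) : ‖p‖ < 7 / 10 := by
  by_contra hcon
  rw [not_lt] at hcon
  have hp0 : 0 < ‖p‖ := by linarith
  have hpne : (‖p‖ : ℂ) ≠ 0 := by exact_mod_cast hp0.ne'
  have hu : ‖p / (‖p‖ : ℂ)‖ = 1 := by
    rw [norm_div, Complex.norm_real, norm_norm, div_self hp0.ne']
  obtain ⟨hK', hv⟩ := good_rotate hK hu
  set K' := (fun z => p / (‖p‖ : ℂ) * z) ⁻¹' K with hK'def
  have h0K : (0 : ℂ) ∈ K := hK.disk (by simp)
  have hmem : (7 / 10 : ℂ) ∈ K' := by
    rw [hK'def, Set.mem_preimage]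
    have e : p / (‖p‖ : ℂ) * (7 / 10) = ((7 / 10 / ‖p‖ : ℝ)) • p + (1 - 7 / 10 / ‖p‖ : ℝ) • (0 : ℂ) := by
      rw [smul_zero, add_zero, Complex.real_smul]
      push_cast
      field_simp
    rw [e]
    refine hK.conv hp h0K (by positivity) ?_ (by ring)
    rw [sub_nonneg, div_le_one hp0]
    exact hcon
  have hcfg : Cfg [D0, ⟨1, 0, 0, 0⟩] (fun _ => 0) (fun _ => 0) := by
    constructor
    · intro s hs
      have hs' : s < 2 := hs
      interval_cases s <;> simp [slotOf, D0]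
    · intro s hs
      have hs' : s < 2 := hs
      interval_cases s <;> simp [slotOf, D0]
  have h0 : slotOf [D0, ⟨1, 0, 0, 0⟩] 0 = D0 := rfl
  have hmm : Mem [D0, ⟨1, 0, 0, 0⟩] (fun _ => 0) (fun _ => 0) K' := by
    refine mem_of hK' hcfg h0 (by simp) ?_
    intro s hs hs1 i hi
    have hs' : s < 2 := hs
    obtain rfl : s = 1 := by omega
    have hi' : i < 1 := hi
    obtain rfl : i = 0 := by omega
    have e1 : (slotOf [D0, ⟨1, 0, 0, 0⟩] 1).kind = 1 := rfl
    have e2 : (slotOf [D0, ⟨1, 0, 0, 0⟩] 1).p = 0 := rfl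
    have e3 : bodyPt 1 0 = 7 / 10 := by
      apply Complex.ext
      · simp [bodyPt, toC, bpt]
        norm_num
      · simp [bodyPt, toC, bpt]
    rw [e1, e2, e3, w0_zero]
    simpa using hmem
  have := leaf_sound cert0 h0 (by simp) hK' hcfg hmm (Or.inl rfl)
  rw [hv] at this
  norm_num at this
  linarith

theorem levels_core {n : ℕ} (hn : n = 3 ∨ n = 5 ∨ n = 7) {r0 al be r : ℤ} {cs : List Cert}
    {ρ : ℤ} (hρ : bpt n 0 = (ρ, 0)) (hρ0 : 0 < ρ) (hr0 : 0 < r0)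
    (hbig : 4900000000000000 ≤ r0 ^ 2 + ρ * r0 + ρ ^ 2)
    (hcert : octOK 836000 [D0, ⟨n, r0, 0, 0⟩] 1 al be dirs cs = true)
    (hbs : bsize n = 13 * n) (hr : 0 ≤ r) (h1 : al ≤ be)
    (h2 : be ≤ 2 * al) (h3 : al ^ 2 + (be - al) ^ 2 ≤ r ^ 2)
    {K : Set ℂ} (hK : Good K) (hA : (volume K).toReal < 836 / 1000) {t w : ℂ}
    (hw : ‖w‖ = 1) (hm : ∀ z ∈ bodySet n, t + w * z ∈ K) : ‖t‖ ≤ r / 10 ^ 8 := by
  obtain ⟨hK', hv⟩ := good_rotate hK hw
  set K' := (fun z => w * z) ⁻¹' K with hK'def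
  have hw0 : w ≠ 0 := by
    rintro rfl
    simp at hw
  have hm' : ∀ z ∈ bodySet n, w⁻¹ * t + z ∈ K' := by
    intro z hz
    rw [hK'def, Set.mem_preimage]
    have : w * (w⁻¹ * t + z) = t + w * z := by
      field_simp
    rw [this]
    exact hm z hz
  have hA' : (volume K').toReal < 836 / 1000 := by rw [hv]; exact hA
  have hnorm : ‖w⁻¹ * t‖ = ‖t‖ := by
    rw [norm_mul, norm_inv, hw, inv_one, one_mul]
  set t' := w⁻¹ * t with ht'
  obtain ⟨v, hv1, hv2⟩ := exists_vertex hn t'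
  have hl0 := lvl0 hK' hA' (hm' v hv1)
  have hρn : ‖toC (bpt n 0)‖ = (ρ : ℝ) / 100000000 := by
    rw [hρ]
    have : toC (ρ, 0) = (((ρ : ℝ) / 100000000 : ℝ) : ℂ) := by
      apply Complex.ext <;> simp [toC]
    rw [this, Complex.norm_real, Real.norm_eq_abs, abs_of_pos]
    have : (0 : ℝ) < ρ := by exact_mod_cast hρ0
    positivity
  rw [hρn] at hv2
  have hρ' : (0 : ℝ) < ρ := by exact_mod_cast hρ0
  have hr0' : (0 : ℝ) < r0 := by exact_mod_cast hr0
  have hle : ‖t'‖ ≤ (r0 : ℝ) / 10 ^ 8 := by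
    by_contra hcon
    rw [not_le] at hcon
    have hb : (4900000000000000 : ℝ) ≤ (r0 : ℝ) ^ 2 + ρ * r0 + ρ ^ 2 := by exact_mod_cast hbig
    have hsq : ‖t' + v‖ ^ 2 < (7 / 10) ^ 2 :=
      pow_lt_pow_left₀ hl0 (norm_nonneg _) two_ne_zero
    have h5 : ((r0 : ℝ) / 10 ^ 8) ^ 2 < ‖t'‖ ^ 2 :=
      pow_lt_pow_left₀ hcon (by positivity) two_ne_zero
    have h6 : (ρ : ℝ) / 100000000 * ((r0 : ℝ) / 10 ^ 8) ≤ (ρ : ℝ) / 100000000 * ‖t'‖ :=
      mul_le_mul_of_nonneg_left hcon.le (by positivity)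
    have h7 : ((r0 : ℝ) / 10 ^ 8) ^ 2 + (ρ : ℝ) / 100000000 * ((r0 : ℝ) / 10 ^ 8) +
        ((ρ : ℝ) / 100000000) ^ 2 = ((r0 : ℝ) ^ 2 + ρ * r0 + ρ ^ 2) / 10000000000000000 := by
      ring
    have h8 : (49 / 100 : ℝ) ≤ ((r0 : ℝ) ^ 2 + ρ * r0 + ρ ^ 2) / 10000000000000000 := by
      rw [le_div_iff₀ (by norm_num)]
      linarith
    linarith
  have hcfg : Cfg [D0, ⟨n, r0, 0, 0⟩] (fun s => if s = 1 then t' else 0) (fun _ => 0) := by
    constructor
    · intro s hs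
      have hs' : s < 2 := hs
      interval_cases s
      · simp [slotOf, D0]
      · simpa [slotOf, D0] using hle
    · intro s hs
      have hs' : s < 2 := hs
      interval_cases s <;> simp [slotOf, D0]
  have h0 : slotOf [D0, ⟨n, r0, 0, 0⟩] 0 = D0 := rfl
  have hmm : Mem [D0, ⟨n, r0, 0, 0⟩] (fun s => if s = 1 then t' else 0) (fun _ => 0) K' := by
    refine mem_of hK' hcfg h0 (by simp) ?_
    intro s hs hs1 i hi
    have hs' : s < 2 := hs
    obtain rfl : s = 1 := by omega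
    have e1 : (slotOf [D0, ⟨n, r0, 0, 0⟩] 1).kind = n := rfl
    have e2 : (slotOf [D0, ⟨n, r0, 0, 0⟩] 1).p = 0 := rfl
    rw [e1] at hi
    rw [hbs] at hi
    rw [e1, e2, w0_zero]
    have := hm' _ (levels_body_mem hi)
    simpa using this
  have := oct_sound hcert h0 (by simp) hK' hcfg hmm (by rw [hv]; norm_num; linarith) hr h1 h2 h3
  rw [if_pos rfl, hnorm] at this
  exact this

/-- `exists_vertex` and `lvl0` give `‖t‖ ≤ 0.2035`, `0.269`, `0.285`; after rotating by `w⁻¹`,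
`cert1_3`, `cert1_5`, `cert1_7` with `oct_sound`. -/
theorem lvl1_3 {K : Set ℂ} (hK : Good K) (hA : (volume K).toReal < 836 / 1000) {t w : ℂ}
    (hw : ‖w‖ = 1) (hm : ∀ z ∈ bodySet 3, t + w * z ∈ K) : ‖t‖ ≤ 8099383 / 10 ^ 8 := by
  have := levels_core (Or.inl rfl) (r := 8099383) (by decide +kernel : bpt 3 0 = (57734969, 0))
    (by norm_num) (by norm_num) (by norm_num) cert1_3 rfl (by norm_num) (by norm_num)
    (by norm_num) (by norm_num) hK hA hw hm
  simpa using this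

theorem lvl1_5 {K : Set ℂ} (hK : Good K) (hA : (volume K).toReal < 836 / 1000) {t w : ℂ}
    (hw : ‖w‖ = 1) (hm : ∀ z ∈ bodySet 5, t + w * z ∈ K) : ‖t‖ ≤ 8367282 / 10 ^ 8 := by
  have := levels_core (Or.inr (Or.inl rfl)) (r := 8367282)
    (by decide +kernel : bpt 5 0 = (52573059, 0))
    (by norm_num) (by norm_num) (by norm_num) cert1_5 rfl (by norm_num) (by norm_num)
    (by norm_num) (by norm_num) hK hA hw hm
  simpa using this

theorem lvl1_7 {K : Set ℂ} (hK : Good K) (hA : (volume K).toReal < 836 / 1000) {t w : ℂ}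
    (hw : ‖w‖ = 1) (hm : ∀ z ∈ bodySet 7, t + w * z ∈ K) : ‖t‖ ≤ 7957701 / 10 ^ 8 := by
  have := levels_core (Or.inr (Or.inr rfl)) (r := 7957701)
    (by decide +kernel : bpt 7 0 = (51285792, 0))
    (by norm_num) (by norm_num) (by norm_num) cert1_7 rfl (by norm_num) (by norm_num)
    (by norm_num) (by norm_num) hK hA hw hm
  simpa using this

end PoolLeb
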