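import Pool.Agent.Leb.Disk

/-! # LEB-C: exact body points and the accuracy of the tables -/

namespace PoolLeb

/-- exact body points: for `κ = 3, 5, 7` point `13 a + l` is `ζ^a b_l`, `ζ = exp(2πi/κ)`, with
`b_l` the (rational) table points `l < 13`. -/
noncomputable def bodyPt (κ i : ℕ) : ℂ :=
  if κ = 3 ∨ κ = 5 ∨ κ = 7 then
    Complex.exp (2 * Real.pi * Complex.I * ((i / 13 : ℕ) : ℂ) / (κ : ℂ)) * toC (bpt κ (i % 13))
  else toC (bpt κ i)

/-! ### Taylor sums of the exponential function at `i P / Q` -/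

/-- `(P i)^n`, and the numerator and the denominator of the Taylor sum -/
def tables_st (P Q : ℤ) : ℕ → (ℤ × ℤ) × (ℤ × ℤ) × ℤ
  | 0 => ((1, 0), (0, 0), 1)
  | n + 1 =>
    ((-P * (tables_st P Q n).1.2, P * (tables_st P Q n).1.1),
      (Q * (n + 1) * ((tables_st P Q n).2.1.1 + (tables_st P Q n).1.1),
        Q * (n + 1) * ((tables_st P Q n).2.1.2 + (tables_st P Q n).1.2)),
      Q * (n + 1) * (tables_st P Q n).2.2)

/-- the complex number of a pair of integers -/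
noncomputable def tables_c (z : ℤ × ℤ) : ℂ := (z.1 : ℂ) + (z.2 : ℂ) * Complex.I

theorem tables_st_spec (P Q : ℤ) (hQ : Q ≠ 0) (n : ℕ) :
    tables_c (tables_st P Q n).1 = ((P : ℂ) * Complex.I) ^ n ∧
    ((tables_st P Q n).2.2 : ℂ) = (Q : ℂ) ^ n * (n.factorial : ℂ) ∧
    tables_c (tables_st P Q n).2.1 = (Q : ℂ) ^ n * (n.factorial : ℂ) *
      ∑ m ∈ Finset.range n, ((P : ℂ) / Q * Complex.I) ^ m / (m.factorial : ℂ) := by
  have hQ' : (Q : ℂ) ≠ 0 := by exact_mod_cast hQ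
  induction n with
  | zero => simp [tables_st, tables_c]
  | succ n ih =>
    obtain ⟨h1, h2, h3⟩ := ih
    refine ⟨?_, ?_, ?_⟩
    · rw [pow_succ, ← h1]
      simp only [tables_st, tables_c]
      push_cast
      linear_combination (((tables_st P Q n).1.2 : ℂ) * P) * (-Complex.I_sq)
    · rw [Nat.factorial_succ, pow_succ]
      simp only [tables_st]
      push_cast
      rw [h2]
      ring
    · rw [Finset.sum_range_succ, Nat.factorial_succ]
      have hf : (n.factorial : ℂ) ≠ 0 := by exact_mod_cast Nat.factorial_ne_zero n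
      have e1 : tables_c (tables_st P Q (n + 1)).2.1 =
          (Q : ℂ) * ((n : ℂ) + 1) * (tables_c (tables_st P Q n).2.1 +
            tables_c (tables_st P Q n).1) := by
        simp only [tables_st, tables_c]
        push_cast
        ring
      rw [e1, h3, h1]
      push_cast
      have e2 : ((P : ℂ) / Q * Complex.I) ^ n = ((P : ℂ) * Complex.I) ^ n / (Q : ℂ) ^ n := by
        rw [div_mul_eq_mul_div, div_pow]
      rw [e2, pow_succ]
      field_simp

/-- rational approximations (denominator `10^12`) of `exp (2 π i a / κ)` -/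
def tables_Z (κ a : ℕ) : ℤ × ℤ :=
  (((if κ = 3 then [(1000000000000, 0), (-500000000000, 866025403784),
      (-500000000000, -866025403784)]
    else if κ = 5 then [(1000000000000, 0), (309016994375, 951056516295),
      (-809016994375, 587785252292), (-809016994375, -587785252292), (309016994375, -951056516295)]
    else [(1000000000000, 0), (623489801859, 781831482468), (-222520933956, 974927912182),
      (-900968867902, 433883739118), (-900968867902, -433883739118),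
      (-222520933956, -974927912182), (623489801859, -781831482468)]) : List (ℤ × ℤ)).getD a (0, 0))

/-- rational approximations (denominator `10^13`) of `2 π a / κ` -/
def tables_P (κ a : ℕ) : ℤ :=
  (((if κ = 3 then [0, 20943951023932, 41887902047864]
    else if κ = 5 then [0, 12566370614359, 25132741228718, 37699111843078, 50265482457437]
    else [0, 8975979010257, 17951958020513, 26927937030770, 35903916041026, 44879895051283,
      53855874061539]) : List ℤ).getD a 0)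

/-- the check for one root of unity -/
def tables_ok (κ a : ℕ) : Bool :=
  decide (0 ≤ tables_P κ a) && decide (tables_P κ a ≤ 60000000000000) &&
  decide (-(κ * 10 ^ 7) ≤ 2 * 314159265358979323846 * (a : ℤ) - κ * tables_P κ a * 10 ^ 7) &&
  decide (2 * 314159265358979323846 * (a : ℤ) - κ * tables_P κ a * 10 ^ 7 ≤ κ * 10 ^ 7) &&
  decide ((10 ^ 12 * (tables_st (tables_P κ a) (10 ^ 13) 40).2.1.1 -
      (tables_st (tables_P κ a) (10 ^ 13) 40).2.2 * (tables_Z κ a).1) ^ 2 +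
    (10 ^ 12 * (tables_st (tables_P κ a) (10 ^ 13) 40).2.1.2 -
      (tables_st (tables_P κ a) (10 ^ 13) 40).2.2 * (tables_Z κ a).2) ^ 2 ≤
    ((tables_st (tables_P κ a) (10 ^ 13) 40).2.2) ^ 2)

theorem tables_ok3 : ∀ a < 3, tables_ok 3 a = true := by decide +kernel
theorem tables_ok5 : ∀ a < 5, tables_ok 5 a = true := by decide +kernel
theorem tables_ok7 : ∀ a < 7, tables_ok 7 a = true := by decide +kernel

/-- `|z| ≤ n` from the squares -/
theorem tables_norm_le (z w : ℝ) (n : ℝ) (hn : 0 ≤ n) (h : z ^ 2 + w ^ 2 ≤ n ^ 2) :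
    ‖(⟨z, w⟩ : ℂ)‖ ≤ n := by
  rw [← abs_of_nonneg (norm_nonneg _), ← abs_of_nonneg hn, ← sq_le_sq, ← Complex.normSq_eq_norm_sq,
    Complex.normSq_apply]
  nlinarith

/-- the argument of the root of unity -/
theorem tables_arg (κ a : ℕ) (hκ : 0 < κ) (P : ℤ) (h2 : P ≤ 60000000000000)
    (h3 : -(κ * 10 ^ 7) ≤ 2 * 314159265358979323846 * (a : ℤ) - κ * P * 10 ^ 7)
    (h4 : 2 * 314159265358979323846 * (a : ℤ) - κ * P * 10 ^ 7 ≤ κ * 10 ^ 7) :
    |2 * Real.pi * a / κ - (P : ℝ) / 10 ^ 13| ≤ 2 / 10 ^ 13 := by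
  have hκ' : (0 : ℝ) < κ := by exact_mod_cast hκ
  have g1 := Real.pi_gt_d20
  have g2 := Real.pi_lt_d20
  have k1 : (-(κ * 10 ^ 7) : ℝ) ≤ 2 * 314159265358979323846 * (a : ℝ) - κ * P * 10 ^ 7 := by
    exact_mod_cast h3
  have k2 : 2 * 314159265358979323846 * (a : ℝ) - κ * P * 10 ^ 7 ≤ (κ * 10 ^ 7 : ℝ) := by
    exact_mod_cast h4
  have ha : (0 : ℝ) ≤ a := Nat.cast_nonneg a
  have hP' : (P : ℝ) ≤ 60000000000000 := by exact_mod_cast h2
  have hκP : (κ : ℝ) * P ≤ κ * 60000000000000 := mul_le_mul_of_nonneg_left hP' hκ'.le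
  have haκ : (a : ℝ) ≤ κ := by linarith
  have m1 : 3.14159265358979323846 * (a : ℝ) ≤ Real.pi * a := mul_le_mul_of_nonneg_right g1.le ha
  have m2 : Real.pi * a ≤ 3.14159265358979323847 * (a : ℝ) := mul_le_mul_of_nonneg_right g2.le ha
  have e1 : 2 * Real.pi * a / κ - (P : ℝ) / 10 ^ 13 =
      (2 * (Real.pi * a) * 10 ^ 13 - κ * P) / (κ * 10 ^ 13) := by
    field_simp
  have hpos : (0 : ℝ) < κ * 10 ^ 13 := by positivity
  rw [e1, abs_le]
  constructor
  · rw [le_div_iff₀ hpos]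
    have e2 : -(2 / (10 : ℝ) ^ 13) * (κ * 10 ^ 13) = -(2 * κ) := by field_simp
    rw [e2]
    linarith
  · rw [div_le_iff₀ hpos]
    have e2 : (2 / (10 : ℝ) ^ 13) * (κ * 10 ^ 13) = 2 * κ := by field_simp
    rw [e2]
    linarith

theorem tables_sum (P Q : ℤ) (hQ : (Q : ℝ) = 10 ^ 13) (Z N : ℤ × ℤ) (D : ℤ)
    (h5 : (10 ^ 12 * N.1 - D * Z.1) ^ 2 + (10 ^ 12 * N.2 - D * Z.2) ^ 2 ≤ D ^ 2)
    (hD : (D : ℂ) = (Q : ℂ) ^ 40 * (Nat.factorial 40 : ℂ))
    (hN : tables_c N = (Q : ℂ) ^ 40 * (Nat.factorial 40 : ℂ) *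
      ∑ m ∈ Finset.range 40, ((P : ℂ) / Q * Complex.I) ^ m / (m.factorial : ℂ)) :
    ‖(∑ m ∈ Finset.range 40, ((P : ℂ) / Q * Complex.I) ^ m / (m.factorial : ℂ)) -
      tables_c Z / 10 ^ 12‖ ≤ 1 / 10 ^ 12 := by
  have hD' : (D : ℝ) = (Q : ℝ) ^ 40 * (Nat.factorial 40 : ℝ) := by exact_mod_cast hD
  have hfac : (0 : ℝ) < (Nat.factorial 40 : ℝ) := by
    exact_mod_cast Nat.factorial_pos 40
  have hQpos : (0 : ℝ) < Q := by rw [hQ]; positivity
  have hDR : (0 : ℝ) < D := by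
    rw [hD']
    exact mul_pos (pow_pos hQpos 40) hfac
  have hDne : (D : ℂ) ≠ 0 := by
    have : (D : ℤ) ≠ 0 := by
      intro h0
      rw [h0] at hDR
      simp at hDR
    exact_mod_cast this
  generalize hS : (∑ m ∈ Finset.range 40, ((P : ℂ) / Q * Complex.I) ^ m / (m.factorial : ℂ)) = S at hN ⊢
  have e5 : S = tables_c N / (D : ℂ) := by
    rw [eq_div_iff hDne, hN, ← hD]
    ring
  rw [e5]
  have e8 : tables_c N / (D : ℂ) - tables_c Z / 10 ^ 12 =
      (⟨(10 ^ 12 * (N.1 : ℝ) - D * Z.1) / (D * 10 ^ 12),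
        (10 ^ 12 * (N.2 : ℝ) - D * Z.2) / (D * 10 ^ 12)⟩ : ℂ) := by
    rw [Complex.mk_eq_add_mul_I]
    unfold tables_c
    push_cast
    field_simp
    ring
  rw [e8]
  refine tables_norm_le _ _ _ (by norm_num) ?_
  have h5' : (10 ^ 12 * (N.1 : ℝ) - D * Z.1) ^ 2 + (10 ^ 12 * (N.2 : ℝ) - D * Z.2) ^ 2
      ≤ (D : ℝ) ^ 2 := by exact_mod_cast h5
  rw [div_pow, div_pow, ← add_div, div_le_iff₀ (by positivity)]
  refine h5'.trans (le_of_eq ?_)
  ring

theorem tables_taylor (x : ℝ) (hx0 : 0 ≤ x) (hx6 : x ≤ 6) :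
    ‖Complex.exp ((x : ℂ) * Complex.I) -
      ∑ m ∈ Finset.range 40, ((x : ℂ) * Complex.I) ^ m / (m.factorial : ℂ)‖ ≤ 1 / 10 ^ 13 := by
  have hnx : ‖((x : ℂ) * Complex.I)‖ = x := by
    rw [norm_mul, Complex.norm_I, mul_one, Complex.norm_real, Real.norm_of_nonneg hx0]
  have hT := Complex.exp_bound' (x := (x : ℂ) * Complex.I) (n := 40) (by
    rw [hnx]
    push_cast
    rw [div_le_iff₀ (by norm_num)]
    linarith)
  rw [hnx] at hT
  refine hT.trans ?_
  have e2 : x ^ 40 ≤ 6 ^ 40 := pow_le_pow_left₀ hx0 hx6 40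
  have e3 : (6 : ℝ) ^ 40 / (Nat.factorial 40 : ℝ) * 2 ≤ 1 / 10 ^ 13 := by
    norm_num [Nat.factorial]
  refine le_trans ?_ e3
  gcongr

theorem tables_rot (θ x : ℝ) :
    ‖Complex.exp ((θ : ℂ) * Complex.I) - Complex.exp ((x : ℂ) * Complex.I)‖ ≤ |θ - x| := by
  have e10 : Complex.exp ((θ : ℂ) * Complex.I) - Complex.exp ((x : ℂ) * Complex.I) =
      Complex.exp ((x : ℂ) * Complex.I) * (Complex.exp (Complex.I * ((θ - x : ℝ) : ℂ)) - 1) := by
    rw [mul_sub, mul_one, ← Complex.exp_add]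
    congr 2
    push_cast
    ring
  rw [e10, norm_mul, Complex.norm_exp_ofReal_mul_I, one_mul]
  exact Real.norm_exp_I_mul_ofReal_sub_one_le

theorem tables_root_aux (κ a : ℕ) (hκ : 0 < κ) (P Q : ℤ) (hQ : (Q : ℝ) = 10 ^ 13) (Z N : ℤ × ℤ)
    (D : ℤ) (h1 : 0 ≤ P) (h2 : P ≤ 60000000000000)
    (h3 : -(κ * 10 ^ 7) ≤ 2 * 314159265358979323846 * (a : ℤ) - κ * P * 10 ^ 7)
    (h4 : 2 * 314159265358979323846 * (a : ℤ) - κ * P * 10 ^ 7 ≤ κ * 10 ^ 7)
    (h5 : (10 ^ 12 * N.1 - D * Z.1) ^ 2 + (10 ^ 12 * N.2 - D * Z.2) ^ 2 ≤ D ^ 2)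
    (hD : (D : ℂ) = (Q : ℂ) ^ 40 * (Nat.factorial 40 : ℂ))
    (hN : tables_c N = (Q : ℂ) ^ 40 * (Nat.factorial 40 : ℂ) *
      ∑ m ∈ Finset.range 40, ((P : ℂ) / Q * Complex.I) ^ m / (m.factorial : ℂ)) :
    ‖Complex.exp (2 * Real.pi * Complex.I * ((a : ℕ) : ℂ) / (κ : ℂ)) -
      tables_c Z / 10 ^ 12‖ ≤ 2 / 10 ^ 12 := by
  have hx0 : 0 ≤ (P : ℝ) / 10 ^ 13 := by
    have : (0 : ℝ) ≤ P := by exact_mod_cast h1
    positivity
  have hx6 : (P : ℝ) / 10 ^ 13 ≤ 6 := by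
    have hP' : (P : ℝ) ≤ 60000000000000 := by exact_mod_cast h2
    rw [div_le_iff₀ (by norm_num)]
    linarith
  have k1 := tables_arg κ a hκ P h2 h3 h4
  have k2 := tables_taylor _ hx0 hx6
  have k3 := tables_sum P Q hQ Z N D h5 hD hN
  have k4 := (tables_rot (2 * Real.pi * a / κ) ((P : ℝ) / 10 ^ 13)).trans k1
  have e4 : (P : ℂ) / Q = (((P : ℝ) / 10 ^ 13 : ℝ) : ℂ) := by
    rw [← hQ]
    push_cast
    rfl
  rw [e4] at k3
  have hθ' : 2 * (Real.pi : ℂ) * Complex.I * ((a : ℕ) : ℂ) / (κ : ℂ) =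
      ((2 * Real.pi * a / κ : ℝ) : ℂ) * Complex.I := by
    push_cast
    ring
  rw [hθ']
  generalize Complex.exp (((2 * Real.pi * a / κ : ℝ) : ℂ) * Complex.I) = A at k4 ⊢
  generalize Complex.exp ((((P : ℝ) / 10 ^ 13 : ℝ) : ℂ) * Complex.I) = B at k4 k2
  generalize (∑ m ∈ Finset.range 40, ((((P : ℝ) / 10 ^ 13 : ℝ) : ℂ) * Complex.I) ^ m /
    (m.factorial : ℂ)) = S at k2 k3
  have e : A - tables_c Z / 10 ^ 12 = (A - B) + ((B - S) + (S - tables_c Z / 10 ^ 12)) := by ring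
  rw [e]
  refine (norm_add_le _ _).trans ((add_le_add k4 ((norm_add_le _ _).trans
    (add_le_add k2 k3))).trans ?_)
  norm_num

/-- the approximation of the roots of unity -/
theorem tables_root (κ a : ℕ) (hκ : 0 < κ) (h : tables_ok κ a = true) :
    ‖Complex.exp (2 * Real.pi * Complex.I * ((a : ℕ) : ℂ) / (κ : ℂ)) -
      tables_c (tables_Z κ a) / 10 ^ 12‖ ≤ 2 / 10 ^ 12 := by
  unfold tables_ok at h
  simp only [Bool.and_eq_true, decide_eq_true_eq] at h
  obtain ⟨⟨⟨⟨h1, h2⟩, h3⟩, h4⟩, h5⟩ := h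
  obtain ⟨-, hD, hN⟩ := tables_st_spec (tables_P κ a) (10 ^ 13) (by norm_num) 40
  exact tables_root_aux κ a hκ (tables_P κ a) (10 ^ 13) (by norm_num) (tables_Z κ a) _ _
    h1 h2 h3 h4 h5 hD hN

/-- the check of the tables -/
def tables_ok2 (κ i : ℕ) : Bool :=
  decide (((tables_Z κ (i / 13)).1 * (bpt κ (i % 13)).1 - (tables_Z κ (i / 13)).2 * (bpt κ (i % 13)).2 -
      10 ^ 12 * (bpt κ i).1) ^ 2 +
    ((tables_Z κ (i / 13)).1 * (bpt κ (i % 13)).2 + (tables_Z κ (i / 13)).2 * (bpt κ (i % 13)).1 -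
      10 ^ 12 * (bpt κ i).2) ^ 2 ≤ (900000000000) ^ 2)

theorem tables_ok23 : ∀ i < 39, tables_ok2 3 i = true := by decide +kernel
theorem tables_ok25 : ∀ i < 65, tables_ok2 5 i = true := by decide +kernel
theorem tables_ok27 : ∀ i < 91, tables_ok2 7 i = true := by decide +kernel

/-- the check of the norms -/
def tables_nok (κ i : ℕ) : Bool := decide ((bpt κ i).1 ^ 2 + (bpt κ i).2 ^ 2 ≤ (nuK κ - 3) ^ 2)

theorem tables_nok2 : ∀ i < 1440, tables_nok 2 i = true := by decide +kernel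
theorem tables_nok3 : ∀ i < 39, tables_nok 3 i = true := by decide +kernel
theorem tables_nok5 : ∀ i < 65, tables_nok 5 i = true := by decide +kernel
theorem tables_nok7 : ∀ i < 91, tables_nok 7 i = true := by decide +kernel

theorem tables_nuK (κ : ℕ) : 3 ≤ nuK κ := by
  unfold nuK
  split_ifs <;> norm_num

theorem tables_nok_all (κ i : ℕ) (hi : i < bsize κ) : tables_nok κ i = true := by
  by_cases h2 : κ = 2
  · subst h2
    exact tables_nok2 i hi
  by_cases h3 : κ = 3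
  · subst h3
    exact tables_nok3 i hi
  by_cases h5 : κ = 5
  · subst h5
    exact tables_nok5 i hi
  by_cases h7 : κ = 7
  · subst h7
    exact tables_nok7 i hi
  unfold tables_nok bpt nuK
  simp only [h2, h3, h5, h7, if_false]
  by_cases h1 : κ = 1
  · simp [h1]
  · simp [h1]

/-- `decide +kernel` on the tables (`κ = 2`: `x^2+y^2 ≤ (5e7)^2`). -/
theorem table_norm (κ i : ℕ) (hi : i < bsize κ) :
    ‖toC (bpt κ i)‖ ≤ ((nuK κ : ℝ) - 3) / 10 ^ 8 := by
  have h := tables_nok_all κ i hi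
  unfold tables_nok at h
  rw [decide_eq_true_eq] at h
  have h' : ((bpt κ i).1 : ℝ) ^ 2 + ((bpt κ i).2 : ℝ) ^ 2 ≤ ((nuK κ : ℝ) - 3) ^ 2 := by
    exact_mod_cast h
  have hn : (3 : ℝ) ≤ nuK κ := by exact_mod_cast tables_nuK κ
  unfold toC
  refine tables_norm_le _ _ _ (div_nonneg (by linarith) (by norm_num)) ?_
  rw [div_pow, div_pow, div_pow, ← add_div]
  have e : ((10 : ℝ) ^ 8) ^ 2 = 100000000 ^ 2 := by norm_num
  rw [e]
  exact div_le_div_of_nonneg_right h' (by positivity)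

theorem tables_approx (κ i : ℕ) (hκ : 0 < κ) (hN : nuK κ ≤ 60000000) (hi : i < bsize κ)
    (h13 : i % 13 < bsize κ) (h1 : tables_ok κ (i / 13) = true) (h2 : tables_ok2 κ i = true) :
    ‖Complex.exp (2 * Real.pi * Complex.I * ((i / 13 : ℕ) : ℂ) / (κ : ℂ)) * toC (bpt κ (i % 13)) -
      toC (bpt κ i)‖ ≤ 1 / 10 ^ 8 := by
  have hr := tables_root κ (i / 13) hκ h1
  have hb := table_norm κ (i % 13) h13
  set E := Complex.exp (2 * Real.pi * Complex.I * ((i / 13 : ℕ) : ℂ) / (κ : ℂ)) with hE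
  set Z := tables_Z κ (i / 13) with hZ
  set b := bpt κ (i % 13) with hb'
  set B := bpt κ i with hB
  have hb2 : ‖toC b‖ ≤ 1 := by
    refine hb.trans ?_
    have : (nuK κ : ℝ) ≤ 60000000 := by exact_mod_cast hN
    rw [div_le_iff₀ (by norm_num)]
    linarith
  unfold tables_ok2 at h2
  rw [decide_eq_true_eq] at h2
  rw [← hZ, ← hb', ← hB] at h2
  have h2' : ((Z.1 : ℝ) * b.1 - Z.2 * b.2 - 10 ^ 12 * B.1) ^ 2 +
      ((Z.1 : ℝ) * b.2 + Z.2 * b.1 - 10 ^ 12 * B.2) ^ 2 ≤ 900000000000 ^ 2 := by exact_mod_cast h2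
  have e1 : tables_c Z / 10 ^ 12 * toC b - toC B =
      (⟨((Z.1 : ℝ) * b.1 - Z.2 * b.2 - 10 ^ 12 * B.1) / 10 ^ 20,
        ((Z.1 : ℝ) * b.2 + Z.2 * b.1 - 10 ^ 12 * B.2) / 10 ^ 20⟩ : ℂ) := by
    unfold toC tables_c
    rw [Complex.mk_eq_add_mul_I, Complex.mk_eq_add_mul_I, Complex.mk_eq_add_mul_I]
    push_cast
    linear_combination ((Z.2 : ℂ) * b.2 / 10 ^ 20) * Complex.I_sq
  have h3 : ‖tables_c Z / 10 ^ 12 * toC b - toC B‖ ≤ 9 / 10 ^ 9 := by
    rw [e1]
    refine tables_norm_le _ _ _ (by norm_num) ?_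
    rw [div_pow, div_pow, ← add_div, div_le_iff₀ (by positivity)]
    refine h2'.trans (le_of_eq ?_)
    norm_num
  have e2 : E * toC b - toC B = (E - tables_c Z / 10 ^ 12) * toC b +
      (tables_c Z / 10 ^ 12 * toC b - toC B) := by ring
  rw [e2]
  calc ‖(E - tables_c Z / 10 ^ 12) * toC b + (tables_c Z / 10 ^ 12 * toC b - toC B)‖
      ≤ ‖E - tables_c Z / 10 ^ 12‖ * ‖toC b‖ + ‖tables_c Z / 10 ^ 12 * toC b - toC B‖ := by
        refine (norm_add_le _ _).trans ?_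
        rw [norm_mul]
    _ ≤ 2 / 10 ^ 12 * 1 + 9 / 10 ^ 9 := by
        refine add_le_add (mul_le_mul hr hb2 (norm_nonneg _) (by norm_num)) h3
    _ ≤ 1 / 10 ^ 8 := by norm_num

/-- The table of all points is accurate to one unit `10^(-8)`.
Proof for `κ = 3, 5, 7`: find integer pairs `Z a` with
`‖exp(2πi a/κ) - Z a / 10^12‖ ≤ 10^(-11)` (e.g. from `Complex.exp_bound'` and
`Real.pi_gt_d20`, `Real.pi_lt_d20` for `a = 1`, then powers; or explicitly for 3 and 5), and check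
by `decide +kernel` that `|Z a * b_l - 10^12 * B_{13a+l}|^2 ≤ (9 * 10^11)^2` (the tables were
rounded to nearest, so the error is at most `0.71 * 10^12` plus `10 * 0.58e8`). -/
theorem bodyPt_approx (κ i : ℕ) (hi : i < bsize κ) :
    ‖bodyPt κ i - toC (bpt κ i)‖ ≤ 1 / 10 ^ 8 := by
  unfold bodyPt
  split_ifs with h
  · rcases h with rfl | rfl | rfl
    · have hi' : i < 39 := hi
      exact tables_approx 3 i (by norm_num) (by decide) hi (show i % 13 < 39 by omega)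
        (tables_ok3 _ (by omega)) (tables_ok23 i hi')
    · have hi' : i < 65 := hi
      exact tables_approx 5 i (by norm_num) (by decide) hi (show i % 13 < 65 by omega)
        (tables_ok5 _ (by omega)) (tables_ok25 i hi')
    · have hi' : i < 91 := hi
      exact tables_approx 7 i (by norm_num) (by decide) hi (show i % 13 < 91 by omega)
        (tables_ok7 _ (by omega)) (tables_ok27 i hi')
  · rw [sub_self, norm_zero]
    norm_num

theorem bodyPt_norm (κ i : ℕ) (hi : i < bsize κ) :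
    ‖bodyPt κ i‖ ≤ ((nuK κ : ℝ) - 2) / 10 ^ 8 := by
  have h1 := bodyPt_approx κ i hi
  have h2 := table_norm κ i hi
  have e : bodyPt κ i = (bodyPt κ i - toC (bpt κ i)) + toC (bpt κ i) := by ring
  rw [e]
  refine (norm_add_le _ _).trans ((add_le_add h1 h2).trans (le_of_eq ?_))
  ring

end PoolLeb
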