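import Pool.Agent.Leb.Tables

/-! # LEB-D: vertices, approximate and exact; edges -/

namespace PoolLeb

/-- the unit complex number with half-angle tangent `p / 10^4` -/
noncomputable def w0 (p : ℤ) : ℂ :=
  ((10000 : ℂ) + (p : ℂ) * Complex.I) ^ 2 / ((10000 : ℂ) ^ 2 + (p : ℂ) ^ 2)

noncomputable def vz (v : Vx) : ℂ := ⟨(v.x : ℝ) / 100000000, (v.y : ℝ) / 100000000⟩

/-- unrotated exact vertex `w0 β` -/
noncomputable def ve (G : List Slot) (v : Vx) : ℂ :=
  w0 (slotOf G v.s).p * bodyPt (slotOf G v.s).kind v.i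

/-- exact position of a vertex -/
noncomputable def pos (G : List Slot) (t : ℕ → ℂ) (x : ℕ → ℝ) (v : Vx) : ℂ :=
  t v.s + Complex.exp (x v.s * Complex.I) * ve G v

/-- the translations and rotation deviations are within the bounds of the slots -/
structure Cfg (G : List Slot) (t : ℕ → ℂ) (x : ℕ → ℝ) : Prop where
  ht : ∀ s < G.length, ‖t s‖ ≤ ((slotOf G s).r : ℝ) / 10 ^ 8
  hx : ∀ s < G.length, |x s| ≤ 2 * ((slotOf G s).e : ℝ) / 10 ^ 4

theorem vertex_code {G : List Slot} {c : ℕ} (hc : codeOK G c = true) :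
    c / 2000 < G.length ∧ c % 2000 < bsize (slotOf G (c / 2000)).kind := by
  have h : (decide (c / 2000 < G.length) &&
    decide (c % 2000 < bsize (slotOf G (c / 2000)).kind)) = true := hc
  rw [Bool.and_eq_true, decide_eq_true_eq, decide_eq_true_eq] at h
  exact h

theorem vertex_slots {G : List Slot} (hs : slotsOK G = true) : ∀ s < G.length,
    0 ≤ (slotOf G s).r ∧ 0 ≤ (slotOf G s).e ∧ (slotOf G s).r ≤ 29000000 ∧
      2 * (slotOf G s).e ≤ 1000 := by
  induction G with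
  | nil => intro s hs'; exact absurd hs' (Nat.not_lt_zero _)
  | cons g gs ih =>
    have h : (decide (0 ≤ g.r) && decide (0 ≤ g.e) && decide (g.r ≤ 29000000) &&
      decide (2 * g.e ≤ 1000) && slotsOK gs) = true := hs
    simp only [Bool.and_eq_true, decide_eq_true_eq] at h
    obtain ⟨⟨⟨⟨h1, h2⟩, h3⟩, h4⟩, h5⟩ := h
    intro s hs'
    rcases s with _ | s
    · exact ⟨h1, h2, h3, h4⟩
    · exact ih h5 s (by simpa using hs')

theorem vertex_floor (n q : ℤ) (hq : 0 < q) :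
    |(n : ℝ) / (q : ℝ) / 100000000 - ((n / q : ℤ) : ℝ) / 100000000| ≤ 1 / 10 ^ 8 := by
  have hq' : (0 : ℝ) < (q : ℝ) := by exact_mod_cast hq
  have h1 : (q : ℝ) * ((n / q : ℤ) : ℝ) + ((n % q : ℤ) : ℝ) = n := by
    exact_mod_cast Int.mul_ediv_add_emod n q
  have h2 : (0 : ℝ) ≤ ((n % q : ℤ) : ℝ) := by exact_mod_cast Int.emod_nonneg n hq.ne'
  have h3 : ((n % q : ℤ) : ℝ) ≤ q := by exact_mod_cast (Int.emod_lt_of_pos n hq).le
  have h4 : (n : ℝ) / (q : ℝ) / 100000000 - ((n / q : ℤ) : ℝ) / 100000000 =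
      ((n % q : ℤ) : ℝ) / q / 10 ^ 8 := by
    rw [← h1]
    field_simp
    ring
  rw [h4, abs_of_nonneg (by positivity)]
  have h5 : ((n % q : ℤ) : ℝ) / q ≤ 1 := (div_le_one hq').2 h3
  exact div_le_div_of_nonneg_right h5 (by positivity)

theorem vertex_round (p : ℤ) (b : ℤ × ℤ) :
    ‖w0 p * toC b - (⟨((((QD * QD - p * p) * b.1 - (2 * p * QD) * b.2) /
      (QD * QD + p * p) : ℤ) : ℝ) / 100000000,
      ((((QD * QD - p * p) * b.2 + (2 * p * QD) * b.1) / (QD * QD + p * p) : ℤ) : ℝ) /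
        100000000⟩ : ℂ)‖ ≤ 2 / 10 ^ 8 := by
  have hq : (0 : ℤ) < QD * QD + p * p := by
    have h1 : QD = 10000 := rfl
    rw [h1]
    nlinarith [mul_self_nonneg p]
  have f1 := vertex_floor ((QD * QD - p * p) * b.1 - (2 * p * QD) * b.2) (QD * QD + p * p) hq
  have f2 := vertex_floor ((QD * QD - p * p) * b.2 + (2 * p * QD) * b.1) (QD * QD + p * p) hq
  have hd : ((10000 : ℂ) ^ 2 + (p : ℂ) ^ 2) = (((10000 : ℝ) ^ 2 + (p : ℝ) ^ 2 : ℝ) : ℂ) := by
    push_cast
    ring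
  have hre : (w0 p * toC b).re = (((QD * QD - p * p) * b.1 - (2 * p * QD) * b.2 : ℤ) : ℝ) /
      ((QD * QD + p * p : ℤ) : ℝ) / 100000000 := by
    have e1 : (w0 p).re = ((10000 : ℝ) ^ 2 - (p : ℝ) ^ 2) / ((10000 : ℝ) ^ 2 + (p : ℝ) ^ 2) := by
      rw [w0, hd, Complex.div_ofReal_re]
      congr 1
      simp [pow_two]
    have e2 : (w0 p).im = (2 * 10000 * (p : ℝ)) / ((10000 : ℝ) ^ 2 + (p : ℝ) ^ 2) := by
      rw [w0, hd, Complex.div_ofReal_im]
      congr 1
      simp [pow_two]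
      ring
    rw [Complex.mul_re, e1, e2]
    unfold toC QD
    push_cast
    ring
  have him : (w0 p * toC b).im = (((QD * QD - p * p) * b.2 + (2 * p * QD) * b.1 : ℤ) : ℝ) /
      ((QD * QD + p * p : ℤ) : ℝ) / 100000000 := by
    have e1 : (w0 p).re = ((10000 : ℝ) ^ 2 - (p : ℝ) ^ 2) / ((10000 : ℝ) ^ 2 + (p : ℝ) ^ 2) := by
      rw [w0, hd, Complex.div_ofReal_re]
      congr 1
      simp [pow_two]
    have e2 : (w0 p).im = (2 * 10000 * (p : ℝ)) / ((10000 : ℝ) ^ 2 + (p : ℝ) ^ 2) := by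
      rw [w0, hd, Complex.div_ofReal_im]
      congr 1
      simp [pow_two]
      ring
    rw [Complex.mul_im, e1, e2]
    unfold toC QD
    push_cast
    ring
  refine (Complex.norm_le_abs_re_add_abs_im _).trans ?_
  rw [Complex.sub_re, Complex.sub_im, hre, him]
  calc _ ≤ (1 : ℝ) / 10 ^ 8 + 1 / 10 ^ 8 := add_le_add f1 f2
    _ = 2 / 10 ^ 8 := by norm_num

theorem vertex_cr_abs (z w : ℂ) : |cr z w| ≤ ‖z‖ * ‖w‖ := by
  have h : cr z w = ((starRingEnd ℂ) z * w).im := by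
    unfold cr
    rw [Complex.mul_im, Complex.conj_re, Complex.conj_im]
    ring
  rw [h]
  refine (Complex.abs_im_le_norm _).trans ?_
  rw [norm_mul, RCLike.norm_conj]

theorem vertex_cr_ge (z w : ℂ) {a b : ℝ} (hz : ‖z‖ ≤ a) (hw : ‖w‖ ≤ b) : -(a * b) ≤ cr z w := by
  have h1 := vertex_cr_abs z w
  have h2 : ‖z‖ * ‖w‖ ≤ a * b :=
    mul_le_mul hz hw (norm_nonneg _) ((norm_nonneg _).trans hz)
  have h3 := neg_abs_le (cr z w)
  linarith

theorem vertex_cr_rot {E : ℂ} (hE : ‖E‖ = 1) (z w : ℂ) : cr (E * z) (E * w) = cr z w := by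
  have h : E.re * E.re + E.im * E.im = 1 := by
    have h1 := Complex.normSq_eq_norm_sq E
    rw [hE, Complex.normSq_apply] at h1
    rw [h1]
    norm_num
  unfold cr
  rw [Complex.mul_re, Complex.mul_im, Complex.mul_re, Complex.mul_im]
  linear_combination (z.re * w.im - z.im * w.re) * h

theorem vertex_absI (z : ℤ) : ((absI z : ℤ) : ℝ) = |(z : ℝ)| := by
  unfold absI
  rw [Int.cast_natCast, Nat.cast_natAbs, Int.cast_abs]

theorem vertex_nuK (k : ℕ) : 0 ≤ nuK k ∧ nuK k ≤ 70000010 := by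
  unfold nuK
  split_ifs <;> norm_num

/-- the displacement of a vertex is at most `Dr` -/
theorem vertex_Dr (t : ℂ) (x : ℝ) (g : Slot) {A a : ℂ} (ht : ‖t‖ ≤ (g.r : ℝ) / 10 ^ 8)
    (hx : |x| ≤ 2 * (g.e : ℝ) / 10 ^ 4) (hA : ‖A‖ ≤ (nuK g.kind : ℝ) / 10 ^ 8)
    (hAa : ‖A - a‖ ≤ 3 / 10 ^ 8) (he : 0 ≤ g.e) (hn : 0 ≤ nuK g.kind ∧ nuK g.kind ≤ 70000010) :
    ‖t + Complex.exp (x * Complex.I) * A - a‖ ≤ (Dr g : ℝ) / 10 ^ 8 := by
  have h1 : t + Complex.exp (x * Complex.I) * A - a =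
      t + (Complex.exp (Complex.I * x) - 1) * A + (A - a) := by
    rw [mul_comm Complex.I (x : ℂ)]
    ring
  have h2 : ‖Complex.exp (Complex.I * x) - 1‖ ≤ |x| := by
    have := Real.norm_exp_I_mul_ofReal_sub_one_le (x := x)
    rwa [Real.norm_eq_abs] at this
  rw [h1]
  refine (norm_add_le _ _).trans ?_
  refine (add_le_add (norm_add_le _ _) le_rfl).trans ?_
  rw [norm_mul]
  have he' : (0 : ℝ) ≤ (g.e : ℝ) := by exact_mod_cast he
  have hn' : (0 : ℝ) ≤ (nuK g.kind : ℝ) := by exact_mod_cast hn.1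
  have h3 : ‖Complex.exp (Complex.I * x) - 1‖ * ‖A‖ ≤
      2 * (g.e : ℝ) / 10 ^ 4 * ((nuK g.kind : ℝ) / 10 ^ 8) :=
    mul_le_mul (h2.trans hx) hA (norm_nonneg _) (by positivity)
  have h4 : (2 * (g.e : ℝ) * (nuK g.kind : ℝ)) / 10 ^ 4 ≤
      (((2 * g.e * nuK g.kind + (QD - 1)) / QD : ℤ) : ℝ) := by
    have h5 : QD * ((2 * g.e * nuK g.kind + (QD - 1)) / QD) +
        (2 * g.e * nuK g.kind + (QD - 1)) % QD = 2 * g.e * nuK g.kind + (QD - 1) :=
      Int.mul_ediv_add_emod _ _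
    have h6 : (2 * g.e * nuK g.kind + (QD - 1)) % QD < QD :=
      Int.emod_lt_of_pos _ (by unfold QD; norm_num)
    have h7 : 2 * g.e * nuK g.kind ≤ QD * ((2 * g.e * nuK g.kind + (QD - 1)) / QD) := by
      linarith
    have h8 : ((2 * g.e * nuK g.kind : ℤ) : ℝ) ≤
        ((QD * ((2 * g.e * nuK g.kind + (QD - 1)) / QD) : ℤ) : ℝ) := by
      exact_mod_cast h7
    rw [Int.cast_mul QD] at h8
    have h9 : ((QD : ℤ) : ℝ) = 10 ^ 4 := by unfold QD; norm_num
    rw [h9] at h8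
    rw [div_le_iff₀ (by positivity)]
    push_cast at h8 ⊢
    linarith
  have h5 : (Dr g : ℝ) / 10 ^ 8 = (g.r : ℝ) / 10 ^ 8 +
      (((2 * g.e * nuK g.kind + (QD - 1)) / QD : ℤ) : ℝ) / 10 ^ 8 + 3 / 10 ^ 8 := by
    unfold Dr
    rw [Int.cast_add, Int.cast_add]
    push_cast
    ring
  rw [h5]
  have h6 : 2 * (g.e : ℝ) / 10 ^ 4 * ((nuK g.kind : ℝ) / 10 ^ 8) ≤
      (((2 * g.e * nuK g.kind + (QD - 1)) / QD : ℤ) : ℝ) / 10 ^ 8 := by
    have h7 : 2 * (g.e : ℝ) / 10 ^ 4 * ((nuK g.kind : ℝ) / 10 ^ 8) =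
      (2 * (g.e : ℝ) * (nuK g.kind : ℝ)) / 10 ^ 4 / 10 ^ 8 := by ring
    rw [h7]
    exact div_le_div_of_nonneg_right h4 (by positivity)
  linarith

theorem norm_w0 (p : ℤ) : ‖w0 p‖ = 1 := by
  have hq : ((10000 : ℂ) ^ 2 + (p : ℂ) ^ 2) = (((10000 : ℝ) ^ 2 + (p : ℝ) ^ 2 : ℝ) : ℂ) := by
    push_cast
    ring
  have hq0 : (0 : ℝ) < (10000 : ℝ) ^ 2 + (p : ℝ) ^ 2 := by positivity
  have hn : ‖(10000 : ℂ) + (p : ℂ) * Complex.I‖ ^ 2 = (10000 : ℝ) ^ 2 + (p : ℝ) ^ 2 := by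
    rw [← Complex.normSq_eq_norm_sq, Complex.normSq_apply]
    simp
    ring
  rw [w0, hq, norm_div, norm_pow, hn, Complex.norm_real, Real.norm_eq_abs, abs_of_pos hq0,
    div_self hq0.ne']

/-- `vx` rounds both coordinates of `w0 * B` down to integers (error `< √2` units), and
`bodyPt_approx` costs one more unit. -/
theorem ve_approx (G : List Slot) (c : ℕ) (hc : codeOK G c = true) :
    ‖ve G (vx G c) - vz (vx G c)‖ ≤ 3 / 10 ^ 8 := by
  obtain ⟨h1, h2⟩ := vertex_code hc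
  have h3 := vertex_round (slotOf G (c / 2000)).p (bpt (slotOf G (c / 2000)).kind (c % 2000))
  have h4 := bodyPt_approx (slotOf G (c / 2000)).kind (c % 2000) h2
  have h5 : ve G (vx G c) - vz (vx G c) =
      w0 (slotOf G (c / 2000)).p * (bodyPt (slotOf G (c / 2000)).kind (c % 2000) -
        toC (bpt (slotOf G (c / 2000)).kind (c % 2000))) +
      (w0 (slotOf G (c / 2000)).p * toC (bpt (slotOf G (c / 2000)).kind (c % 2000)) -
        vz (vx G c)) := by
    have h6 : ve G (vx G c) = w0 (slotOf G (c / 2000)).p *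
      bodyPt (slotOf G (c / 2000)).kind (c % 2000) := rfl
    rw [h6]
    ring
  rw [h5]
  refine (norm_add_le _ _).trans ?_
  rw [norm_mul, norm_w0, one_mul]
  have h7 : ‖w0 (slotOf G (c / 2000)).p * toC (bpt (slotOf G (c / 2000)).kind (c % 2000)) -
      vz (vx G c)‖ ≤ 2 / 10 ^ 8 := h3
  calc _ ≤ (1 : ℝ) / 10 ^ 8 + 2 / 10 ^ 8 := add_le_add h4 h7
    _ = 3 / 10 ^ 8 := by norm_num

theorem vz_norm (G : List Slot) (c : ℕ) (hc : codeOK G c = true) :
    ‖vz (vx G c)‖ ≤ (nuK (slotOf G (c / 2000)).kind : ℝ) / 10 ^ 8 := by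
  obtain ⟨h1, h2⟩ := vertex_code hc
  have h3 := vertex_round (slotOf G (c / 2000)).p (bpt (slotOf G (c / 2000)).kind (c % 2000))
  have h4 := table_norm (slotOf G (c / 2000)).kind (c % 2000) h2
  have h7 : ‖w0 (slotOf G (c / 2000)).p * toC (bpt (slotOf G (c / 2000)).kind (c % 2000)) -
      vz (vx G c)‖ ≤ 2 / 10 ^ 8 := h3
  have h5 : vz (vx G c) =
      w0 (slotOf G (c / 2000)).p * toC (bpt (slotOf G (c / 2000)).kind (c % 2000)) -
      (w0 (slotOf G (c / 2000)).p * toC (bpt (slotOf G (c / 2000)).kind (c % 2000)) -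
        vz (vx G c)) := by
    ring
  rw [h5]
  refine (norm_sub_le _ _).trans ?_
  rw [norm_mul, norm_w0, one_mul]
  calc _ ≤ ((nuK (slotOf G (c / 2000)).kind : ℝ) - 3) / 10 ^ 8 + 2 / 10 ^ 8 := add_le_add h4 h7
    _ ≤ (nuK (slotOf G (c / 2000)).kind : ℝ) / 10 ^ 8 := by
      have : ((nuK (slotOf G (c / 2000)).kind : ℝ) - 3) / 10 ^ 8 + 2 / 10 ^ 8 =
        (nuK (slotOf G (c / 2000)).kind : ℝ) / 10 ^ 8 - 1 / 10 ^ 8 := by ring
      rw [this]
      have h8 : (0 : ℝ) ≤ 1 / 10 ^ 8 := by positivity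
      linarith

theorem ve_norm (G : List Slot) (c : ℕ) (hc : codeOK G c = true) :
    ‖ve G (vx G c)‖ ≤ (nuK (slotOf G (c / 2000)).kind : ℝ) / 10 ^ 8 := by
  obtain ⟨h1, h2⟩ := vertex_code hc
  have h4 := bodyPt_norm (slotOf G (c / 2000)).kind (c % 2000) h2
  have h6 : ve G (vx G c) = w0 (slotOf G (c / 2000)).p *
      bodyPt (slotOf G (c / 2000)).kind (c % 2000) := rfl
  rw [h6, norm_mul, norm_w0, one_mul]
  refine h4.trans ?_
  have : ((nuK (slotOf G (c / 2000)).kind : ℝ) - 2) / 10 ^ 8 =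
    (nuK (slotOf G (c / 2000)).kind : ℝ) / 10 ^ 8 - 2 / 10 ^ 8 := by ring
  rw [this]
  have h8 : (0 : ℝ) ≤ 2 / 10 ^ 8 := by positivity
  linarith

theorem vertex_le_one {G : List Slot} {t : ℕ → ℂ} {x : ℕ → ℝ} (h : Cfg G t x)
    (hs : slotsOK G = true) {c : ℕ} (hc : codeOK G c = true) :
    ‖t (c / 2000) + Complex.exp (x (c / 2000) * Complex.I) * vz (vx G c)‖ ≤ 1 := by
  obtain ⟨hc1, hc2⟩ := vertex_code hc
  have zc := vz_norm G c hc
  have tc := h.ht _ hc1
  obtain ⟨rc0, ec0, rc1, -⟩ := vertex_slots hs _ hc1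
  refine (norm_add_le _ _).trans ?_
  rw [norm_mul, Complex.norm_exp_ofReal_mul_I, one_mul]
  have h1 : ((slotOf G (c / 2000)).r : ℝ) ≤ 29000000 := by exact_mod_cast rc1
  have h2 : (nuK (slotOf G (c / 2000)).kind : ℝ) ≤ 70000010 := by
    exact_mod_cast (vertex_nuK _).2
  have h3 : ((slotOf G (c / 2000)).r : ℝ) / 10 ^ 8 ≤ 29000000 / 10 ^ 8 :=
    div_le_div_of_nonneg_right h1 (by positivity)
  have h4 : (nuK (slotOf G (c / 2000)).kind : ℝ) / 10 ^ 8 ≤ 70000010 / 10 ^ 8 :=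
    div_le_div_of_nonneg_right h2 (by positivity)
  have h5 : (29000000 : ℝ) / 10 ^ 8 + 70000010 / 10 ^ 8 ≤ 1 := by norm_num
  linarith

/-- Robust edges. Write `A, B` for `ve` and `a, b` for `vz` of the two vertices.
Different slots: `pos = a + Δ` with `‖Δ‖ ≤ r + δ ‖A‖ + 3e-8 ≤ Dr / 10^8` (`δ = 2e/10^4`,
`|exp(ix) - 1| ≤ |x|`), same for `b`, so
`cr (a + Δ) (b + Δ') ≥ cr a b - ‖Δ‖‖b‖ - ‖a‖‖Δ'‖ - ‖Δ‖‖Δ'‖ > 0` by `edgeOK`
(`|cr z w| ≤ ‖z‖ ‖w‖`).
Same slot: `cr` is invariant under rotation, so with `t' = exp(-ix) t`, `‖t'‖ ≤ r`,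
`cr (pos v) (pos w) = cr (t' + A) (t' + B) = cr A B + cr t' (B - A)
 ≥ cr a b - 3‖b‖ - 3‖a‖ - 9 - r (‖b - a‖ + 6)` (in units `1e-8`) `> 0` by `edgeOK`
(`‖b - a‖ ≤ |Δx| + |Δy|`, `‖a‖, ‖b‖ ≤ nuK`). -/
theorem edge_pos {G : List Slot} {t : ℕ → ℂ} {x : ℕ → ℝ} (h : Cfg G t x)
    (hs : slotsOK G = true) {c d : ℕ} (hc : codeOK G c = true) (hd : codeOK G d = true)
    (he : edgeOK G (vx G c) (vx G d) = true) :
    0 < cr (pos G t x (vx G c)) (pos G t x (vx G d)) := by
  obtain ⟨hc1, hc2⟩ := vertex_code hc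
  obtain ⟨hd1, hd2⟩ := vertex_code hd
  have ac := ve_approx G c hc
  have ad := ve_approx G d hd
  have zc := vz_norm G c hc
  have zd := vz_norm G d hd
  have nc := ve_norm G c hc
  have nd := ve_norm G d hd
  have tc := h.ht _ hc1
  have td := h.ht _ hd1
  have xc := h.hx _ hc1
  obtain ⟨rc0, ec0, -, -⟩ := vertex_slots hs _ hc1
  obtain ⟨rd0, ed0, -, -⟩ := vertex_slots hs _ hd1
  have hcr : cr (vz (vx G c)) (vz (vx G d)) =
      (((vx G c).x * (vx G d).y - (vx G c).y * (vx G d).x : ℤ) : ℝ) / 10 ^ 16 := by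
    unfold cr vz
    push_cast
    ring
  have hpc : pos G t x (vx G c) =
      t (c / 2000) + Complex.exp (x (c / 2000) * Complex.I) * ve G (vx G c) := rfl
  have hpd : pos G t x (vx G d) =
      t (d / 2000) + Complex.exp (x (d / 2000) * Complex.I) * ve G (vx G d) := rfl
  have he' : (if c / 2000 = d / 2000 then
      decide ((slotOf G (c / 2000)).r * (absI ((vx G c).x - (vx G d).x) +
        absI ((vx G c).y - (vx G d).y) + 6) + 6 * nuK (slotOf G (c / 2000)).kind + 9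
        < (vx G c).x * (vx G d).y - (vx G c).y * (vx G d).x)
    else
      decide (Dr (slotOf G (c / 2000)) * nuK (slotOf G (d / 2000)).kind +
        Dr (slotOf G (d / 2000)) * nuK (slotOf G (c / 2000)).kind +
        Dr (slotOf G (c / 2000)) * Dr (slotOf G (d / 2000)) <
        (vx G c).x * (vx G d).y - (vx G c).y * (vx G d).x)) = true := he
  by_cases hcd : c / 2000 = d / 2000
  · rw [if_pos hcd, decide_eq_true_eq] at he'
    rw [hpc, hpd, ← hcd]
    rw [← hcd] at nd zd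
    set s := c / 2000 with hsd
    set E := Complex.exp (x s * Complex.I) with hE
    have hEn : ‖E‖ = 1 := Complex.norm_exp_ofReal_mul_I _
    have hEi : E * (starRingEnd ℂ) E = 1 := by
      rw [Complex.mul_conj, Complex.normSq_eq_norm_sq, hEn]
      norm_num
    set A := ve G (vx G c) with hA
    set B := ve G (vx G d) with hB
    set a := vz (vx G c) with ha
    set b := vz (vx G d) with hb
    have e1 : t s + E * A = E * ((starRingEnd ℂ) E * t s + A) := by
      linear_combination (-(t s)) * hEi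
    have e2 : t s + E * B = E * ((starRingEnd ℂ) E * t s + B) := by
      linear_combination (-(t s)) * hEi
    rw [e1, e2, vertex_cr_rot hEn]
    set u := (starRingEnd ℂ) E * t s with hu
    have hun : ‖u‖ ≤ ((slotOf G s).r : ℝ) / 10 ^ 8 := by
      rw [hu, norm_mul, RCLike.norm_conj, hEn, one_mul]
      exact tc
    have key : cr (u + A) (u + B) = cr a b + (cr (A - a) b + cr a (B - b) + cr (A - a) (B - b)) +
        cr u (B - A) := by
      unfold cr
      simp only [Complex.add_re, Complex.add_im, Complex.sub_re, Complex.sub_im]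
      ring
    have hba : ‖B - A‖ ≤ ((absI ((vx G c).x - (vx G d).x) +
        absI ((vx G c).y - (vx G d).y) + 6 : ℤ) : ℝ) / 10 ^ 8 := by
      have f1 : B - A = (b - a) + (B - b) - (A - a) := by ring
      have f2 : ‖b - a‖ ≤ ((absI ((vx G c).x - (vx G d).x) +
        absI ((vx G c).y - (vx G d).y) : ℤ) : ℝ) / 10 ^ 8 := by
        refine (Complex.norm_le_abs_re_add_abs_im _).trans ?_
        rw [ha, hb, Complex.sub_re, Complex.sub_im]
        unfold vz
        simp only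
        rw [← sub_div, ← sub_div, abs_div, abs_div, ← add_div, Int.cast_add, vertex_absI, vertex_absI]
        push_cast
        rw [abs_sub_comm ((vx G d).x : ℝ), abs_sub_comm ((vx G d).y : ℝ)]
        norm_num
      rw [f1]
      refine (norm_sub_le _ _).trans ?_
      have f3 := norm_add_le (b - a) (B - b)
      have f4 : (((absI ((vx G c).x - (vx G d).x) +
        absI ((vx G c).y - (vx G d).y) + 6 : ℤ) : ℝ)) / 10 ^ 8 =
        ((absI ((vx G c).x - (vx G d).x) +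
        absI ((vx G c).y - (vx G d).y) : ℤ) : ℝ) / 10 ^ 8 + 3 / 10 ^ 8 + 3 / 10 ^ 8 := by
        push_cast
        ring
      rw [f4]
      linarith
    have r1 := vertex_cr_ge (A - a) b ac zd
    have r2 := vertex_cr_ge a (B - b) zc ad
    have r3 := vertex_cr_ge (A - a) (B - b) ac ad
    have r4 := vertex_cr_ge u (B - A) hun hba
    have he2 : ((((slotOf G s).r * (absI ((vx G c).x - (vx G d).x) +
        absI ((vx G c).y - (vx G d).y) + 6) + 6 * nuK (slotOf G s).kind + 9 : ℤ) : ℝ)) <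
        (((vx G c).x * (vx G d).y - (vx G c).y * (vx G d).x : ℤ) : ℝ) := by
      exact_mod_cast he'
    rw [key, hcr]
    have he3 : (0 : ℝ) < (((vx G c).x * (vx G d).y - (vx G c).y * (vx G d).x : ℤ) : ℝ) / 10 ^ 16 -
        (((slotOf G s).r * (absI ((vx G c).x - (vx G d).x) +
        absI ((vx G c).y - (vx G d).y) + 6) + 6 * nuK (slotOf G s).kind + 9 : ℤ) : ℝ) / 10 ^ 16 := by
      rw [← sub_div]
      exact div_pos (by linarith) (by positivity)
    have he4 : (((slotOf G s).r * (absI ((vx G c).x - (vx G d).x) +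
        absI ((vx G c).y - (vx G d).y) + 6) + 6 * nuK (slotOf G s).kind + 9 : ℤ) : ℝ) / 10 ^ 16 =
        ((slotOf G s).r : ℝ) / 10 ^ 8 * (((absI ((vx G c).x - (vx G d).x) +
        absI ((vx G c).y - (vx G d).y) + 6 : ℤ) : ℝ) / 10 ^ 8) +
        3 / 10 ^ 8 * ((nuK (slotOf G s).kind : ℝ) / 10 ^ 8) +
        (nuK (slotOf G s).kind : ℝ) / 10 ^ 8 * (3 / 10 ^ 8) + 3 / 10 ^ 8 * (3 / 10 ^ 8) := by
      push_cast
      ring
    rw [he4] at he3
    linarith
  · rw [if_neg hcd, decide_eq_true_eq] at he'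
    have xd := h.hx _ hd1
    have dc := vertex_Dr (t (c / 2000)) (x (c / 2000)) (slotOf G (c / 2000)) tc xc nc ac ec0
      (vertex_nuK _)
    have dd := vertex_Dr (t (d / 2000)) (x (d / 2000)) (slotOf G (d / 2000)) td xd nd ad ed0
      (vertex_nuK _)
    rw [← hpc] at dc
    rw [← hpd] at dd
    set a := vz (vx G c) with ha
    set b := vz (vx G d) with hb
    set P := pos G t x (vx G c) with hP
    set Q := pos G t x (vx G d) with hQ
    have key : cr P Q = cr a b + (cr (P - a) b + cr a (Q - b) + cr (P - a) (Q - b)) := by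
      unfold cr
      simp only [Complex.sub_re, Complex.sub_im]
      ring
    have r1 := vertex_cr_ge (P - a) b dc zd
    have r2 := vertex_cr_ge a (Q - b) zc dd
    have r3 := vertex_cr_ge (P - a) (Q - b) dc dd
    have he2 : (((Dr (slotOf G (c / 2000)) * nuK (slotOf G (d / 2000)).kind +
        Dr (slotOf G (d / 2000)) * nuK (slotOf G (c / 2000)).kind +
        Dr (slotOf G (c / 2000)) * Dr (slotOf G (d / 2000)) : ℤ) : ℝ)) <
        (((vx G c).x * (vx G d).y - (vx G c).y * (vx G d).x : ℤ) : ℝ) := by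
      exact_mod_cast he'
    rw [key, hcr]
    have he3 : (0 : ℝ) < (((vx G c).x * (vx G d).y - (vx G c).y * (vx G d).x : ℤ) : ℝ) / 10 ^ 16 -
        ((Dr (slotOf G (c / 2000)) * nuK (slotOf G (d / 2000)).kind +
        Dr (slotOf G (d / 2000)) * nuK (slotOf G (c / 2000)).kind +
        Dr (slotOf G (c / 2000)) * Dr (slotOf G (d / 2000)) : ℤ) : ℝ) / 10 ^ 16 := by
      rw [← sub_div]
      exact div_pos (by linarith) (by positivity)
    have he4 : ((Dr (slotOf G (c / 2000)) * nuK (slotOf G (d / 2000)).kind +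
        Dr (slotOf G (d / 2000)) * nuK (slotOf G (c / 2000)).kind +
        Dr (slotOf G (c / 2000)) * Dr (slotOf G (d / 2000)) : ℤ) : ℝ) / 10 ^ 16 =
        (Dr (slotOf G (c / 2000)) : ℝ) / 10 ^ 8 * ((nuK (slotOf G (d / 2000)).kind : ℝ) / 10 ^ 8) +
        (nuK (slotOf G (c / 2000)).kind : ℝ) / 10 ^ 8 * ((Dr (slotOf G (d / 2000)) : ℝ) / 10 ^ 8) +
        (Dr (slotOf G (c / 2000)) : ℝ) / 10 ^ 8 * ((Dr (slotOf G (d / 2000)) : ℝ) / 10 ^ 8) := by
      push_cast
      ring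
    rw [he4] at he3
    linarith

/-- replacing exact vertices by approximate ones changes the cross product by at most
`7 M / M^2`: `‖t + exp(ix) vz‖ ≤ 0.29 + 0.7000001`, each end moves by at most `3e-8`. -/
theorem cr_pos_approx {G : List Slot} {t : ℕ → ℂ} {x : ℕ → ℝ} (h : Cfg G t x)
    (hs : slotsOK G = true) {c d : ℕ} (hc : codeOK G c = true) (hd : codeOK G d = true) :
    cr (t (c / 2000) + Complex.exp (x (c / 2000) * Complex.I) * vz (vx G c))
       (t (d / 2000) + Complex.exp (x (d / 2000) * Complex.I) * vz (vx G d)) - 7 / 10 ^ 8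
      ≤ cr (pos G t x (vx G c)) (pos G t x (vx G d)) := by
  obtain ⟨hc1, hc2⟩ := vertex_code hc
  obtain ⟨hd1, hd2⟩ := vertex_code hd
  have ac := ve_approx G c hc
  have ad := ve_approx G d hd
  have hpc : pos G t x (vx G c) =
      t (c / 2000) + Complex.exp (x (c / 2000) * Complex.I) * ve G (vx G c) := rfl
  have hpd : pos G t x (vx G d) =
      t (d / 2000) + Complex.exp (x (d / 2000) * Complex.I) * ve G (vx G d) := rfl
  have bc : ‖t (c / 2000) + Complex.exp (x (c / 2000) * Complex.I) * vz (vx G c)‖ ≤ 1 :=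
    vertex_le_one h hs hc
  have bd : ‖t (d / 2000) + Complex.exp (x (d / 2000) * Complex.I) * vz (vx G d)‖ ≤ 1 :=
    vertex_le_one h hs hd
  set P := t (c / 2000) + Complex.exp (x (c / 2000) * Complex.I) * vz (vx G c) with hP
  set Q := t (d / 2000) + Complex.exp (x (d / 2000) * Complex.I) * vz (vx G d) with hQ
  have dc : ‖pos G t x (vx G c) - P‖ ≤ 3 / 10 ^ 8 := by
    have e : pos G t x (vx G c) - P = Complex.exp (x (c / 2000) * Complex.I) *
        (ve G (vx G c) - vz (vx G c)) := by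
      rw [hpc, hP]
      ring
    rw [e, norm_mul, Complex.norm_exp_ofReal_mul_I, one_mul]
    exact ac
  have dd : ‖pos G t x (vx G d) - Q‖ ≤ 3 / 10 ^ 8 := by
    have e : pos G t x (vx G d) - Q = Complex.exp (x (d / 2000) * Complex.I) *
        (ve G (vx G d) - vz (vx G d)) := by
      rw [hpd, hQ]
      ring
    rw [e, norm_mul, Complex.norm_exp_ofReal_mul_I, one_mul]
    exact ad
  set P' := pos G t x (vx G c) with hP'
  set Q' := pos G t x (vx G d) with hQ'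
  have key : cr P' Q' = cr P Q + (cr (P' - P) Q + cr P (Q' - Q) + cr (P' - P) (Q' - Q)) := by
    unfold cr
    simp only [Complex.sub_re, Complex.sub_im]
    ring
  have r1 := vertex_cr_ge (P' - P) Q dc bd
  have r2 := vertex_cr_ge P (Q' - Q) bc dd
  have r3 := vertex_cr_ge (P' - P) (Q' - Q) dc dd
  rw [key]
  norm_num at r1 r2 r3 ⊢
  linarith

end PoolLeb
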